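import Mathlib

open Set Topology

namespace Pool.Agent.H77.Arcs

variable {E F : Type*} [NormedAddCommGroup E] [InnerProductSpace ℝ E]
  [NormedAddCommGroup F] [InnerProductSpace ℝ F]

/-- `γ` maps the nondegenerate interval `I` homeomorphically onto `A`, and is differentiable on `I`
with nonvanishing derivative (one-sided at included endpoints). -/
structure IsDiffParam (A : Set E) (γ : ℝ → E) (I : Set ℝ) : Prop where
  interval : I.OrdConnected
  nondegenerate : I.Nontrivial
  image : γ '' I = A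
  embedding : IsEmbedding (fun t : I => γ t)
  differentiable : DifferentiableOn ℝ γ I
  deriv_ne_zero : ∀ t ∈ I, derivWithin γ I t ≠ 0

/-- `A` is a differentiable rectifiable arc of length at least `δ`. -/
def IsArc (δ : ℝ) (A : Set E) : Prop :=
  ∃ (γ : ℝ → E) (I : Set ℝ), IsDiffParam A γ I ∧ ENNReal.ofReal δ ≤ eVariationOn γ I ∧
    eVariationOn γ I < ⊤

/-- `A` has a differentiable parametrisation that is real-analytic (and defined on the whole
line). -/
def IsAnalyticArc (A : Set E) : Prop :=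
  ∃ (γ : ℝ → E) (I : Set ℝ), IsDiffParam A γ I ∧ AnalyticOnNhd ℝ γ univ

/-- `e` is an endpoint of the arc `A`: a limit point of one of its two ends. -/
def IsEndpoint (A : Set E) (e : E) : Prop :=
  ∃ (γ : ℝ → E) (I : Set ℝ), IsDiffParam A γ I ∧
    ((∀ s ∈ I, e ∈ closure (γ '' (I ∩ Iic s))) ∨ (∀ s ∈ I, e ∈ closure (γ '' (I ∩ Ici s))))

/-- `𝓕` is a covering of `S` by non-overlapping differentiable rectifiable arcs of length at
least `δ`. -/
def IsCovering (S : Set E) (δ : ℝ) (𝓕 : Set (Set E)) : Prop :=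
  (∀ A ∈ 𝓕, IsArc δ A) ∧ 𝓕.PairwiseDisjoint id ∧ ⋃₀ 𝓕 = S

/-- The angle (in `[0, π/2]`) between the lines spanned by `v` and `w`. -/
noncomputable def lineAngle (v w : F) : ℝ :=
  min (InnerProductGeometry.angle v w) (Real.pi - InnerProductGeometry.angle v w)

/-- `x` has a neighbourhood which contains no endpoint of an arc of `𝓕`. -/
def EndpointFreeAt (𝓕 : Set (Set E)) (x : E) : Prop :=
  ∃ N : Set E, IsOpen N ∧ x ∈ N ∧ ∀ A ∈ 𝓕, ∀ e ∈ N, ¬ IsEndpoint A e

/-- `𝓕` is smooth at `x`, directions of tangent lines being compared in the chart `χ`. -/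
def SmoothAt (χ : E → F) (𝓕 : Set (Set E)) (x : E) : Prop :=
  ∀ ε > 0, ∃ N : Set E, IsOpen N ∧ x ∈ N ∧ (∀ A ∈ 𝓕, ∀ e ∈ N, ¬ IsEndpoint A e) ∧
    ∀ A ∈ 𝓕, ∀ B ∈ 𝓕, ∀ (γ η : ℝ → E) (I J : Set ℝ), IsDiffParam A γ I → IsDiffParam B η J →
      ∀ s ∈ I, ∀ t ∈ J, γ s ∈ N → η t ∈ N →
        lineAngle (derivWithin (χ ∘ γ) I s) (derivWithin (χ ∘ η) J t) < ε

/-- the Euclidean plane -/
abbrev E2 := EuclideanSpace ℝ (Fin 2)

/-- Euclidean three-space -/
abbrev E3 := EuclideanSpace ℝ (Fin 3)

/-- The points of the plane that have a neighbourhood free of endpoints and at which `𝓕` is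
nevertheless not smooth. -/
def planeDefect (𝓕 : Set (Set E2)) : Set E2 :=
  {x | EndpointFreeAt 𝓕 x ∧ ¬ SmoothAt (id : E2 → E2) 𝓕 x}

/-- The points of the unit sphere that have a neighbourhood free of endpoints and at which `𝓕` is
nevertheless not smooth; directions near `x` are compared in the stereographic projection from the
antipode `-x`. -/
def sphereDefect (𝓕 : Set (Set E3)) : Set (Metric.sphere (0 : E3) 1) :=
  {x | EndpointFreeAt 𝓕 (x : E3) ∧ ¬ SmoothAt (stereoToFun (-(x : E3))) 𝓕 (x : E3)}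

/-- Lebesgue measure of the defect set of the plane. -/
noncomputable def planeDefectMeasure (𝓕 : Set (Set E2)) : ENNReal :=
  MeasureTheory.volume (planeDefect 𝓕)

/-- Surface measure of the defect set of the sphere. -/
noncomputable def sphereDefectMeasure (𝓕 : Set (Set E3)) : ENNReal :=
  (MeasureTheory.volume : MeasureTheory.Measure E3).toSphere (sphereDefect 𝓕)

/-- If a continuous height function is injective on the arc `A` and its image is an interval with
ends `a, b`, then each endpoint of `A` has height `a` or `b`. -/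
theorem endpoint_height {A : Set E} {h : E → ℝ} (hc : Continuous h) (hinj : InjOn h A) {a b : ℝ}
    (h1 : Ioo a b ⊆ h '' A) (h2 : h '' A ⊆ Icc a b) {e : E} (he : IsEndpoint A e) :
    h e = a ∨ h e = b := by
  obtain ⟨γ, I, hγ, hend⟩ := he
  have himg : ∀ s ∈ I, γ s ∈ A := fun s hs => by rw [← hγ.image]; exact ⟨s, hs, rfl⟩
  have hφc : ContinuousOn (h ∘ γ) I := hc.comp_continuousOn hγ.differentiable.continuousOn
  have hγinj : InjOn γ I := by
    intro s hs t ht hst
    exact congrArg Subtype.val (hγ.embedding.injective (a₁ := ⟨s, hs⟩) (a₂ := ⟨t, ht⟩) hst)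
  have hφi : InjOn (h ∘ γ) I := fun s hs t ht hst => hγinj hs ht (hinj (himg s hs) (himg t ht) hst)
  have heA : e ∈ closure A := by
    obtain ⟨s, hs⟩ := hγ.nondegenerate.nonempty
    rcases hend with h | h
    · refine closure_mono ?_ (h s hs)
      rw [← hγ.image]
      exact image_mono inter_subset_left
    · refine closure_mono ?_ (h s hs)
      rw [← hγ.image]
      exact image_mono inter_subset_left
  have heab : h e ∈ Icc a b := by
    have : closure A ⊆ h ⁻¹' (Icc a b) := by
      refine closure_minimal ?_ (isClosed_Icc.preimage hc)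
      intro x hx
      exact h2 ⟨x, hx, rfl⟩
    exact this heA
  -- values approach both ends
  have hlow : ∀ c > a, c < b → ∃ s ∈ I, h (γ s) = c := by
    intro c hca hcb
    obtain ⟨x, hx, hxc⟩ := h1 ⟨hca, hcb⟩
    rw [← hγ.image] at hx
    obtain ⟨s, hs, rfl⟩ := hx
    exact ⟨s, hs, hxc⟩
  have hab : a < b := by
    obtain ⟨s, hs, t, ht, hst⟩ := hγ.nondegenerate
    have h3 := h2 ⟨_, himg s hs, rfl⟩
    have h4 := h2 ⟨_, himg t ht, rfl⟩
    have h5 : h (γ s) ≠ h (γ t) := fun he => hst (hφi hs ht he)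
    rcases lt_or_gt_of_ne h5 with h6 | h6
    · linarith [h3.1, h4.2]
    · linarith [h4.1, h3.2]
  have hle_a : (∀ s ∈ I, h e ≤ h (γ s)) → h e = a := by
    intro hall
    apply le_antisymm _ heab.1
    apply le_of_forall_gt_imp_ge_of_dense
    intro c hc'
    rcases lt_or_ge c b with hcb | hcb
    · obtain ⟨s, hs, hsc⟩ := hlow c hc' hcb
      rw [← hsc]; exact hall s hs
    · exact heab.2.trans hcb
  have hge_b : (∀ s ∈ I, h (γ s) ≤ h e) → h e = b := by
    intro hall
    apply le_antisymm heab.2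
    apply le_of_forall_lt_imp_le_of_dense
    intro c hc'
    rcases lt_or_ge a c with hac | hac
    · obtain ⟨s, hs, hsc⟩ := hlow c hac hc'
      rw [← hsc]; exact hall s hs
    · exact hac.trans heab.1
  -- closure estimates
  have hcl_le : ∀ (s : ℝ) (T : Set ℝ), (∀ t ∈ T, h (γ t) ≤ h (γ s)) → e ∈ closure (γ '' T) →
      h e ≤ h (γ s) := by
    intro s T hT heT
    have : closure (γ '' T) ⊆ h ⁻¹' (Iic (h (γ s))) := by
      refine closure_minimal ?_ (isClosed_Iic.preimage hc)
      rintro _ ⟨t, ht, rfl⟩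
      exact hT t ht
    exact this heT
  have hcl_ge : ∀ (s : ℝ) (T : Set ℝ), (∀ t ∈ T, h (γ s) ≤ h (γ t)) → e ∈ closure (γ '' T) →
      h (γ s) ≤ h e := by
    intro s T hT heT
    have : closure (γ '' T) ⊆ h ⁻¹' (Ici (h (γ s))) := by
      refine closure_minimal ?_ (isClosed_Ici.preimage hc)
      rintro _ ⟨t, ht, rfl⟩
      exact hT t ht
    exact this heT
  -- monotonicity
  obtain ⟨a0, ha0, b0, hb0, hab0⟩ : ∃ a0 ∈ I, ∃ b0 ∈ I, a0 < b0 := by
    obtain ⟨s, hs, t, ht, hst⟩ := hγ.nondegenerate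
    rcases lt_or_gt_of_ne hst with h | h
    · exact ⟨s, hs, t, ht, h⟩
    · exact ⟨t, ht, s, hs, h⟩
  have hIcc : ∀ s ∈ I, ∀ t ∈ I, s < t →
      StrictMonoOn (h ∘ γ) (Icc (min s a0) (max t b0)) ∨
      StrictAntiOn (h ∘ γ) (Icc (min s a0) (max t b0)) := by
    intro s hs t ht hst
    have hmin : min s a0 ∈ I := by rcases min_choice s a0 with h | h <;> rw [h] <;> assumption
    have hmax : max t b0 ∈ I := by rcases max_choice t b0 with h | h <;> rw [h] <;> assumption
    have hsub : Icc (min s a0) (max t b0) ⊆ I := hγ.interval.out hmin hmax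
    refine ContinuousOn.strictMonoOn_of_injOn_Icc' ?_ (hφc.mono hsub) (hφi.mono hsub)
    exact (min_le_left _ _).trans (hst.le.trans (le_max_left _ _))
  have key : StrictMonoOn (h ∘ γ) I ∨ StrictAntiOn (h ∘ γ) I := by
    rcases lt_or_gt_of_ne (fun he => hab0.ne (hφi ha0 hb0 he)) with h0 | h0
    · left
      intro s hs t ht hst
      rcases hIcc s hs t ht hst with h | h
      · exact h ⟨min_le_left _ _, hst.le.trans (le_max_left _ _)⟩
          ⟨(min_le_left _ _).trans hst.le, le_max_left _ _⟩ hst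
      · have := h (a := a0) (b := b0) ⟨min_le_right _ _, hab0.le.trans (le_max_right _ _)⟩
          ⟨(min_le_right _ _).trans hab0.le, le_max_right _ _⟩ hab0
        exact absurd h0 (not_lt.mpr this.le)
    · right
      intro s hs t ht hst
      rcases hIcc s hs t ht hst with h | h
      · have := h (a := a0) (b := b0) ⟨min_le_right _ _, hab0.le.trans (le_max_right _ _)⟩
          ⟨(min_le_right _ _).trans hab0.le, le_max_right _ _⟩ hab0
        exact absurd h0 (not_lt.mpr this.le)
      · exact h ⟨min_le_left _ _, hst.le.trans (le_max_left _ _)⟩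
          ⟨(min_le_left _ _).trans hst.le, le_max_left _ _⟩ hst
  rcases key with hm | hm <;> rcases hend with hl | hr
  · left
    exact hle_a fun s hs => hcl_le s _ (fun t ht => hm.monotoneOn ht.1 hs ht.2) (hl s hs)
  · right
    exact hge_b fun s hs => hcl_ge s _ (fun t ht => hm.monotoneOn hs ht.1 ht.2) (hr s hs)
  · right
    exact hge_b fun s hs => hcl_ge s _ (fun t ht => hm.antitoneOn ht.1 hs ht.2) (hl s hs)
  · left
    exact hle_a fun s hs => hcl_le s _ (fun t ht => hm.antitoneOn hs ht.1 ht.2) (hr s hs)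

theorem lineAngle_pos_of {v w : F}
    (h1 : inner ℝ v w < ‖v‖ * ‖w‖) (h2 : - (‖v‖ * ‖w‖) < inner ℝ v w) : 0 < lineAngle v w := by
  rw [lineAngle, lt_min_iff]
  constructor
  · apply lt_of_le_of_ne (InnerProductGeometry.angle_nonneg _ _)
    intro h
    have := InnerProductGeometry.inner_eq_mul_norm_of_angle_eq_zero h.symm
    linarith
  · have : InnerProductGeometry.angle v w ≠ Real.pi := by
      intro h
      have := InnerProductGeometry.inner_eq_neg_mul_norm_of_angle_eq_pi h
      linarith
    have := lt_of_le_of_ne (InnerProductGeometry.angle_le_pi v w) this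
    linarith

theorem continuousAt_lineAngle {v w : F} (hv : v ≠ 0) (hw : w ≠ 0) :
    ContinuousAt (fun p : F × F => lineAngle p.1 p.2) (v, w) := by
  have h := InnerProductGeometry.continuousAt_angle (x := (v, w)) hv hw
  exact h.min (continuousAt_const.sub h)

end Pool.Agent.H77.Arcs
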