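import Mathlib

open Set Topology

namespace Pool.Agent.H77.Wave

/-- left end of the dyadic cell of level `m` containing `c` -/
noncomputable def lft (m : ℕ) (c : ℝ) : ℝ := (⌊c * 2 ^ m⌋ : ℝ) / 2 ^ m

/-- the dyadic cell of level `m` containing `c` -/
def cell (m : ℕ) (c : ℝ) : Set ℝ := Ico (lft m c) (lft m c + 1 / 2 ^ m)

theorem two_pow_pos (m : ℕ) : (0 : ℝ) < 2 ^ m := by positivity

theorem mem_cell (m : ℕ) (c : ℝ) : c ∈ cell m c := by
  have h := two_pow_pos m
  constructor
  · rw [lft, div_le_iff₀ h]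
    exact Int.floor_le _
  · rw [lft, ← add_div, lt_div_iff₀ h]
    exact Int.lt_floor_add_one _

theorem mem_cell_iff (m : ℕ) (c c' : ℝ) : c' ∈ cell m c ↔ ⌊c' * 2 ^ m⌋ = ⌊c * 2 ^ m⌋ := by
  have h := two_pow_pos m
  rw [Int.floor_eq_iff, cell, lft, mem_Ico, div_le_iff₀ h, ← add_div, lt_div_iff₀ h]

theorem floor_level {m m' : ℕ} (h : m' ≤ m) (c : ℝ) :
    ⌊c * 2 ^ m'⌋ = ⌊c * 2 ^ m⌋ / ((2 ^ (m - m') : ℕ) : ℤ) := by
  rw [← Int.floor_div_natCast]
  congr 1
  push_cast
  rw [eq_div_iff (by positivity), mul_assoc, ← pow_add]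
  congr 2
  omega

theorem cell_level {m m' : ℕ} (h : m' ≤ m) {c c' : ℝ} (hc : c' ∈ cell m c) : c' ∈ cell m' c := by
  rw [mem_cell_iff] at hc ⊢
  rw [floor_level h, floor_level h, hc]

theorem cell_eq {m : ℕ} {c c' : ℝ} (hc : c' ∈ cell m c) : cell m c' = cell m c := by
  rw [mem_cell_iff] at hc
  simp only [cell, lft, hc]

theorem lft_eq {m : ℕ} {c c' : ℝ} (hc : c' ∈ cell m c) : lft m c' = lft m c := by
  rw [mem_cell_iff] at hc
  simp only [lft, hc]

variable (K : Set ℝ)

/-- `c` lies in `[0,1)` and in a dyadic cell disjoint from `K` -/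
def Good (c : ℝ) : Prop := c ∈ Ico (0 : ℝ) 1 ∧ ∃ m : ℕ, Disjoint (cell m c) K

open Classical in
/-- level of the maximal dyadic cell around `c` missing `K` -/
noncomputable def lev (c : ℝ) : ℕ := if h : Good K c then Nat.find h.2 else 0

/-- tent function of the cell -/
noncomputable def tent (m : ℕ) (c : ℝ) : ℝ := min (c - lft m c) (lft m c + 1 / 2 ^ m - c)

open Classical in
/-- amplitude -/
noncomputable def amp (c : ℝ) : ℝ := if Good K c then tent (lev K c) c else 0

/-- The leaf through `(0,c)`, as a function of `x`. -/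
noncomputable def g (c x : ℝ) : ℝ :=
  c + amp K c * (Real.sin (2 * Real.pi * 2 ^ (lev K c) * x) / (2 * Real.pi))

variable {K}

theorem lev_spec {c : ℝ} (h : Good K c) : Disjoint (cell (lev K c) c) K := by
  classical
  rw [lev, dif_pos h]
  exact Nat.find_spec h.2

theorem lev_min {c : ℝ} (h : Good K c) {m : ℕ} (hm : m < lev K c) : ¬ Disjoint (cell m c) K := by
  classical
  rw [lev, dif_pos h] at hm
  exact Nat.find_min h.2 hm

theorem lev_le {c : ℝ} (h : Good K c) {m : ℕ} (hm : Disjoint (cell m c) K) : lev K c ≤ m := by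
  by_contra hlt
  exact lev_min h (not_le.mp hlt) hm

theorem cell_zero_of_mem {c c' : ℝ} (h : c ∈ Ico (0 : ℝ) 1) (h' : c' ∈ cell 0 c) :
    c' ∈ Ico (0 : ℝ) 1 := by
  rw [mem_cell_iff] at h'
  simp only [pow_zero, mul_one] at h'
  have : ⌊c⌋ = 0 := by
    rw [Int.floor_eq_iff]; simpa using h
  rw [this, Int.floor_eq_iff] at h'
  simpa using h'

theorem good_of_mem {c c' : ℝ} (h : Good K c) (h' : c' ∈ cell (lev K c) c) : Good K c' := by
  refine ⟨cell_zero_of_mem h.1 (cell_level (Nat.zero_le _) h'), lev K c, ?_⟩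
  rw [cell_eq h']
  exact lev_spec h

theorem lev_of_mem {c c' : ℝ} (h : Good K c) (h' : c' ∈ cell (lev K c) c) :
    lev K c' = lev K c := by
  have hg := good_of_mem h h'
  apply le_antisymm
  · apply lev_le hg
    rw [cell_eq h']
    exact lev_spec h
  · by_contra hlt
    have hlt' := not_le.mp hlt
    have h1 := lev_spec hg
    rw [cell_eq (cell_level hlt'.le h')] at h1
    exact lev_min h hlt' h1

theorem tent_nonneg (m : ℕ) (c : ℝ) : 0 ≤ tent m c := by
  have := mem_cell m c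
  rw [tent, le_min_iff]
  exact ⟨by linarith [this.1], by linarith [this.2]⟩

theorem amp_nonneg (c : ℝ) : 0 ≤ amp K c := by
  classical
  rw [amp]
  split_ifs
  · exact tent_nonneg _ _
  · exact le_rfl

/-- distinct points are either in a common cell or far apart compared with the amplitude -/
theorem amp_le_of_not_mem {c c' : ℝ} (h : c' ∉ cell (lev K c) c) : amp K c ≤ |c' - c| := by
  classical
  rw [amp]
  split_ifs with hg
  · have hc := mem_cell (lev K c) c
    rw [cell, mem_Ico] at h hc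
    rw [tent]
    by_cases h1 : lft (lev K c) c ≤ c'
    · have h2 : lft (lev K c) c + 1 / 2 ^ (lev K c) ≤ c' := by
        by_contra h3
        exact h ⟨h1, not_le.mp h3⟩
      refine (min_le_right _ _).trans ?_
      have := le_abs_self (c' - c)
      linarith
    · push Not at h1
      refine (min_le_left _ _).trans ?_
      have := neg_abs_le (c' - c)
      linarith
  · exact abs_nonneg _

theorem abs_sin_div (y : ℝ) : |Real.sin y / (2 * Real.pi)| ≤ 1 / 6 := by
  have h1 := Real.abs_sin_le_one y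
  have h2 := Real.pi_gt_three
  rw [abs_div, abs_of_pos (by positivity : (0:ℝ) < 2 * Real.pi), div_le_div_iff₀ (by positivity) (by norm_num)]
  nlinarith

theorem g_sub_abs (c x : ℝ) : |g K c x - c| ≤ amp K c / 6 := by
  rw [g, add_sub_cancel_left, abs_mul, abs_of_nonneg (amp_nonneg c)]
  have := abs_sin_div (2 * Real.pi * 2 ^ (lev K c) * x)
  have h2 := amp_nonneg (K := K) c
  calc amp K c * |Real.sin (2 * Real.pi * 2 ^ (lev K c) * x) / (2 * Real.pi)|
      ≤ amp K c * (1 / 6) := mul_le_mul_of_nonneg_left this h2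
    _ = amp K c / 6 := by ring

theorem tent_lip {m : ℕ} {c c' : ℝ} (h : c' ∈ cell m c) : |tent m c' - tent m c| ≤ |c' - c| := by
  rw [tent, tent, lft_eq h]
  refine (abs_min_sub_min_le_max _ _ _ _).trans ?_
  apply max_le
  · apply le_of_eq; congr 1; ring
  · rw [show lft m c + 1 / 2 ^ m - c' - (lft m c + 1 / 2 ^ m - c) = -(c' - c) by ring, abs_neg]

theorem g_strictMono (x : ℝ) : StrictMono (fun c => g K c x) := by
  classical
  intro c c' hcc
  show g K c x < g K c' x
  by_cases h : Good K c ∧ c' ∈ cell (lev K c) c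
  · obtain ⟨hg, hc⟩ := h
    have hg' := good_of_mem hg hc
    have hl := lev_of_mem hg hc
    rw [g, g, amp, amp, if_pos hg, if_pos hg', hl]
    have h1 := tent_lip hc
    have h2 := abs_sin_div (2 * Real.pi * 2 ^ (lev K c) * x)
    rw [abs_of_pos (by linarith : 0 < c' - c)] at h1
    set s := Real.sin (2 * Real.pi * 2 ^ (lev K c) * x) / (2 * Real.pi)
    have h3 : |(tent (lev K c) c' - tent (lev K c) c) * s| ≤ (c' - c) * (1 / 6) := by
      rw [abs_mul]
      exact mul_le_mul h1 h2 (abs_nonneg _) (by linarith)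
    have h4 := neg_abs_le ((tent (lev K c) c' - tent (lev K c) c) * s)
    nlinarith
  · have h1 : amp K c ≤ c' - c := by
      by_cases hg : Good K c
      · have := amp_le_of_not_mem (K := K) (c := c) (c' := c') (fun hc => h ⟨hg, hc⟩)
        rwa [abs_of_pos (by linarith : 0 < c' - c)] at this
      · rw [amp, if_neg hg]; linarith
    have h2 : amp K c' ≤ c' - c := by
      by_cases hg : Good K c'
      · have hn : c ∉ cell (lev K c') c' := by
          intro hc
          apply h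
          refine ⟨good_of_mem hg hc, ?_⟩
          rw [lev_of_mem hg hc, cell_eq hc]
          exact mem_cell _ _
        have := amp_le_of_not_mem (K := K) hn
        rwa [abs_sub_comm, abs_of_pos (by linarith : 0 < c' - c)] at this
      · rw [amp, if_neg hg]; linarith
    have h3 := g_sub_abs (K := K) c x
    have h4 := g_sub_abs (K := K) c' x
    have h5 := le_abs_self (g K c x - c)
    have h6 := neg_abs_le (g K c' x - c')
    linarith

theorem g_of_not_good {c : ℝ} (h : ¬ Good K c) (x : ℝ) : g K c x = c := by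
  classical
  rw [g, amp, if_neg h]; ring

theorem g_surj (x y : ℝ) : ∃ c, g K c x = y := by
  classical
  by_cases hy : Good K y
  · set m := lev K y with hm
    set l := lft m y with hl
    let G : ℝ → ℝ := fun c => c + min (c - l) (l + 1 / 2 ^ m - c) *
      (Real.sin (2 * Real.pi * 2 ^ m * x) / (2 * Real.pi))
    have hG : Continuous G := by fun_prop
    have hlr : l ≤ l + 1 / 2 ^ m := by
      have : (0 : ℝ) < 1 / 2 ^ m := by positivity
      linarith
    have hyc := mem_cell m y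
    have h1 : G l = l := by
      simp only [G]
      rw [sub_self, min_eq_left (by linarith)]; ring
    have h2 : G (l + 1 / 2 ^ m) = l + 1 / 2 ^ m := by
      simp only [G]
      rw [sub_self, min_eq_right (by linarith)]; ring
    have hIVT := intermediate_value_Icc hlr hG.continuousOn
    rw [h1, h2] at hIVT
    obtain ⟨c, hc, hcy⟩ := hIVT ⟨hyc.1, hyc.2.le⟩
    have hcr : c < l + 1 / 2 ^ m := by
      apply lt_of_le_of_ne hc.2
      intro he
      rw [he, h2] at hcy
      have := hyc.2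
      rw [← hl, hcy] at this
      exact lt_irrefl _ this
    have hcc : c ∈ cell m y := ⟨hc.1, hcr⟩
    refine ⟨c, ?_⟩
    rw [g, amp, if_pos (good_of_mem hy hcc), lev_of_mem hy hcc, ← hm, tent, lft_eq hcc]
    exact hcy
  · exact ⟨y, g_of_not_good hy x⟩

theorem g_hasDerivAt (c x : ℝ) : HasDerivAt (g K c)
    (amp K c * 2 ^ (lev K c) * Real.cos (2 * Real.pi * 2 ^ (lev K c) * x)) x := by
  have h1 : HasDerivAt (fun x : ℝ => 2 * Real.pi * 2 ^ (lev K c) * x)
      (2 * Real.pi * 2 ^ (lev K c)) x := by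
    simpa using (hasDerivAt_id x).const_mul (2 * Real.pi * 2 ^ (lev K c))
  have h2 := ((h1.sin.div_const (2 * Real.pi)).const_mul (amp K c)).const_add c
  refine h2.congr_deriv ?_
  have := Real.pi_pos
  field_simp

theorem amp_mul_le (c : ℝ) : amp K c * 2 ^ (lev K c) ≤ 1 / 2 := by
  classical
  have h := two_pow_pos (lev K c)
  rw [amp]
  split_ifs with hg
  · rw [tent]
    set m := lev K c
    have h1 : min (c - lft m c) (lft m c + 1 / 2 ^ m - c) ≤ 1 / 2 / 2 ^ m := by
      by_contra hcon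
      push Not at hcon
      rw [lt_min_iff] at hcon
      have : (1 : ℝ) / 2 ^ m = 1 / 2 / 2 ^ m + 1 / 2 / 2 ^ m := by ring
      linarith [hcon.1, hcon.2]
    calc _ ≤ (1 / 2 / 2 ^ m) * 2 ^ m := mul_le_mul_of_nonneg_right h1 h.le
      _ = 1 / 2 := by field_simp
  · norm_num

theorem deriv_g_abs (c x : ℝ) : |deriv (g K c) x| ≤ 1 / 2 := by
  rw [(g_hasDerivAt c x).deriv, abs_mul]
  have h1 := Real.abs_cos_le_one (2 * Real.pi * 2 ^ (lev K c) * x)
  have h2 := amp_mul_le (K := K) c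
  have h3 : 0 ≤ amp K c * 2 ^ (lev K c) := mul_nonneg (amp_nonneg c) (by positivity)
  rw [abs_of_nonneg h3]
  calc _ ≤ (1 / 2 : ℝ) * 1 := mul_le_mul h2 h1 (abs_nonneg _) (by norm_num)
    _ = 1 / 2 := by norm_num

/-- Near a point of `K` in `(0,1)` there are leaves with large slopes of both signs. -/
theorem exists_slopes (hKc : IsClosed K) (hKq : ∀ q : ℚ, (q : ℝ) ∉ K) {y : ℝ} (hy : y ∈ K)
    (hy0 : y ∈ Ico (0 : ℝ) 1) (x ρ : ℝ) (hρ : 0 < ρ) :
    ∃ c x1 x2 : ℝ, |c - y| < ρ ∧ |x1 - x| < ρ ∧ |x2 - x| < ρ ∧ c ∈ Ico (0 : ℝ) 1 ∧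
      g K c x1 = c ∧ g K c x2 = c ∧
      HasDerivAt (g K c) (1 / 2) x1 ∧ HasDerivAt (g K c) (- (1 / 2)) x2 := by
  classical
  obtain ⟨M, hM⟩ : ∃ M : ℕ, (1 : ℝ) / 2 ^ M < ρ := by
    obtain ⟨M, hM⟩ := exists_pow_lt_of_lt_one hρ (by norm_num : (1 / 2 : ℝ) < 1)
    exact ⟨M, by rwa [one_div_pow] at hM⟩
  set c0 := lft M y with hc0
  have hyM := mem_cell M y
  have hc0M : c0 ∈ cell M y := ⟨le_rfl, by
    have : (0 : ℝ) < 1 / 2 ^ M := by positivity
    rw [hc0]; linarith⟩
  have hc01 : c0 ∈ Ico (0 : ℝ) 1 := cell_zero_of_mem hy0 (cell_level (Nat.zero_le _) hc0M)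
  have hc0K : c0 ∉ K := by
    have := hKq ((⌊y * 2 ^ M⌋ : ℚ) / 2 ^ M)
    push_cast at this
    exact this
  have hgood : Good K c0 := by
    refine ⟨hc01, ?_⟩
    obtain ⟨ε, hε, hball⟩ := Metric.isOpen_iff.mp hKc.isOpen_compl c0 hc0K
    obtain ⟨m, hm⟩ := exists_pow_lt_of_lt_one hε (by norm_num : (1 / 2 : ℝ) < 1)
    rw [one_div_pow] at hm
    refine ⟨m, ?_⟩
    rw [Set.disjoint_left]
    intro z hz hzK
    have h1 := mem_cell m c0
    have : z ∈ Metric.ball c0 ε := by
      rw [Metric.mem_ball, Real.dist_eq, abs_lt]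
      constructor <;> linarith [hz.1, hz.2, h1.1, h1.2]
    exact hball this hzK
  set m0 := lev K c0 with hm0
  have hMm : M < m0 := by
    by_contra hle
    push Not at hle
    have h1 : y ∈ cell m0 c0 := by
      apply cell_level hle
      rw [cell_eq hc0M]
      exact hyM
    exact Set.disjoint_left.mp (lev_spec hgood) h1 hy
  have hp0 : (0 : ℝ) < 1 / 2 ^ m0 := by positivity
  have hlft : lft m0 c0 = c0 := by
    have h1 : c0 * 2 ^ m0 = ((⌊y * 2 ^ M⌋ * 2 ^ (m0 - M) : ℤ) : ℝ) := by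
      rw [hc0, lft]
      push_cast
      rw [div_mul_eq_mul_div, div_eq_iff (by positivity), mul_assoc, ← pow_add]
      congr 2
      omega
    rw [lft, h1, Int.floor_intCast, ← h1]
    field_simp
  set c := c0 + 1 / 2 / 2 ^ m0 with hc
  have hhalf : (1 : ℝ) / 2 ^ m0 = 1 / 2 / 2 ^ m0 + 1 / 2 / 2 ^ m0 := by ring
  have hhp : (0 : ℝ) < 1 / 2 / 2 ^ m0 := by positivity
  have hcc : c ∈ cell m0 c0 := by
    rw [cell, hlft]
    constructor
    · rw [hc]; linarith
    · rw [hc]; linarith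
  have hlev : lev K c = m0 := lev_of_mem hgood hcc
  have hgc : Good K c := good_of_mem hgood hcc
  have hamp : amp K c = 1 / 2 / 2 ^ m0 := by
    rw [amp, if_pos hgc, hlev, tent, lft_eq hcc, hlft, hc, hhalf]
    rw [show c0 + 1 / 2 / 2 ^ m0 - c0 = 1 / 2 / 2 ^ m0 by ring,
      show c0 + (1 / 2 / 2 ^ m0 + 1 / 2 / 2 ^ m0) - (c0 + 1 / 2 / 2 ^ m0) = 1 / 2 / 2 ^ m0 by ring,
      min_self]
  have hmM : (1 : ℝ) / 2 ^ m0 < 1 / 2 ^ M := by
    apply one_div_lt_one_div_of_lt (by positivity)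
    exact pow_lt_pow_right₀ (by norm_num) hMm
  have hcM : c ∈ cell M y := by
    have := cell_level hMm.le hcc
    rwa [cell_eq hc0M] at this
  set j : ℤ := ⌊x * 2 ^ m0⌋ with hj
  have hxm := mem_cell m0 x
  have hpi := Real.pi_pos
  have hsin1 : 2 * Real.pi * 2 ^ m0 * ((j : ℝ) / 2 ^ m0) = (j : ℝ) * (2 * Real.pi) := by
    field_simp
  have hsin2 : 2 * Real.pi * 2 ^ m0 * ((j : ℝ) / 2 ^ m0 + 1 / 2 / 2 ^ m0) =
      Real.pi + (j : ℝ) * (2 * Real.pi) := by
    field_simp
    ring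
  refine ⟨c, (j : ℝ) / 2 ^ m0, (j : ℝ) / 2 ^ m0 + 1 / 2 / 2 ^ m0, ?_, ?_, ?_, hgc.1, ?_, ?_, ?_, ?_⟩
  · rw [abs_lt]
    constructor <;> linarith [hcM.1, hcM.2, hyM.1, hyM.2]
  · rw [abs_lt]
    have h1 := hxm.1
    have h2 := hxm.2
    rw [lft, ← hj] at h1 h2
    constructor <;> linarith
  · rw [abs_lt]
    have h1 := hxm.1
    have h2 := hxm.2
    rw [lft, ← hj] at h1 h2
    constructor <;> linarith
  · rw [g, hlev, hsin1]
    have : Real.sin ((j : ℝ) * (2 * Real.pi)) = 0 := by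
      have := Real.sin_int_mul_pi (j * 2)
      push_cast at this
      rw [← this]; ring_nf
    rw [this]; ring
  · rw [g, hlev, hsin2, Real.sin_add_int_mul_two_pi, Real.sin_pi]
    ring
  · have := g_hasDerivAt (K := K) c ((j : ℝ) / 2 ^ m0)
    rw [hlev, hsin1, hamp, Real.cos_int_mul_two_pi] at this
    refine this.congr_deriv ?_
    field_simp
  · have := g_hasDerivAt (K := K) c ((j : ℝ) / 2 ^ m0 + 1 / 2 / 2 ^ m0)
    rw [hlev, hsin2, hamp, Real.cos_add_int_mul_two_pi, Real.cos_pi] at this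
    refine this.congr_deriv ?_
    field_simp

theorem g_analytic (c : ℝ) : AnalyticOnNhd ℝ (g K c) univ := by
  intro x _
  unfold g
  fun_prop

/-- A closed set without rational points, of positive measure in `[0,1)`. -/
theorem exists_K : ∃ K : Set ℝ, IsClosed K ∧ (∀ q : ℚ, (q : ℝ) ∉ K) ∧
    0 < MeasureTheory.volume (K ∩ Ico (0 : ℝ) 1) := by
  have h0 : MeasureTheory.volume (range ((↑) : ℚ → ℝ)) = 0 :=
    (countable_range _).measure_zero _
  obtain ⟨U, hU, hUo, hUlt⟩ := (range ((↑) : ℚ → ℝ)).exists_isOpen_lt_of_lt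
    (μ := MeasureTheory.volume) 1 (by rw [h0]; exact one_pos)
  refine ⟨Uᶜ, hUo.isClosed_compl, fun q hq => hq (hU ⟨q, rfl⟩), ?_⟩
  by_contra hcon
  have h1 : MeasureTheory.volume (Uᶜ ∩ Ico (0 : ℝ) 1) = 0 := by
    simpa using hcon
  have h2 : MeasureTheory.volume (Ico (0 : ℝ) 1) ≤
      MeasureTheory.volume (Uᶜ ∩ Ico (0 : ℝ) 1) + MeasureTheory.volume U := by
    refine (MeasureTheory.measure_mono ?_).trans (MeasureTheory.measure_union_le _ _)
    intro x hx
    by_cases hxU : x ∈ U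
    · exact Or.inr hxU
    · exact Or.inl ⟨hxU, hx⟩
  rw [h1, zero_add, Real.volume_Ico] at h2
  norm_num at h2
  exact absurd (h2.trans_lt hUlt) (lt_irrefl _)

end Pool.Agent.H77.Wave
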