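import Pool.Agent.H77.ArcDefs
import Pool.Agent.H77.Wave

open Set Topology MeasureTheory

namespace Pool.Agent.H77.Arcs

open Pool.Agent.H77.Wave

theorem hasDerivAt_e2 {a b : ℝ → ℝ} {a' b' t : ℝ} (ha : HasDerivAt a a' t)
    (hb : HasDerivAt b b' t) :
    HasDerivAt (fun t => (!₂[a t, b t] : EuclideanSpace ℝ (Fin 2))) !₂[a', b'] t := by
  rw [hasDerivAt_iff_hasFDerivAt, ← hasFDerivWithinAt_univ, hasFDerivWithinAt_euclidean]
  intro i
  rw [hasFDerivWithinAt_univ]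
  fin_cases i
  · exact ha.hasFDerivAt.congr_fderiv (by ext; simp)
  · exact hb.hasFDerivAt.congr_fderiv (by ext; simp)

/-- the leaf of the plane -/
noncomputable def leaf (K : Set ℝ) (c t : ℝ) : EuclideanSpace ℝ (Fin 2) := !₂[t, g K c t]

theorem leaf_hasDerivAt (K : Set ℝ) {c t s : ℝ} (h : HasDerivAt (g K c) s t) :
    HasDerivAt (leaf K c) !₂[1, s] t :=
  hasDerivAt_e2 (hasDerivAt_id t) h

theorem leaf_param (K : Set ℝ) (c : ℝ) (k : ℤ) :
    IsDiffParam (leaf K c '' Ico (k : ℝ) (k + 1)) (leaf K c) (Ico (k : ℝ) (k + 1)) where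
  interval := ordConnected_Ico
  nondegenerate := by
    refine ⟨k, ⟨le_rfl, by linarith⟩, k + 1 / 2, ⟨by linarith, by linarith⟩, ?_⟩
    intro h
    linarith
  image := rfl
  embedding := by
    have hcont : Continuous (fun t : Ico (k : ℝ) (k + 1) => leaf K c t) := by
      have : Continuous (leaf K c) := by
        rw [continuous_iff_continuousAt]
        intro t
        exact (leaf_hasDerivAt K (g_hasDerivAt c t)).continuousAt
      exact this.comp continuous_subtype_val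
    refine IsEmbedding.of_comp hcont (g := fun p : EuclideanSpace ℝ (Fin 2) => p 0)
      (by fun_prop) ?_
    have : ((fun p : EuclideanSpace ℝ (Fin 2) => p 0) ∘ fun t : Ico (k : ℝ) (k + 1) => leaf K c t) =
        Subtype.val := by
      ext t
      simp [leaf]
    rw [this]
    exact IsEmbedding.subtypeVal
  differentiable := fun t _ =>
    (leaf_hasDerivAt K (g_hasDerivAt c t)).differentiableAt.differentiableWithinAt
  deriv_ne_zero := by
    intro t ht
    rw [(leaf_hasDerivAt K (g_hasDerivAt c t)).hasDerivWithinAt.derivWithin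
      (uniqueDiffOn_Ico _ _ t ht)]
    intro h
    have := congrArg (fun p : EuclideanSpace ℝ (Fin 2) => p 0) h
    simp at this

theorem leaf_lipschitz (K : Set ℝ) (c : ℝ) : LipschitzWith 2 (leaf K c) := by
  apply lipschitzWith_of_nnnorm_deriv_le
  · intro t
    exact (leaf_hasDerivAt K (g_hasDerivAt c t)).differentiableAt
  · intro t
    have hd := deriv_g_abs (K := K) c t
    have hd' : HasDerivAt (g K c) (deriv (g K c) t) t := (g_hasDerivAt c t).differentiableAt.hasDerivAt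
    rw [(leaf_hasDerivAt K hd').deriv]
    rw [← NNReal.coe_le_coe, coe_nnnorm, EuclideanSpace.norm_eq, Fin.sum_univ_two]
    simp only [Real.norm_eq_abs, sq_abs]
    have h1 : (deriv (g K c) t) ^ 2 ≤ 1 := by
      rw [← sq_abs]
      nlinarith [abs_nonneg (deriv (g K c) t)]
    have h2 : Real.sqrt (1 ^ 2 + (deriv (g K c) t) ^ 2) ≤ Real.sqrt (2 ^ 2) := by
      apply Real.sqrt_le_sqrt
      nlinarith
    rw [Real.sqrt_sq (by norm_num)] at h2
    simpa using h2

theorem eVariationOn_lt_top_of_lipschitz {E : Type*} [NormedAddCommGroup E] {γ : ℝ → E}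
    {C : NNReal} (hγ : LipschitzWith C γ) {I : Set ℝ} {a b : ℝ} (hab : a ≤ b) (hI : I ⊆ Icc a b) :
    eVariationOn γ I < ⊤ := by
  have h1 : eVariationOn γ I ≤ eVariationOn γ (Icc a b) := eVariationOn.mono _ hI
  have h2 : eVariationOn (γ ∘ id) (Icc a b) ≤ C * eVariationOn (id : ℝ → ℝ) (Icc a b) :=
    (hγ.lipschitzOnWith (s := univ)).comp_eVariationOn_le (fun _ _ => mem_univ _)
  have h3 : eVariationOn (id : ℝ → ℝ) (Icc a b) ≤ ENNReal.ofReal (b - a) := by
    have := (monotone_id.monotoneOn (Icc a b)).eVariationOn_eq (left_mem_Icc.mpr hab)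
      (right_mem_Icc.mpr hab)
    rw [inter_self] at this
    rw [this]
    rfl
  refine (h1.trans h2).trans_lt ?_
  exact ENNReal.mul_lt_top ENNReal.coe_lt_top (h3.trans_lt ENNReal.ofReal_lt_top)

/-- The covering of the plane. -/
def planeFamily (K : Set ℝ) : Set (Set (EuclideanSpace ℝ (Fin 2))) :=
  {A | ∃ (c : ℝ) (k : ℤ), A = leaf K c '' Ico (k : ℝ) (k + 1)}

theorem planeFamily_covering (K : Set ℝ) : IsCovering univ (1 / 2) (planeFamily K) := by
  refine ⟨?_, ?_, ?_⟩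
  · rintro A ⟨c, k, rfl⟩
    refine ⟨leaf K c, _, leaf_param K c k, ?_, ?_⟩
    · have h1 : (k : ℝ) ∈ Ico (k : ℝ) (k + 1) := ⟨le_rfl, by linarith⟩
      have h2 : (k : ℝ) + 1 / 2 ∈ Ico (k : ℝ) (k + 1) := ⟨by linarith, by linarith⟩
      refine le_trans ?_ (eVariationOn.edist_le (leaf K c) h1 h2)
      rw [edist_dist]
      apply ENNReal.ofReal_le_ofReal
      have h3 := PiLp.norm_apply_le (leaf K c (k + 1 / 2) - leaf K c k) 0
      rw [dist_comm, dist_eq_norm]
      refine le_trans ?_ h3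
      simp [leaf]
    · exact eVariationOn_lt_top_of_lipschitz (leaf_lipschitz K c)
        (by linarith : (k : ℝ) ≤ k + 1) Ico_subset_Icc_self
  · rintro A ⟨c, k, rfl⟩ B ⟨c', k', rfl⟩ hAB
    show Disjoint _ _
    rw [Set.disjoint_left]
    rintro _ ⟨t, ht, rfl⟩ ⟨t', ht', he⟩
    apply hAB
    have h0 := congrArg (fun p : EuclideanSpace ℝ (Fin 2) => p 0) he
    have h1 := congrArg (fun p : EuclideanSpace ℝ (Fin 2) => p 1) he
    simp only [leaf, PiLp.toLp_apply, Matrix.cons_val_zero, Matrix.cons_val_one,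
      Matrix.cons_val_fin_one] at h0 h1
    subst h0
    have hc : c = c' := ((g_strictMono (K := K) t').injective h1).symm
    have hk : k = k' := by
      have h2 : ⌊t'⌋ = k := by rw [Int.floor_eq_iff]; exact ht
      have h3 : ⌊t'⌋ = k' := by rw [Int.floor_eq_iff]; exact ht'
      rw [← h2, h3]
    rw [hc, hk]
  · apply Set.eq_univ_of_forall
    intro p
    obtain ⟨c, hc⟩ := g_surj (K := K) (p 0) (p 1)
    refine ⟨_, ⟨c, ⌊p 0⌋, rfl⟩, p 0, ⟨Int.floor_le _, Int.lt_floor_add_one _⟩, ?_⟩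
    ext i
    fin_cases i
    · simp [leaf]
    · simp [leaf, hc]

theorem leaf_analytic (K : Set ℝ) (c : ℝ) : AnalyticOnNhd ℝ (leaf K c) univ := by
  have h : leaf K c = (EuclideanSpace.equiv (Fin 2) ℝ).symm ∘ (fun t => ![t, g K c t]) := by
    ext t i
    fin_cases i <;> simp [leaf]
  rw [h]
  have h2 : AnalyticOnNhd ℝ (fun t => ![t, g K c t]) univ := by
    rw [analyticOnNhd_pi_iff]
    intro i
    fin_cases i
    · simpa using analyticOnNhd_id
    · simpa using g_analytic (K := K) c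
  intro t _
  exact ((EuclideanSpace.equiv (Fin 2) ℝ).symm.analyticAt _).comp (h2 t trivial)

theorem plane_endpointFree (K : Set ℝ) (p : EuclideanSpace ℝ (Fin 2)) (hp : ∀ k : ℤ, p 0 ≠ k) :
    EndpointFreeAt (planeFamily K) p := by
  refine ⟨{q | (⌊p 0⌋ : ℝ) < q 0 ∧ q 0 < ⌊p 0⌋ + 1}, ?_, ?_, ?_⟩
  · have hc : Continuous (fun q : EuclideanSpace ℝ (Fin 2) => q 0) := by fun_prop
    exact (isOpen_lt continuous_const hc).inter (isOpen_lt hc continuous_const)
  · exact ⟨lt_of_le_of_ne (Int.floor_le _) (hp _).symm, Int.lt_floor_add_one _⟩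
  · rintro A ⟨c, k, rfl⟩ e ⟨he1, he2⟩ he
    have h1 : (fun q : EuclideanSpace ℝ (Fin 2) => q 0) '' (leaf K c '' Ico (k : ℝ) (k + 1)) =
        Ico (k : ℝ) (k + 1) := by
      rw [image_image]
      simp [leaf]
    have h2 := endpoint_height (h := fun q : EuclideanSpace ℝ (Fin 2) => q 0)
      (A := leaf K c '' Ico (k : ℝ) (k + 1)) (a := k) (b := k + 1) (by fun_prop) (by
        rintro _ ⟨t, ht, rfl⟩ _ ⟨t', ht', rfl⟩ htt
        have : t = t' := by simpa [leaf] using htt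
        rw [this]) (by rw [h1]; exact Ioo_subset_Ico_self) (by rw [h1]; exact Ico_subset_Icc_self) he
    rcases h2 with h2 | h2
    · simp only at h2
      rw [h2] at he1 he2
      have h3 : ⌊p 0⌋ < k := by exact_mod_cast he1
      have h4 : (k : ℝ) < ((⌊p 0⌋ + 1 : ℤ) : ℝ) := by push_cast; exact he2
      have h5 := Int.cast_lt.mp h4
      omega
    · simp only at h2
      rw [h2] at he1 he2
      have h3 : (⌊p 0⌋ : ℝ) < ((k + 1 : ℤ) : ℝ) := by push_cast; exact he1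
      have h4 : ((k + 1 : ℤ) : ℝ) < ((⌊p 0⌋ + 1 : ℤ) : ℝ) := by push_cast; exact he2
      have h5 := Int.cast_lt.mp h3
      have h6 := Int.cast_lt.mp h4
      omega

theorem plane_not_smooth {K : Set ℝ} (hKc : IsClosed K) (hKq : ∀ q : ℚ, (q : ℝ) ∉ K)
    (p : EuclideanSpace ℝ (Fin 2)) (hp : p 1 ∈ K ∩ Ico (0 : ℝ) 1) :
    ¬ SmoothAt (id : EuclideanSpace ℝ (Fin 2) → EuclideanSpace ℝ (Fin 2)) (planeFamily K) p := by
  intro hsm
  have hpos : 0 < lineAngle (!₂[1, 1 / 2] : EuclideanSpace ℝ (Fin 2)) !₂[1, - (1 / 2)] := by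
    have hn1 : ‖(!₂[1, 1 / 2] : EuclideanSpace ℝ (Fin 2))‖ = Real.sqrt (5 / 4) := by
      rw [EuclideanSpace.norm_eq, Fin.sum_univ_two]
      congr 1
      simp
      norm_num
    have hn2 : ‖(!₂[1, - (1 / 2)] : EuclideanSpace ℝ (Fin 2))‖ = Real.sqrt (5 / 4) := by
      rw [EuclideanSpace.norm_eq, Fin.sum_univ_two]
      congr 1
      simp
      norm_num
    have hin : inner ℝ (!₂[1, 1 / 2] : EuclideanSpace ℝ (Fin 2)) !₂[1, - (1 / 2)] = 3 / 4 := by
      rw [PiLp.inner_apply, Fin.sum_univ_two]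
      simp
      norm_num
    apply lineAngle_pos_of
    · rw [hin, hn1, hn2, Real.mul_self_sqrt (by norm_num)]
      norm_num
    · rw [hin, hn1, hn2, Real.mul_self_sqrt (by norm_num)]
      norm_num
  obtain ⟨N, hN, hpN, -, hdir⟩ := hsm _ hpos
  obtain ⟨ρ, hρ, hball⟩ := Metric.isOpen_iff.mp hN p hpN
  obtain ⟨c, x1, x2, hc, hx1, hx2, -, hg1, hg2, hd1, hd2⟩ :=
    exists_slopes hKc hKq hp.1 hp.2 (p 0) (ρ / 2) (by linarith)
  have hmem : ∀ x, |x - p 0| < ρ / 2 → g K c x = c → leaf K c x ∈ N := by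
    intro x hx hgx
    apply hball
    rw [Metric.mem_ball, dist_eq_norm, EuclideanSpace.norm_eq, Fin.sum_univ_two]
    have h1 : (leaf K c x - p) 0 = x - p 0 := by simp [leaf]
    have h2 : (leaf K c x - p) 1 = c - p 1 := by simp [leaf, hgx]
    rw [h1, h2, Real.norm_eq_abs, Real.norm_eq_abs]
    have h3 : |x - p 0| ^ 2 + |c - p 1| ^ 2 < ρ ^ 2 := by
      nlinarith [abs_nonneg (x - p 0), abs_nonneg (c - p 1)]
    calc Real.sqrt (|x - p 0| ^ 2 + |c - p 1| ^ 2) < Real.sqrt (ρ ^ 2) :=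
          Real.sqrt_lt_sqrt (by positivity) h3
      _ = ρ := Real.sqrt_sq hρ.le
  have hfl : ∀ x : ℝ, x ∈ Ico (⌊x⌋ : ℝ) (⌊x⌋ + 1) := fun x =>
    ⟨Int.floor_le _, Int.lt_floor_add_one _⟩
  have h := hdir _ ⟨c, ⌊x1⌋, rfl⟩ _ ⟨c, ⌊x2⌋, rfl⟩ _ _ _ _ (leaf_param K c ⌊x1⌋)
    (leaf_param K c ⌊x2⌋) x1 (hfl x1) x2 (hfl x2) (hmem x1 hx1 hg1) (hmem x2 hx2 hg2)
  rw [Function.id_comp, (leaf_hasDerivAt K hd1).hasDerivWithinAt.derivWithin
    (uniqueDiffOn_Ico _ _ x1 (hfl x1)), (leaf_hasDerivAt K hd2).hasDerivWithinAt.derivWithin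
    (uniqueDiffOn_Ico _ _ x2 (hfl x2))] at h
  exact lt_irrefl _ h

theorem plane_measure {K : Set ℝ} (hKc : IsClosed K)
    (hK : 0 < volume (K ∩ Ico (0 : ℝ) 1)) :
    0 < volume {p : EuclideanSpace ℝ (Fin 2) | (∀ k : ℤ, p 0 ≠ k) ∧ p 1 ∈ K ∩ Ico (0 : ℝ) 1} := by
  have h1 := PiLp.volume_preserving_ofLp (Fin 2)
  let f : Fin 2 → Set ℝ := ![Ioo 0 1, K ∩ Ico (0 : ℝ) 1]
  have hf : ∀ i, MeasurableSet (f i) := by
    intro i
    fin_cases i
    · exact measurableSet_Ioo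
    · exact hKc.measurableSet.inter measurableSet_Ico
  have h2 : volume (Set.pi univ f) = volume (Ioo (0:ℝ) 1) * volume (K ∩ Ico (0 : ℝ) 1) := by
    rw [volume_pi_pi, Fin.prod_univ_two]
    rfl
  have h3 : 0 < volume (Set.pi univ f) := by
    rw [h2, Real.volume_Ioo]
    apply ENNReal.mul_pos _ hK.ne'
    simp
  have h4 := h1.measure_preimage (MeasurableSet.univ_pi hf).nullMeasurableSet
  rw [← h4] at h3
  refine h3.trans_le (measure_mono ?_)
  intro p hp
  have hp0 : p 0 ∈ Ioo (0 : ℝ) 1 := hp 0 trivial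
  have hp1 : p 1 ∈ K ∩ Ico (0 : ℝ) 1 := hp 1 trivial
  refine ⟨fun k hk => ?_, hp1⟩
  rw [hk] at hp0
  have h5 : (0 : ℤ) < k := by exact_mod_cast hp0.1
  have h6 : k < (1 : ℤ) := by exact_mod_cast hp0.2
  omega

/-- The plane part. -/
theorem plane_result :
    ∃ (δ : ℝ) (𝓕 : Set (Set E2)), 0 < δ ∧ IsCovering univ δ 𝓕 ∧
      (∀ A ∈ 𝓕, IsAnalyticArc A) ∧ 0 < planeDefectMeasure 𝓕 := by
  obtain ⟨K, hKc, hKq, hK⟩ := exists_K
  refine ⟨1 / 2, planeFamily K, by norm_num, planeFamily_covering K, ?_, ?_⟩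
  · rintro A ⟨c, k, rfl⟩
    exact ⟨_, _, leaf_param K c k, leaf_analytic K c⟩
  · refine (plane_measure hKc hK).trans_le (measure_mono ?_)
    rintro p ⟨hp0, hp1⟩
    exact ⟨plane_endpointFree K p hp0, plane_not_smooth hKc hKq p hp1⟩

end Pool.Agent.H77.Arcs
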