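import Pool.Agent.H77.ArcPlane

open Set Topology MeasureTheory

open scoped Pointwise

namespace Pool.Agent.H77.Arcs

open Pool.Agent.H77.Wave

theorem hasDerivAt_e3 {a b d : ℝ → ℝ} {a' b' d' t : ℝ} (ha : HasDerivAt a a' t)
    (hb : HasDerivAt b b' t) (hd : HasDerivAt d d' t) :
    HasDerivAt (fun t => (!₂[a t, b t, d t] : E3)) !₂[a', b', d'] t := by
  rw [hasDerivAt_iff_hasFDerivAt, ← hasFDerivWithinAt_univ, hasFDerivWithinAt_euclidean]
  intro i
  rw [hasFDerivWithinAt_univ]
  fin_cases i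
  · exact ha.hasFDerivAt.congr_fderiv (by ext; simp)
  · exact hb.hasFDerivAt.congr_fderiv (by ext; simp)
  · exact hd.hasFDerivAt.congr_fderiv (by ext; simp)

/-- spherical coordinates -/
noncomputable def sph (s θ : ℝ) : E3 :=
  !₂[Real.cos s * Real.cos θ, Real.cos s * Real.sin θ, Real.sin s]

/-- velocity of a curve `s ↦ sph s (θ s)` with `θ' = κ` -/
noncomputable def vel (s θ κ : ℝ) : E3 :=
  !₂[- Real.sin s * Real.cos θ - κ * (Real.cos s * Real.sin θ),
     - Real.sin s * Real.sin θ + κ * (Real.cos s * Real.cos θ), Real.cos s]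

/-- the leaf of the sphere -/
noncomputable def sleaf (K : Set ℝ) (c s : ℝ) : E3 := sph s (g K c s)

theorem sleaf_hasDerivAt (K : Set ℝ) {c s κ : ℝ} (h : HasDerivAt (g K c) κ s) :
    HasDerivAt (sleaf K c) (vel s (g K c s) κ) s := by
  have h1 := (Real.hasDerivAt_cos s).mul h.cos
  have h2 := (Real.hasDerivAt_cos s).mul h.sin
  refine (hasDerivAt_e3 h1 h2 (Real.hasDerivAt_sin s)).congr_deriv ?_
  ext i
  fin_cases i <;> simp [vel] <;> ring

theorem sph_norm (s θ : ℝ) : ‖sph s θ‖ = 1 := by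
  rw [EuclideanSpace.norm_eq, Fin.sum_univ_three]
  simp only [sph, PiLp.toLp_apply, Matrix.cons_val_zero, Matrix.cons_val_one, Real.norm_eq_abs, sq_abs, Matrix.cons_val]
  rw [Real.sqrt_eq_one]
  have h1 := Real.sin_sq_add_cos_sq s
  have h2 := Real.sin_sq_add_cos_sq θ
  calc _ = Real.cos s ^ 2 * (Real.sin θ ^ 2 + Real.cos θ ^ 2) + Real.sin s ^ 2 := by ring
    _ = 1 := by rw [h2]; linarith

theorem vel_inner (s θ κ κ' : ℝ) :
    inner ℝ (vel s θ κ) (vel s θ κ') = 1 + κ * κ' * Real.cos s ^ 2 := by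
  rw [PiLp.inner_apply, Fin.sum_univ_three]
  simp only [vel, PiLp.toLp_apply, Matrix.cons_val_zero, Matrix.cons_val_one,
    Matrix.cons_val, RCLike.inner_apply, conj_trivial]
  have h1 := Real.sin_sq_add_cos_sq s
  have h2 := Real.sin_sq_add_cos_sq θ
  calc _ = Real.sin s ^ 2 * (Real.sin θ ^ 2 + Real.cos θ ^ 2) +
        κ * κ' * Real.cos s ^ 2 * (Real.sin θ ^ 2 + Real.cos θ ^ 2) + Real.cos s ^ 2 := by ring
    _ = 1 + κ * κ' * Real.cos s ^ 2 := by rw [h2]; linarith

theorem sph_inner_vel (s θ κ : ℝ) : inner ℝ (sph s θ) (vel s θ κ) = 0 := by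
  rw [PiLp.inner_apply, Fin.sum_univ_three]
  simp only [vel, sph, PiLp.toLp_apply, Matrix.cons_val_zero, Matrix.cons_val_one,
    Matrix.cons_val, RCLike.inner_apply, conj_trivial]
  have h2 := Real.sin_sq_add_cos_sq θ
  calc _ = - (Real.sin s * Real.cos s) * (Real.sin θ ^ 2 + Real.cos θ ^ 2) +
        Real.sin s * Real.cos s := by ring
    _ = 0 := by rw [h2]; ring

theorem vel_norm_sq (s θ κ : ℝ) : ‖vel s θ κ‖ ^ 2 = 1 + κ ^ 2 * Real.cos s ^ 2 := by
  rw [← real_inner_self_eq_norm_sq, vel_inner]; ring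

theorem vel_ne_zero (s θ κ : ℝ) : vel s θ κ ≠ 0 := by
  intro h
  have := vel_norm_sq s θ κ
  rw [h] at this
  simp at this
  nlinarith [sq_nonneg κ, sq_nonneg (Real.cos s), mul_nonneg (sq_nonneg κ) (sq_nonneg (Real.cos s))]

/-- parameter intervals -/
noncomputable def Jv (c : ℝ) : Set ℝ :=
  if c = 3 then Ioc (-(Real.pi / 2)) (Real.pi / 2)
  else if c = 4 then Ico (-(Real.pi / 2)) (Real.pi / 2)
  else Ioo (-(Real.pi / 2)) (Real.pi / 2)

theorem Ioo_subset_Jv (c : ℝ) : Ioo (-(Real.pi / 2)) (Real.pi / 2) ⊆ Jv c := by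
  rw [Jv]
  split_ifs
  · exact Ioo_subset_Ioc_self
  · exact Ioo_subset_Ico_self
  · exact subset_rfl

theorem Jv_subset_Icc (c : ℝ) : Jv c ⊆ Icc (-(Real.pi / 2)) (Real.pi / 2) := by
  rw [Jv]
  split_ifs
  · exact Ioc_subset_Icc_self
  · exact Ico_subset_Icc_self
  · exact Ioo_subset_Icc_self

theorem Jv_ordConnected (c : ℝ) : (Jv c).OrdConnected := by
  rw [Jv]
  split_ifs
  · exact ordConnected_Ioc
  · exact ordConnected_Ico
  · exact ordConnected_Ioo

theorem Jv_uniqueDiffOn (c : ℝ) : UniqueDiffOn ℝ (Jv c) := by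
  rw [Jv]
  split_ifs
  · exact uniqueDiffOn_Ioc _ _
  · exact uniqueDiffOn_Ico _ _
  · exact uniqueDiffOn_Ioo _ _

theorem sleaf_continuous (K : Set ℝ) (c : ℝ) : Continuous (sleaf K c) := by
  rw [continuous_iff_continuousAt]
  intro t
  exact (sleaf_hasDerivAt K (g_hasDerivAt c t)).continuousAt

theorem sleaf_param (K : Set ℝ) (c : ℝ) :
    IsDiffParam (sleaf K c '' Jv c) (sleaf K c) (Jv c) where
  interval := Jv_ordConnected c
  nondegenerate := by
    have hpi := Real.pi_pos
    refine ⟨0, Ioo_subset_Jv c ⟨by linarith, by linarith⟩, Real.pi / 4,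
      Ioo_subset_Jv c ⟨by linarith, by linarith⟩, ?_⟩
    intro h
    linarith
  image := rfl
  embedding := by
    have hcont : Continuous (fun t : Jv c => sleaf K c t) :=
      (sleaf_continuous K c).comp continuous_subtype_val
    refine IsEmbedding.of_comp hcont (g := fun p : E3 => Real.arcsin (p 2))
      (Real.continuous_arcsin.comp (by fun_prop)) ?_
    have : ((fun p : E3 => Real.arcsin (p 2)) ∘ fun t : Jv c => sleaf K c t) =
        Subtype.val := by
      ext t
      have ht := Jv_subset_Icc c t.2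
      simp only [Function.comp, sleaf, sph, PiLp.toLp_apply, Matrix.cons_val]
      exact Real.arcsin_sin ht.1 ht.2
    rw [this]
    exact IsEmbedding.subtypeVal
  differentiable := fun t _ =>
    (sleaf_hasDerivAt K (g_hasDerivAt c t)).differentiableAt.differentiableWithinAt
  deriv_ne_zero := by
    intro t ht
    rw [(sleaf_hasDerivAt K (g_hasDerivAt c t)).hasDerivWithinAt.derivWithin
      (Jv_uniqueDiffOn c t ht)]
    exact vel_ne_zero _ _ _

theorem sleaf_lipschitz (K : Set ℝ) (c : ℝ) : LipschitzWith 2 (sleaf K c) := by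
  apply lipschitzWith_of_nnnorm_deriv_le
  · intro t
    exact (sleaf_hasDerivAt K (g_hasDerivAt c t)).differentiableAt
  · intro t
    have hd := deriv_g_abs (K := K) c t
    have hd' : HasDerivAt (g K c) (deriv (g K c) t) t :=
      (g_hasDerivAt c t).differentiableAt.hasDerivAt
    rw [(sleaf_hasDerivAt K hd').deriv]
    rw [← NNReal.coe_le_coe, coe_nnnorm]
    have h0 := vel_norm_sq t (g K c t) (deriv (g K c) t)
    have h1 : (deriv (g K c) t) ^ 2 ≤ 1 := by
      rw [← sq_abs]
      nlinarith [abs_nonneg (deriv (g K c) t)]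
    have h2 := Real.cos_sq_le_one t
    have h3 : ‖vel t (g K c t) (deriv (g K c) t)‖ ^ 2 ≤ 2 ^ 2 := by
      rw [h0]
      nlinarith [sq_nonneg (deriv (g K c) t), sq_nonneg (Real.cos t)]
    have h4 := abs_le_of_sq_le_sq h3 (by norm_num)
    rw [abs_of_nonneg (norm_nonneg _)] at h4
    simpa using h4

theorem g_zero (K : Set ℝ) (x : ℝ) : g K 0 x = 0 := by
  classical
  by_cases h : Good K 0
  · rw [g, amp, if_pos h, tent]
    have : lft (lev K 0) 0 = 0 := by simp [lft]
    rw [this]
    simp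
  · exact g_of_not_good h x

theorem g_two_pi (K : Set ℝ) (x : ℝ) : g K (2 * Real.pi) x = 2 * Real.pi := by
  apply g_of_not_good
  intro h
  have := h.1.2
  linarith [Real.pi_gt_three]

theorem g_mem (K : Set ℝ) (c x : ℝ) :
    g K c x ∈ Ico 0 (2 * Real.pi) ↔ c ∈ Ico 0 (2 * Real.pi) := by
  have h := g_strictMono (K := K) x
  constructor
  · rintro ⟨h1, h2⟩
    constructor
    · by_contra hc
      have := h (not_le.mp hc)
      simp only [g_zero] at this
      linarith
    · by_contra hc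
      have := h.monotone (not_lt.mp hc)
      simp only [g_two_pi] at this
      linarith
  · rintro ⟨h1, h2⟩
    constructor
    · have := h.monotone h1
      simp only [g_zero] at this
      exact this
    · have := h h2
      simp only [g_two_pi] at this
      exact this

theorem exists_angle {a b : ℝ} (h : a ^ 2 + b ^ 2 = 1) :
    ∃ θ ∈ Ico 0 (2 * Real.pi), Real.cos θ = a ∧ Real.sin θ = b := by
  set w : ℂ := ⟨a, b⟩ with hw
  have hn : ‖w‖ = 1 := by
    rw [Complex.norm_def, Complex.normSq_mk, Real.sqrt_eq_one]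
    nlinarith
  have hw0 : w ≠ 0 := by
    intro h0
    rw [h0] at hn
    simp at hn
  have hc : Real.cos (Complex.arg w) = a := by
    rw [Complex.cos_arg hw0, hn]; simp [hw]
  have hs : Real.sin (Complex.arg w) = b := by
    rw [Complex.sin_arg, hn]; simp [hw]
  have h1 := Complex.neg_pi_lt_arg w
  have h2 := Complex.arg_le_pi w
  have hpi := Real.pi_pos
  by_cases h0 : 0 ≤ Complex.arg w
  · exact ⟨_, ⟨h0, by linarith⟩, hc, hs⟩
  · refine ⟨Complex.arg w + 2 * Real.pi, ⟨by linarith, by linarith [not_le.mp h0]⟩, ?_, ?_⟩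
    · rw [Real.cos_add_two_pi, hc]
    · rw [Real.sin_add_two_pi, hs]

theorem angle_inj {θ θ' : ℝ} (h : θ ∈ Ico 0 (2 * Real.pi)) (h' : θ' ∈ Ico 0 (2 * Real.pi))
    (hc : Real.cos θ = Real.cos θ') (hs : Real.sin θ = Real.sin θ') : θ = θ' := by
  have h1 : Real.cos (θ - θ') = 1 := by
    rw [Real.cos_sub, hc, hs]
    have := Real.sin_sq_add_cos_sq θ'
    nlinarith
  rw [Real.cos_eq_one_iff_of_lt_of_lt (by linarith [h.1, h'.2]) (by linarith [h.2, h'.1])] at h1
  linarith

/-- The covering of the sphere. -/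
def sphereFamily (K : Set ℝ) : Set (Set E3) :=
  {A | ∃ c ∈ Ico 0 (2 * Real.pi), A = sleaf K c '' Jv c}

theorem cos_pos_of_mem {s : ℝ} (h : s ∈ Ioo (-(Real.pi / 2)) (Real.pi / 2)) : 0 < Real.cos s :=
  Real.cos_pos_of_mem_Ioo h

theorem mem_Jv_right {c : ℝ} (h : Real.pi / 2 ∈ Jv c) : c = 3 := by
  rw [Jv] at h
  split_ifs at h with h1 h2
  · exact h1
  · exact absurd h.2 (lt_irrefl _)
  · exact absurd h.2 (lt_irrefl _)

theorem mem_Jv_left {c : ℝ} (h : -(Real.pi / 2) ∈ Jv c) : c = 4 := by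
  rw [Jv] at h
  split_ifs at h with h1 h2
  · exact absurd h.1 (lt_irrefl _)
  · exact h2
  · exact absurd h.1 (lt_irrefl _)

theorem sphereFamily_covering (K : Set ℝ) :
    IsCovering (Metric.sphere (0 : E3) 1) 1 (sphereFamily K) := by
  have hpi := Real.pi_pos
  have hpi3 := Real.pi_gt_three
  have hpi4 : Real.pi < 4 := by linarith [Real.pi_lt_four]
  refine ⟨?_, ?_, ?_⟩
  · rintro A ⟨c, hc, rfl⟩
    refine ⟨sleaf K c, _, sleaf_param K c, ?_, ?_⟩
    · have h1 : -(Real.pi / 6) ∈ Jv c := Ioo_subset_Jv c ⟨by linarith, by linarith⟩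
      have h2 : Real.pi / 6 ∈ Jv c := Ioo_subset_Jv c ⟨by linarith, by linarith⟩
      refine le_trans ?_ (eVariationOn.edist_le (sleaf K c) h2 h1)
      rw [edist_dist]
      apply ENNReal.ofReal_le_ofReal
      have h3 := PiLp.norm_apply_le (sleaf K c (Real.pi / 6) - sleaf K c (-(Real.pi / 6))) 2
      rw [dist_eq_norm]
      refine le_trans ?_ h3
      simp [sleaf, sph]
      norm_num
    · exact eVariationOn_lt_top_of_lipschitz (sleaf_lipschitz K c)
        (by linarith : -(Real.pi / 2) ≤ Real.pi / 2) (Jv_subset_Icc c)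
  · rintro A ⟨c, hc, rfl⟩ B ⟨c', hc', rfl⟩ hAB
    show Disjoint _ _
    rw [Set.disjoint_left]
    rintro _ ⟨s, hs, rfl⟩ ⟨s', hs', he⟩
    apply hAB
    have h0 := congrArg (fun p : E3 => p 0) he
    have h1 := congrArg (fun p : E3 => p 1) he
    have h2 := congrArg (fun p : E3 => p 2) he
    simp only [sleaf, sph, PiLp.toLp_apply, Matrix.cons_val_zero, Matrix.cons_val_one,
      Matrix.cons_val] at h0 h1 h2
    have hss : s' = s := Real.injOn_sin (Jv_subset_Icc c' hs') (Jv_subset_Icc c hs) h2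
    subst hss
    have hsI := Jv_subset_Icc c hs
    have hcc : c' = c := by
      rcases eq_or_lt_of_le hsI.1 with hl | hl
      · rw [← hl] at hs hs'
        rw [mem_Jv_left hs, mem_Jv_left hs']
      · rcases eq_or_lt_of_le hsI.2 with hr | hr
        · rw [hr] at hs hs'
          rw [mem_Jv_right hs, mem_Jv_right hs']
        · have hcos := cos_pos_of_mem ⟨hl, hr⟩
          have h3 := mul_left_cancel₀ hcos.ne' h0
          have h4 := mul_left_cancel₀ hcos.ne' h1
          have h5 := angle_inj ((g_mem K c' s').mpr hc') ((g_mem K c s').mpr hc) h3 h4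
          exact (g_strictMono (K := K) s').injective h5
    rw [hcc]
  · apply Subset.antisymm
    · rintro p ⟨A, ⟨c, hc, rfl⟩, s, hs, rfl⟩
      rw [mem_sphere_zero_iff_norm]
      exact sph_norm _ _
    · intro p hp
      rw [mem_sphere_zero_iff_norm] at hp
      have hsq : p 0 ^ 2 + p 1 ^ 2 + p 2 ^ 2 = 1 := by
        have h := EuclideanSpace.norm_sq_eq p
        rw [hp, Fin.sum_univ_three] at h
        simp only [Real.norm_eq_abs, sq_abs] at h
        linarith
      have hz : p 2 ^ 2 ≤ 1 := by nlinarith [sq_nonneg (p 0), sq_nonneg (p 1)]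
      have hz1 : -1 ≤ p 2 := by nlinarith
      have hz2 : p 2 ≤ 1 := by nlinarith
      set s := Real.arcsin (p 2) with hs
      have hsin : Real.sin s = p 2 := Real.sin_arcsin hz1 hz2
      have hsI := Real.arcsin_mem_Icc (p 2)
      rw [← hs] at hsI
      rcases eq_or_lt_of_le hsI.1 with hl | hl
      · have hp2 : p 2 = -1 := by rw [← hsin, ← hl, Real.sin_neg, Real.sin_pi_div_two]
        have hp0 : p 0 = 0 := by rw [hp2] at hsq; nlinarith [sq_nonneg (p 0), sq_nonneg (p 1)]
        have hp1 : p 1 = 0 := by rw [hp2] at hsq; nlinarith [sq_nonneg (p 0), sq_nonneg (p 1)]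
        refine ⟨_, ⟨4, ⟨by norm_num, by linarith⟩, rfl⟩, -(Real.pi / 2), ?_, ?_⟩
        · rw [Jv, if_neg (by norm_num), if_pos rfl]
          exact ⟨le_rfl, by linarith⟩
        · ext i
          fin_cases i
          · simp [sleaf, sph, hp0]
          · simp [sleaf, sph, hp1]
          · simp [sleaf, sph, hp2]
      · rcases eq_or_lt_of_le hsI.2 with hr | hr
        · have hp2 : p 2 = 1 := by rw [← hsin, hr, Real.sin_pi_div_two]
          have hp0 : p 0 = 0 := by rw [hp2] at hsq; nlinarith [sq_nonneg (p 0), sq_nonneg (p 1)]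
          have hp1 : p 1 = 0 := by rw [hp2] at hsq; nlinarith [sq_nonneg (p 0), sq_nonneg (p 1)]
          refine ⟨_, ⟨3, ⟨by norm_num, by linarith⟩, rfl⟩, Real.pi / 2, ?_, ?_⟩
          · rw [Jv, if_pos rfl]
            exact ⟨by linarith, le_rfl⟩
          · ext i
            fin_cases i
            · simp [sleaf, sph, hp0]
            · simp [sleaf, sph, hp1]
            · simp [sleaf, sph, hp2]
        · have hcos := cos_pos_of_mem ⟨hl, hr⟩
          have hcs : Real.cos s ^ 2 = p 0 ^ 2 + p 1 ^ 2 := by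
            have := Real.sin_sq_add_cos_sq s
            rw [hsin] at this
            linarith
          obtain ⟨θ, hθ, hc1, hs1⟩ := exists_angle (a := p 0 / Real.cos s) (b := p 1 / Real.cos s)
            (by rw [div_pow, div_pow, ← add_div, ← hcs, div_self (by positivity)])
          obtain ⟨c, hc⟩ := g_surj (K := K) s θ
          have hcm : c ∈ Ico 0 (2 * Real.pi) := (g_mem K c s).mp (by rw [hc]; exact hθ)
          refine ⟨_, ⟨c, hcm, rfl⟩, s, Ioo_subset_Jv c ⟨hl, hr⟩, ?_⟩
          ext i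
          fin_cases i
          · simp only [sleaf, sph, hc, hc1]
            simp
            field_simp
          · simp only [sleaf, sph, hc, hs1]
            simp
            field_simp
          · simp [sleaf, sph, hsin]

theorem sleaf_analytic (K : Set ℝ) (c : ℝ) : AnalyticOnNhd ℝ (sleaf K c) univ := by
  have h : sleaf K c = (EuclideanSpace.equiv (Fin 3) ℝ).symm ∘
      (fun t => ![Real.cos t * Real.cos (g K c t), Real.cos t * Real.sin (g K c t), Real.sin t]) := by
    ext t i
    fin_cases i <;> simp [sleaf, sph]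
  rw [h]
  have hg := g_analytic (K := K) c
  have h2 : AnalyticOnNhd ℝ (fun t => ![Real.cos t * Real.cos (g K c t),
      Real.cos t * Real.sin (g K c t), Real.sin t]) univ := by
    rw [analyticOnNhd_pi_iff]
    intro i t _
    have ht := hg t trivial
    fin_cases i
    · exact Real.analyticAt_cos.mul (Real.analyticAt_cos.comp ht)
    · exact Real.analyticAt_cos.mul (Real.analyticAt_sin.comp ht)
    · exact Real.analyticAt_sin
  intro t _
  exact ((EuclideanSpace.equiv (Fin 3) ℝ).symm.analyticAt _).comp (h2 t trivial)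

theorem sphere_endpointFree (K : Set ℝ) (p : E3) (hp1 : -1 < p 2) (hp2 : p 2 < 1) :
    EndpointFreeAt (sphereFamily K) p := by
  refine ⟨{q | -1 < q 2 ∧ q 2 < 1}, ?_, ⟨hp1, hp2⟩, ?_⟩
  · have hc : Continuous (fun q : E3 => q 2) := by fun_prop
    exact (isOpen_lt continuous_const hc).inter (isOpen_lt hc continuous_const)
  · rintro A ⟨c, hc, rfl⟩ e ⟨he1, he2⟩ he
    have h1 : (fun q : E3 => q 2) '' (sleaf K c '' Jv c) = Real.sin '' Jv c := by
      rw [image_image]
      simp [sleaf, sph]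
    have hpi := Real.pi_pos
    have h2 := endpoint_height (h := fun q : E3 => q 2)
      (A := sleaf K c '' Jv c) (a := -1) (b := 1) (by fun_prop) (by
        rintro _ ⟨t, ht, rfl⟩ _ ⟨t', ht', rfl⟩ htt
        have h3 : Real.sin t = Real.sin t' := by simpa [sleaf, sph] using htt
        have : t = t' := Real.injOn_sin (Jv_subset_Icc c ht) (Jv_subset_Icc c ht') h3
        rw [this]) (by
        rw [h1]
        intro z hz
        refine ⟨Real.arcsin z, Ioo_subset_Jv c ⟨?_, ?_⟩, Real.sin_arcsin hz.1.le hz.2.le⟩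
        · exact Real.neg_pi_div_two_lt_arcsin.mpr hz.1
        · exact Real.arcsin_lt_pi_div_two.mpr hz.2) (by
        rw [h1]
        rintro _ ⟨t, -, rfl⟩
        exact ⟨Real.neg_one_le_sin t, Real.sin_le_one t⟩) he
    simp only at h2
    rcases h2 with h2 | h2
    · rw [h2] at he1; exact lt_irrefl _ he1
    · rw [h2] at he2; exact lt_irrefl _ he2

end Pool.Agent.H77.Arcs
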