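import Pool.Agent.H77.ArcSphere

open Set Topology MeasureTheory

open scoped Pointwise

namespace Pool.Agent.H77.Arcs

open Pool.Agent.H77.Wave

/-- the derivative of the stereographic projection with pole `v` at `p` in direction `w` -/
noncomputable def dstereo (v p w : E3) : (ℝ ∙ v)ᗮ :=
  (2 * inner ℝ v w / (1 - inner ℝ v p) ^ 2) • (ℝ ∙ v)ᗮ.orthogonalProjectionOnto p +
    (2 / (1 - inner ℝ v p)) • (ℝ ∙ v)ᗮ.orthogonalProjectionOnto w

theorem stereo_hasDerivWithinAt {v : E3} {γ : ℝ → E3} {w : E3} {I : Set ℝ} {s : ℝ}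
    (hγ : HasDerivWithinAt γ w I s) (hne : 1 - inner ℝ v (γ s) ≠ 0) :
    HasDerivWithinAt (stereoToFun v ∘ γ) (dstereo v (γ s) w) I s := by
  have h1 : HasDerivWithinAt (fun t => inner ℝ v (γ t)) (inner ℝ v w) I s := by
    have := (hasDerivWithinAt_const s I v).inner ℝ hγ
    simpa using this
  have h2 : HasDerivWithinAt (fun t => (2 : ℝ) / (1 - inner ℝ v (γ t)))
      (2 * inner ℝ v w / (1 - inner ℝ v (γ s)) ^ 2) I s := by
    have := (hasDerivWithinAt_const s I (2 : ℝ)).div (h1.const_sub 1) hne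
    refine this.congr_deriv ?_
    simp
  have h3 : HasDerivWithinAt (fun t => (ℝ ∙ v)ᗮ.orthogonalProjectionOnto (γ t))
      ((ℝ ∙ v)ᗮ.orthogonalProjectionOnto w) I s :=
    (ℝ ∙ v)ᗮ.orthogonalProjectionOnto.hasFDerivAt.comp_hasDerivWithinAt s hγ
  have h4 := h2.smul h3
  refine (h4.congr_deriv ?_)
  rw [dstereo, add_comm]

theorem dstereo_at (x w : E3) (hx : ‖x‖ = 1) (hw : inner ℝ x w = 0) :
    ((dstereo (-x) x w : (ℝ ∙ (-x))ᗮ) : E3) = w := by
  have h1 : inner ℝ (-x) w = 0 := by rw [inner_neg_left, hw, neg_zero]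
  have h2 : inner ℝ (-x) x = -1 := by
    rw [inner_neg_left, real_inner_self_eq_norm_sq, hx]; norm_num
  have h3 : (((ℝ ∙ (-x))ᗮ.orthogonalProjectionOnto w : (ℝ ∙ (-x))ᗮ) : E3) = w := by
    have hmem : w ∈ (ℝ ∙ (-x))ᗮ := by
      rw [Submodule.mem_orthogonal_singleton_iff_inner_right]
      exact h1
    have := Submodule.orthogonalProjectionOnto_mem_subspace_eq_self (K := (ℝ ∙ (-x))ᗮ) ⟨w, hmem⟩
    rw [this]
  rw [dstereo, h1, h2]
  simp only [mul_zero, zero_div, zero_smul, zero_add]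
  rw [show (2 : ℝ) / (1 - -1) = 1 by norm_num, one_smul]
  exact h3

theorem continuous_sph : Continuous (fun q : ℝ × ℝ => sph q.1 q.2) := by
  unfold sph
  apply (PiLp.continuous_toLp 2 _).comp
  apply continuous_pi
  intro i
  fin_cases i <;> simp <;> fun_prop

theorem continuous_vel (κ : ℝ) : Continuous (fun q : ℝ × ℝ => vel q.1 q.2 κ) := by
  unfold vel
  apply (PiLp.continuous_toLp 2 _).comp
  apply continuous_pi
  intro i
  fin_cases i <;> simp <;> fun_prop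

theorem continuousAt_dstereo (κ : ℝ) (v : E3) (s y : ℝ) (hne : 1 - inner ℝ v (sph s y) ≠ 0) :
    ContinuousAt (fun q : ℝ × ℝ => dstereo v (sph q.1 q.2) (vel q.1 q.2 κ)) (s, y) := by
  unfold dstereo
  have h1 := continuous_sph
  have h2 := continuous_vel κ
  have h3 : Continuous (fun q : ℝ × ℝ => 1 - inner ℝ v (sph q.1 q.2)) := by fun_prop
  have h4 : Continuous (fun q : ℝ × ℝ => 2 * inner ℝ v (vel q.1 q.2 κ)) := by fun_prop
  have h5 : Continuous (fun q : ℝ × ℝ => (ℝ ∙ v)ᗮ.orthogonalProjectionOnto (sph q.1 q.2)) :=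
    (ℝ ∙ v)ᗮ.orthogonalProjectionOnto.continuous.comp h1
  have h6 : Continuous (fun q : ℝ × ℝ => (ℝ ∙ v)ᗮ.orthogonalProjectionOnto (vel q.1 q.2 κ)) :=
    (ℝ ∙ v)ᗮ.orthogonalProjectionOnto.continuous.comp h2
  refine ContinuousAt.add ?_ ?_
  · have h7 : ContinuousAt (fun q : ℝ × ℝ => 2 * inner ℝ v (vel q.1 q.2 κ) /
        (1 - inner ℝ v (sph q.1 q.2)) ^ 2) (s, y) :=
      h4.continuousAt.div (h3.pow 2).continuousAt (pow_ne_zero 2 hne)
    exact h7.smul h5.continuousAt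
  · have h7 : ContinuousAt (fun q : ℝ × ℝ => 2 / (1 - inner ℝ v (sph q.1 q.2))) (s, y) :=
      continuousAt_const.div h3.continuousAt hne
    exact h7.smul h6.continuousAt

theorem continuousAt_lineAngle_pair {F : Type*} [NormedAddCommGroup F] [InnerProductSpace ℝ F]
    {D1 D2 : ℝ × ℝ → F} {z : ℝ × ℝ} (h1 : ContinuousAt D1 z) (h2 : ContinuousAt D2 z)
    (hz1 : D1 z ≠ 0) (hz2 : D2 z ≠ 0) :
    ContinuousAt (fun q : (ℝ × ℝ) × (ℝ × ℝ) => lineAngle (D1 q.1) (D2 q.2)) (z, z) := by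
  have c0 : Filter.Tendsto (fun q : (ℝ × ℝ) × (ℝ × ℝ) => D1 q.1) (𝓝 (z, z)) (𝓝 (D1 z)) :=
    Filter.Tendsto.comp h1 (continuous_fst.tendsto (z, z))
  have c0' : Filter.Tendsto (fun q : (ℝ × ℝ) × (ℝ × ℝ) => D2 q.2) (𝓝 (z, z)) (𝓝 (D2 z)) :=
    Filter.Tendsto.comp h2 (continuous_snd.tendsto (z, z))
  have c1 := c0.prodMk_nhds c0'
  have c2 : Filter.Tendsto (fun p : F × F => lineAngle p.1 p.2) (𝓝 (D1 z, D2 z))
    (𝓝 (lineAngle (D1 z) (D2 z))) := continuousAt_lineAngle hz1 hz2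
  have c3 := c2.comp c1
  exact c3

theorem sphere_not_smooth {K : Set ℝ} (hKc : IsClosed K) (hKq : ∀ q : ℚ, (q : ℝ) ∉ K)
    (s y : ℝ) (hs : s ∈ Ioo (-(Real.pi / 2)) (Real.pi / 2)) (hy : y ∈ K ∩ Ico (0 : ℝ) 1) :
    ¬ SmoothAt (stereoToFun (-(sph s y))) (sphereFamily K) (sph s y) := by
  intro hsm
  set x := sph s y with hx
  have hx1 : ‖x‖ = 1 := sph_norm s y
  have hne : 1 - inner ℝ (-x) x ≠ 0 := by
    rw [inner_neg_left, real_inner_self_eq_norm_sq, hx1]; norm_num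
  have hcos := cos_pos_of_mem hs
  set v1 := dstereo (-x) x (vel s y (1 / 2)) with hv1
  set v2 := dstereo (-x) x (vel s y (-(1 / 2))) with hv2
  have e1 : (v1 : E3) = vel s y (1 / 2) := dstereo_at x _ hx1 (sph_inner_vel _ _ _)
  have e2 : (v2 : E3) = vel s y (-(1 / 2)) := dstereo_at x _ hx1 (sph_inner_vel _ _ _)
  have hv10 : v1 ≠ 0 := by
    intro h
    rw [h] at e1
    exact vel_ne_zero _ _ _ e1.symm
  have hv20 : v2 ≠ 0 := by
    intro h
    rw [h] at e2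
    exact vel_ne_zero _ _ _ e2.symm
  have hpos : 0 < lineAngle v1 v2 := by
    have hin : inner ℝ v1 v2 = 1 + (1 / 2) * (-(1 / 2)) * Real.cos s ^ 2 := by
      rw [Submodule.coe_inner, e1, e2, vel_inner]
    have hn1 : ‖v1‖ ^ 2 = 1 + (1 / 2) ^ 2 * Real.cos s ^ 2 := by
      rw [Submodule.coe_norm, e1, vel_norm_sq]
    have hn2 : ‖v2‖ ^ 2 = 1 + (-(1 / 2)) ^ 2 * Real.cos s ^ 2 := by
      rw [Submodule.coe_norm, e2, vel_norm_sq]
    have hnn : ‖v1‖ = ‖v2‖ := by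
      have : ‖v1‖ ^ 2 = ‖v2‖ ^ 2 := by rw [hn1, hn2]; ring
      have h1 := norm_nonneg v1
      have h2 := norm_nonneg v2
      nlinarith [sq_nonneg (‖v1‖ - ‖v2‖), sq_nonneg (‖v1‖ + ‖v2‖)]
    have hc1 := Real.cos_sq_le_one s
    have hc2 : 0 < Real.cos s ^ 2 := by positivity
    apply lineAngle_pos_of
    · rw [hin, ← hnn, ← sq, hn1]; nlinarith
    · rw [hin, ← hnn, ← sq, hn1]; nlinarith
  obtain ⟨N, hN, hxN, -, hdir⟩ := hsm (lineAngle v1 v2 / 2) (by linarith)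
  -- continuity
  let L : (ℝ × ℝ) × (ℝ × ℝ) → ℝ := fun q =>
    lineAngle (dstereo (-x) (sph q.1.1 q.1.2) (vel q.1.1 q.1.2 (1 / 2)))
      (dstereo (-x) (sph q.2.1 q.2.2) (vel q.2.1 q.2.2 (-(1 / 2))))
  have hL : ContinuousAt L ((s, y), (s, y)) :=
    continuousAt_lineAngle_pair
      (D1 := fun q : ℝ × ℝ => dstereo (-x) (sph q.1 q.2) (vel q.1 q.2 (1 / 2)))
      (D2 := fun q : ℝ × ℝ => dstereo (-x) (sph q.1 q.2) (vel q.1 q.2 (-(1 / 2))))
      (continuousAt_dstereo (1 / 2) (-x) s y hne) (continuousAt_dstereo (-(1 / 2)) (-x) s y hne)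
      hv10 hv20
  have hLpos : ∀ᶠ q in 𝓝 ((s, y), (s, y)), lineAngle v1 v2 / 2 < L q := by
    have : lineAngle v1 v2 / 2 < L ((s, y), (s, y)) := by
      show lineAngle v1 v2 / 2 < lineAngle v1 v2
      linarith
    exact hL.eventually_const_lt this
  have hNe : ∀ᶠ q : ℝ × ℝ in 𝓝 (s, y), sph q.1 q.2 ∈ N :=
    continuous_sph.continuousAt.eventually_mem (hN.mem_nhds hxN)
  have hnee : ∀ᶠ q : ℝ × ℝ in 𝓝 (s, y), 1 - inner ℝ (-x) (sph q.1 q.2) ≠ 0 := by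
    have hcont : Continuous (fun q : ℝ × ℝ => 1 - inner ℝ (-x) (sph q.1 q.2)) := by
      have := continuous_sph
      fun_prop
    exact hcont.continuousAt.eventually_ne hne
  have hse : ∀ᶠ q : ℝ × ℝ in 𝓝 (s, y), q.1 ∈ Ioo (-(Real.pi / 2)) (Real.pi / 2) :=
    continuous_fst.continuousAt.eventually_mem (Ioo_mem_nhds hs.1 hs.2)
  have hall := (hNe.and (hnee.and hse))
  have hall2 : ∀ᶠ q : (ℝ × ℝ) × (ℝ × ℝ) in 𝓝 ((s, y), (s, y)),
      (lineAngle v1 v2 / 2 < L q) ∧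
      (sph q.1.1 q.1.2 ∈ N ∧ 1 - inner ℝ (-x) (sph q.1.1 q.1.2) ≠ 0 ∧
        q.1.1 ∈ Ioo (-(Real.pi / 2)) (Real.pi / 2)) ∧
      (sph q.2.1 q.2.2 ∈ N ∧ 1 - inner ℝ (-x) (sph q.2.1 q.2.2) ≠ 0 ∧
        q.2.1 ∈ Ioo (-(Real.pi / 2)) (Real.pi / 2)) := by
    have a1 : ∀ᶠ q : (ℝ × ℝ) × (ℝ × ℝ) in 𝓝 ((s, y), (s, y)),
      (sph q.1.1 q.1.2 ∈ N ∧ 1 - inner ℝ (-x) (sph q.1.1 q.1.2) ≠ 0 ∧
        q.1.1 ∈ Ioo (-(Real.pi / 2)) (Real.pi / 2)) :=
      (continuous_fst.tendsto ((s, y), (s, y))).eventually hall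
    have a2 : ∀ᶠ q : (ℝ × ℝ) × (ℝ × ℝ) in 𝓝 ((s, y), (s, y)),
      (sph q.2.1 q.2.2 ∈ N ∧ 1 - inner ℝ (-x) (sph q.2.1 q.2.2) ≠ 0 ∧
        q.2.1 ∈ Ioo (-(Real.pi / 2)) (Real.pi / 2)) :=
      (continuous_snd.tendsto ((s, y), (s, y))).eventually hall
    exact hLpos.and (a1.and a2)
  obtain ⟨ρ, hρ, hball⟩ := Metric.eventually_nhds_iff.mp hall2
  obtain ⟨c, x1, x2, hc, hx1', hx2', hc01, hg1, hg2, hd1, hd2⟩ :=
    exists_slopes hKc hKq hy.1 hy.2 s ρ hρ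
  obtain ⟨h1, ⟨h2N, h2ne, h2I⟩, ⟨h3N, h3ne, h3I⟩⟩ := hball (y := ((x1, c), (x2, c))) (by
    rw [Prod.dist_eq, Prod.dist_eq, Prod.dist_eq]
    simp only [Real.dist_eq]
    exact max_lt (max_lt hx1' hc) (max_lt hx2' hc))
  simp only at h2N h2ne h2I h3N h3ne h3I
  have hcm : c ∈ Ico 0 (2 * Real.pi) := ⟨hc01.1, by linarith [hc01.2, Real.pi_gt_three]⟩
  have p1 : sleaf K c x1 = sph x1 c := by rw [sleaf, hg1]
  have p2 : sleaf K c x2 = sph x2 c := by rw [sleaf, hg2]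
  have h := hdir _ ⟨c, hcm, rfl⟩ _ ⟨c, hcm, rfl⟩ _ _ _ _ (sleaf_param K c)
    (sleaf_param K c) x1 (Ioo_subset_Jv c h2I) x2 (Ioo_subset_Jv c h3I) (by rw [p1]; exact h2N)
    (by rw [p2]; exact h3N)
  have d1 := stereo_hasDerivWithinAt (v := -x)
    ((sleaf_hasDerivAt K hd1).hasDerivWithinAt (s := Jv c)) (by rw [p1]; exact h2ne)
  have d2 := stereo_hasDerivWithinAt (v := -x)
    ((sleaf_hasDerivAt K hd2).hasDerivWithinAt (s := Jv c)) (by rw [p2]; exact h3ne)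
  rw [d1.derivWithin (Jv_uniqueDiffOn c x1 (Ioo_subset_Jv c h2I)),
    d2.derivWithin (Jv_uniqueDiffOn c x2 (Ioo_subset_Jv c h3I)), p1, p2, hg1, hg2] at h
  have h1' : lineAngle v1 v2 / 2 < lineAngle (dstereo (-x) (sph x1 c) (vel x1 c (1 / 2)))
      (dstereo (-x) (sph x2 c) (vel x2 c (-(1 / 2)))) := h1
  linarith

/-- the part of the sphere over `K` -/
def sphereSet (K : Set ℝ) : Set (Metric.sphere (0 : E3) 1) :=
  {x | 0 < (x : E3) 0 ∧ Real.arctan ((x : E3) 1 / (x : E3) 0) ∈ K ∩ Ico (0 : ℝ) 1}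

theorem sphereSet_coords {K : Set ℝ} {x : Metric.sphere (0 : E3) 1} (hx : x ∈ sphereSet K) :
    ∃ s ∈ Ioo (-(Real.pi / 2)) (Real.pi / 2), ∃ y ∈ K ∩ Ico (0 : ℝ) 1, (x : E3) = sph s y ∧
      -1 < (x : E3) 2 ∧ (x : E3) 2 < 1 := by
  obtain ⟨hx0, hxy⟩ := hx
  have hn : ‖(x : E3)‖ = 1 := mem_sphere_zero_iff_norm.mp x.2
  have hsq : (x : E3) 0 ^ 2 + (x : E3) 1 ^ 2 + (x : E3) 2 ^ 2 = 1 := by
    have h := EuclideanSpace.norm_sq_eq (x : E3)
    rw [hn, Fin.sum_univ_three] at h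
    simp only [Real.norm_eq_abs, sq_abs] at h
    linarith
  set a := (x : E3) 0
  set b := (x : E3) 1
  set d := (x : E3) 2
  have ha2 : 0 < a ^ 2 := by positivity
  have hd2 : d ^ 2 < 1 := by nlinarith [sq_nonneg b]
  have hd : -1 < d ∧ d < 1 := by constructor <;> nlinarith
  set s := Real.arcsin d with hs
  have hsin : Real.sin s = d := Real.sin_arcsin hd.1.le hd.2.le
  have hsI : s ∈ Ioo (-(Real.pi / 2)) (Real.pi / 2) :=
    ⟨Real.neg_pi_div_two_lt_arcsin.mpr hd.1, Real.arcsin_lt_pi_div_two.mpr hd.2⟩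
  have hcos := cos_pos_of_mem hsI
  have hcs : Real.cos s ^ 2 = a ^ 2 + b ^ 2 := by
    have := Real.sin_sq_add_cos_sq s
    rw [hsin] at this
    linarith
  set y := Real.arctan (b / a) with hy
  have hcy : 0 < Real.cos y := Real.cos_arctan_pos _
  have htan : Real.tan y = b / a := Real.tan_arctan _
  have hsy : Real.sin y = b / a * Real.cos y := by
    rw [← htan, Real.tan_mul_cos hcy.ne']
  have h1 : (Real.cos s * Real.cos y) ^ 2 = a ^ 2 := by
    have h2 := Real.sin_sq_add_cos_sq y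
    rw [hsy] at h2
    have h3 : (b ^ 2 + a ^ 2) * Real.cos y ^ 2 = a ^ 2 := by
      field_simp at h2
      linarith
    rw [mul_pow, hcs]
    linarith
  have h2 : Real.cos s * Real.cos y = a := by
    have h3 : 0 < Real.cos s * Real.cos y := mul_pos hcos hcy
    nlinarith
  refine ⟨s, hsI, y, hxy, ?_, hd.1, hd.2⟩
  ext i
  fin_cases i
  · simp [sph]
    exact h2.symm
  · simp only [sph]
    simp
    rw [hsy, ← mul_assoc, mul_comm (Real.cos s), mul_assoc, h2]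
    field_simp
    rfl
  · simp [sph]
    exact hsin.symm

theorem sphereSet_measurable {K : Set ℝ} (hKc : IsClosed K) : MeasurableSet (sphereSet K) := by
  have h0 : Measurable (fun x : Metric.sphere (0 : E3) 1 => (x : E3) 0) := by fun_prop
  have h1 : Measurable (fun x : Metric.sphere (0 : E3) 1 => (x : E3) 1) := by fun_prop
  refine (measurableSet_lt measurable_const h0).inter ?_
  exact (Real.measurable_arctan.comp (h1.div h0)) (hKc.measurableSet.inter measurableSet_Ico)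

theorem cone_measure {K : Set ℝ} (hKc : IsClosed K) (hK : 0 < volume (K ∩ Ico (0 : ℝ) 1)) :
    0 < volume (Ioo (0 : ℝ) 1 • ((↑) '' sphereSet K : Set E3)) := by
  set C : Set E3 := Ioo (0 : ℝ) 1 • ((↑) '' sphereSet K : Set E3) with hC
  by_contra hcon
  have hC0 : volume C = 0 := by simpa using hcon
  let G : E3 → E3 := fun p => !₂[Real.arctan (p 1 / p 0), p 0, p 2]
  have hsub : ∀ p ∈ C, 0 < p 0 := by
    rintro p ⟨t, ht, _, ⟨x, hx, rfl⟩, rfl⟩
    exact mul_pos ht.1 hx.1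
  have hG : DifferentiableOn ℝ G C := by
    rw [differentiableOn_euclidean]
    intro i
    have h0 : DifferentiableOn ℝ (fun p : E3 => p 0) C := by fun_prop
    have h1 : DifferentiableOn ℝ (fun p : E3 => p 1) C := by fun_prop
    fin_cases i
    · show DifferentiableOn ℝ (fun p : E3 => Real.arctan (p 1 / p 0)) C
      simp only [div_eq_mul_inv]
      exact Real.differentiable_arctan.comp_differentiableOn
        (h1.mul (h0.inv (fun p hp => (hsub p hp).ne')))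
    · exact h0
    · show DifferentiableOn ℝ (fun p : E3 => p 2) C
      fun_prop
  have hGC := addHaar_image_eq_zero_of_differentiableOn_of_addHaar_eq_zero volume hG hC0
  -- the image contains a product set
  let f : Fin 3 → Set ℝ := ![K ∩ Ico (0 : ℝ) 1, Ioo 0 (1 / 4), Ioo 0 (1 / 4)]
  have hf : ∀ i, MeasurableSet (f i) := by
    intro i
    fin_cases i
    · exact hKc.measurableSet.inter measurableSet_Ico
    · exact measurableSet_Ioo
    · exact measurableSet_Ioo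
  have h2 : 0 < volume (Set.pi univ f) := by
    rw [volume_pi_pi, Fin.prod_univ_three]
    show 0 < volume (K ∩ Ico (0 : ℝ) 1) * volume (Ioo (0:ℝ) (1 / 4)) * volume (Ioo (0:ℝ) (1 / 4))
    rw [Real.volume_Ioo]
    apply ENNReal.mul_pos
    · apply (ENNReal.mul_pos hK.ne' _).ne'
      simp
    · simp
  have h3 := (PiLp.volume_preserving_ofLp (Fin 3)).measure_preimage
    (MeasurableSet.univ_pi hf).nullMeasurableSet
  rw [← h3] at h2
  refine absurd (measure_mono_null ?_ hGC) h2.ne'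
  intro q hq
  have hq0 : q 0 ∈ K ∩ Ico (0 : ℝ) 1 := hq 0 trivial
  have hq1 : q 1 ∈ Ioo (0 : ℝ) (1 / 4) := hq 1 trivial
  have hq2 : q 2 ∈ Ioo (0 : ℝ) (1 / 4) := hq 2 trivial
  set θ := q 0
  set a := q 1
  set d := q 2
  have hθ0 : 0 ≤ θ := hq0.2.1
  have hθ1 : θ < 1 := hq0.2.2
  have hcos : 1 / 2 ≤ Real.cos θ := by
    have := Real.one_sub_sq_div_two_le_cos (x := θ)
    nlinarith
  have hpi := Real.pi_gt_three
  let p : E3 := !₂[a, a * Real.tan θ, d]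
  have hp0 : p 0 = a := by simp [p]
  have hp1 : p 1 = a * Real.tan θ := by simp [p]
  have hp2 : p 2 = d := by simp [p]
  have hnp : ‖p‖ ^ 2 = a ^ 2 + (a * Real.tan θ) ^ 2 + d ^ 2 := by
    rw [EuclideanSpace.norm_sq_eq, Fin.sum_univ_three, hp0, hp1, hp2]
    simp only [Real.norm_eq_abs, sq_abs]
  have htan : a ^ 2 + (a * Real.tan θ) ^ 2 = a ^ 2 / Real.cos θ ^ 2 := by
    rw [Real.tan_eq_sin_div_cos]
    have := Real.sin_sq_add_cos_sq θ
    field_simp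
    nlinarith
  have hle : a ^ 2 / Real.cos θ ^ 2 ≤ 4 * a ^ 2 := by
    rw [div_le_iff₀ (by positivity)]
    have h9 : 1 / 4 ≤ Real.cos θ ^ 2 := by nlinarith
    nlinarith [mul_le_mul_of_nonneg_left h9 (sq_nonneg a)]
  have hlt : ‖p‖ ^ 2 < 1 := by
    rw [hnp, htan]
    nlinarith [hq1.1, hq1.2, hq2.1, hq2.2]
  have hppos : 0 < ‖p‖ := by
    rw [norm_pos_iff]
    intro h
    rw [h] at hp0
    simp at hp0
    linarith [hq1.1]
  have hplt : ‖p‖ < 1 := by nlinarith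
  refine ⟨p, ?_, ?_⟩
  · refine ⟨‖p‖, ⟨hppos, hplt⟩, ‖p‖⁻¹ • p, ?_, ?_⟩
    · refine ⟨⟨‖p‖⁻¹ • p, ?_⟩, ⟨?_, ?_⟩, rfl⟩
      · rw [mem_sphere_zero_iff_norm, norm_smul, norm_inv, norm_norm, inv_mul_cancel₀ hppos.ne']
      · show 0 < ‖p‖⁻¹ * p 0
        rw [hp0]
        exact mul_pos (inv_pos.mpr hppos) hq1.1
      · show Real.arctan ((‖p‖⁻¹ * p 1) / (‖p‖⁻¹ * p 0)) ∈ K ∩ Ico (0 : ℝ) 1
        rw [mul_div_mul_left _ _ (inv_ne_zero hppos.ne'), hp0, hp1,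
          mul_div_cancel_left₀ _ hq1.1.ne', Real.arctan_tan (by linarith) (by linarith)]
        exact hq0
    · show ‖p‖ • ‖p‖⁻¹ • p = p
      rw [smul_smul, mul_inv_cancel₀ hppos.ne', one_smul]
  · ext i
    fin_cases i
    · show Real.arctan (p 1 / p 0) = θ
      rw [hp0, hp1, mul_div_cancel_left₀ _ hq1.1.ne', Real.arctan_tan (by linarith) (by linarith)]
    · exact hp0
    · exact hp2

/-- The sphere part. -/
theorem sphere_result :
    ∃ (δ : ℝ) (𝓕 : Set (Set E3)), 0 < δ ∧ IsCovering (Metric.sphere 0 1) δ 𝓕 ∧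
      (∀ A ∈ 𝓕, IsAnalyticArc A) ∧ 0 < sphereDefectMeasure 𝓕 := by
  obtain ⟨K, hKc, hKq, hK⟩ := exists_K
  refine ⟨1, sphereFamily K, one_pos, sphereFamily_covering K, ?_, ?_⟩
  · rintro A ⟨c, hc, rfl⟩
    exact ⟨_, _, sleaf_param K c, sleaf_analytic K c⟩
  · have h1 : 0 < (volume : Measure E3).toSphere (sphereSet K) := by
      rw [Measure.toSphere_apply' _ (sphereSet_measurable hKc)]
      apply ENNReal.mul_pos
      · simp
      · exact (cone_measure hKc hK).ne'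
    refine h1.trans_le (measure_mono ?_)
    intro x hx
    obtain ⟨s, hs, y, hy, hxs, h2, h3⟩ := sphereSet_coords hx
    refine ⟨sphere_endpointFree K _ h2 h3, ?_⟩
    rw [hxs]
    exact sphere_not_smooth hKc hKq s y hs hy

end Pool.Agent.H77.Arcs
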