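import Mathlib

set_option autoImplicit false

/-!
Dynamics of groups of order automorphisms of a complete linear order which satisfy an
Engel identity.  The `n`-Engel identity is used in the form: iterating
`w ↦ w⁻¹ * z * w` from any `x` gives `z` after `n` steps.
-/

namespace Pool.Agent.H77.Engel

open Set Topology

section Order

variable {L : Type*} [CompleteLinearOrder L]

/-- the Engel step -/
def step (z w : L ≃o L) : L ≃o L := w⁻¹ * z * w

theorem map_fix_sSup (u : L ≃o L) (S : Set L) (h : ∀ s ∈ S, u s = s) : u (sSup S) = sSup S := by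
  rw [u.map_sSup, sSup_eq_iSup]
  exact biSup_congr h

theorem map_fix_sInf (u : L ≃o L) (S : Set L) (h : ∀ s ∈ S, u s = s) : u (sInf S) = sInf S := by
  rw [u.map_sInf, sInf_eq_iInf]
  exact biInf_congr h

/-- An order automorphism moving `t` up and `t'` down (`t ≤ t'`) has a fixed point between. -/
theorem exists_fix_up_down (u : L ≃o L) {t t' : L} (htt : t ≤ t') (h : t ≤ u t) (h' : u t' ≤ t') :
    ∃ c, t ≤ c ∧ c ≤ t' ∧ u c = c := by
  set S : Set L := {s | t ≤ s ∧ s ≤ t' ∧ s ≤ u s} with hS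
  have htS : t ∈ S := ⟨le_rfl, htt, h⟩
  have h1 : t ≤ sSup S := le_sSup htS
  have h2 : sSup S ≤ t' := sSup_le fun s hs => hs.2.1
  have h3 : sSup S ≤ u (sSup S) := sSup_le fun s hs => hs.2.2.trans (u.monotone (le_sSup hs))
  have h4 : u (sSup S) ∈ S := ⟨h1.trans h3, (u.monotone h2).trans h', u.monotone h3⟩
  exact ⟨sSup S, h1, h2, le_antisymm (le_sSup h4) h3⟩

/-- An order automorphism moving `t` down and `t'` up (`t ≤ t'`) has a fixed point between. -/
theorem exists_fix_down_up (u : L ≃o L) {t t' : L} (htt : t ≤ t') (h : u t ≤ t) (h' : t' ≤ u t') :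
    ∃ c, t ≤ c ∧ c ≤ t' ∧ u c = c := by
  obtain ⟨c, h1, h2, h3⟩ := exists_fix_up_down u⁻¹ htt
    (by
      have := u⁻¹.monotone h
      rwa [← RelIso.mul_apply, inv_mul_cancel, RelIso.one_apply] at this)
    (by
      have := u⁻¹.monotone h'
      rwa [← RelIso.mul_apply, inv_mul_cancel, RelIso.one_apply] at this)
  refine ⟨c, h1, h2, ?_⟩
  have := congrArg u h3
  rw [← RelIso.mul_apply, mul_inv_cancel, RelIso.one_apply] at this
  exact this.symm

theorem up_of_up (u : L ≃o L) {t t' : L} {p β : L} (hno : ∀ c, p < c → c < β → u c ≠ c)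
    (ht : p < t) (htβ : t < β) (ht' : p < t') (htβ' : t' < β) (h : t < u t) : t' < u t' := by
  by_contra hcon
  rw [not_lt] at hcon
  rcases le_total t t' with h1 | h1
  · obtain ⟨c, hc1, hc2, hc3⟩ := exists_fix_up_down u h1 h.le hcon
    exact hno c (ht.trans_le hc1) (hc2.trans_lt htβ') hc3
  · obtain ⟨c, hc1, hc2, hc3⟩ := exists_fix_down_up u h1 hcon h.le
    exact hno c (ht'.trans_le hc1) (hc2.trans_lt htβ) hc3

theorem inv_fix {u : L ≃o L} {c : L} (h : u c = c) : u⁻¹ c = c := by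
  have := congrArg (u⁻¹ : L ≃o L) h
  rw [← RelIso.mul_apply, inv_mul_cancel, RelIso.one_apply] at this
  exact this.symm

theorem fix_of_inv {u : L ≃o L} {c : L} (h : u⁻¹ c = c) : u c = c := by
  have := congrArg u h
  rw [← RelIso.mul_apply, mul_inv_cancel, RelIso.one_apply] at this
  exact this.symm

theorem lt_inv_of_lt {u : L ≃o L} {c : L} (h : u c < c) : c < u⁻¹ c := by
  have := u⁻¹.strictMono h
  rwa [← RelIso.mul_apply, inv_mul_cancel, RelIso.one_apply] at this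

theorem inv_lt_of_lt {u : L ≃o L} {c : L} (h : c < u c) : u⁻¹ c < c := by
  have := u⁻¹.strictMono h
  rwa [← RelIso.mul_apply, inv_mul_cancel, RelIso.one_apply] at this

/-- Fixed points of `u` bounded above in `(α, β)`: the Engel identity fails. -/
theorem lemA {u v : L ≃o L} {α β : L} (huβ : u β = β) (hvβ : v β = β)
    (hno : ∀ c, α < c → c < β → ¬ (u c = c ∧ v c = c))
    {s0 : L} (hs0 : α < s0) (hs0β : s0 < β) (hus0 : u s0 = s0)
    {t0 : L} (ht0 : t0 < β) (hub : ∀ t, t0 < t → t < β → u t ≠ t) (n : ℕ) :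
    ∃ X z, (X = v ∨ X = v⁻¹) ∧ (z = u ∨ z = u⁻¹) ∧ (step z)^[n] X ≠ z := by
  set S : Set L := {s | s < β ∧ u s = s} with hS
  set p := sSup S with hp
  have hup : u p = p := map_fix_sSup u S fun s hs => hs.2
  have hpt0 : p ≤ t0 := sSup_le fun s hs => by
    by_contra hc
    exact hub s (not_le.1 hc) hs.1 hs.2
  have hpβ : p < β := hpt0.trans_lt ht0
  have hs0p : s0 ≤ p := le_sSup ⟨hs0β, hus0⟩
  have hαp : α < p := hs0.trans_le hs0p
  have hvp : v p ≠ p := fun h => hno p hαp hpβ ⟨hup, h⟩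
  have hnofix : ∀ c, p < c → c < β → u c ≠ c := fun c hc hcβ h =>
    absurd (le_sSup (show c ∈ S from ⟨hcβ, h⟩)) (not_le.2 hc)
  -- choose X
  obtain ⟨X, hX, hXp, hXβ⟩ : ∃ X : L ≃o L, (X = v ∨ X = v⁻¹) ∧ p < X p ∧ X β = β := by
    rcases lt_or_gt_of_ne hvp with h | h
    · exact ⟨v⁻¹, Or.inr rfl, lt_inv_of_lt h, inv_fix hvβ⟩
    · exact ⟨v, Or.inl rfl, h, hvβ⟩
  have hXpβ : X p < β := by rw [← hXβ]; exact X.strictMono hpβ
  -- choose z
  obtain ⟨z, hz, hzp, hzβ, hzup⟩ : ∃ z : L ≃o L, (z = u ∨ z = u⁻¹) ∧ z p = p ∧ z β = β ∧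
      ∀ t, p < t → t < β → t < z t := by
    rcases lt_or_gt_of_ne (hnofix _ hXp hXpβ) with h | h
    · refine ⟨u⁻¹, Or.inr rfl, inv_fix hup, inv_fix huβ, fun t ht htβ => ?_⟩
      refine up_of_up u⁻¹ (p := p) (β := β) (fun c hc hcβ hf => hnofix c hc hcβ (fix_of_inv hf))
        hXp hXpβ ht htβ (lt_inv_of_lt h)
    · exact ⟨u, Or.inl rfl, hup, huβ, fun t ht htβ =>
        up_of_up u hnofix hXp hXpβ ht htβ h⟩
  refine ⟨X, z, hX, hz, ?_⟩
  have key : ∀ k, p < ((step z)^[k] X) p ∧ ((step z)^[k] X) β = β := by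
    intro k
    induction k with
    | zero => exact ⟨hXp, hXβ⟩
    | succ k ih =>
      rw [Function.iterate_succ_apply']
      set w := (step z)^[k] X with hw
      obtain ⟨ih1, ih2⟩ := ih
      have hwβ : w p < β := by rw [← ih2]; exact w.strictMono hpβ
      have h1 : w p < z (w p) := hzup _ ih1 hwβ
      constructor
      · show p < (w⁻¹ * z * w) p
        rw [RelIso.mul_apply, RelIso.mul_apply]
        have := w⁻¹.strictMono h1
        rwa [← RelIso.mul_apply w⁻¹ w, inv_mul_cancel, RelIso.one_apply] at this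
      · show (w⁻¹ * z * w) β = β
        rw [RelIso.mul_apply, RelIso.mul_apply, ih2, hzβ]
        exact inv_fix ih2
  intro hcon
  have := (key n).1
  rw [hcon, hzp] at this
  exact lt_irrefl _ this

/-- Fixed points of `u` bounded below in `(α, β)`: the Engel identity fails. -/
theorem lemA' {u v : L ≃o L} {α β : L} (huα : u α = α) (hvα : v α = α)
    (hno : ∀ c, α < c → c < β → ¬ (u c = c ∧ v c = c))
    {s0 : L} (hs0 : α < s0) (hs0β : s0 < β) (hus0 : u s0 = s0)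
    {t0 : L} (ht0 : α < t0) (hub : ∀ t, α < t → t < t0 → u t ≠ t) (n : ℕ) :
    ∃ X z, (X = v ∨ X = v⁻¹) ∧ (z = u ∨ z = u⁻¹) ∧ (step z)^[n] X ≠ z := by
  set S : Set L := {s | α < s ∧ u s = s} with hS
  set p := sInf S with hp
  have hup : u p = p := map_fix_sInf u S fun s hs => hs.2
  have hpt0 : t0 ≤ p := le_sInf fun s hs => by
    by_contra hc
    exact hub s hs.1 (not_le.1 hc) hs.2
  have hαp : α < p := ht0.trans_le hpt0
  have hs0p : p ≤ s0 := sInf_le ⟨hs0, hus0⟩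
  have hpβ : p < β := hs0p.trans_lt hs0β
  have hvp : v p ≠ p := fun h => hno p hαp hpβ ⟨hup, h⟩
  have hnofix : ∀ c, α < c → c < p → u c ≠ c := fun c hc hcp h =>
    absurd (sInf_le (show c ∈ S from ⟨hc, h⟩)) (not_le.2 hcp)
  -- choose X
  obtain ⟨X, hX, hXp, hXα⟩ : ∃ X : L ≃o L, (X = v ∨ X = v⁻¹) ∧ X p < p ∧ X α = α := by
    rcases lt_or_gt_of_ne hvp with h | h
    · exact ⟨v, Or.inl rfl, h, hvα⟩
    · exact ⟨v⁻¹, Or.inr rfl, inv_lt_of_lt h, inv_fix hvα⟩
  have hXpα : α < X p := by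
    have := X.strictMono hαp
    rwa [hXα] at this
  -- choose z
  obtain ⟨z, hz, hzp, hzα, hzdown⟩ : ∃ z : L ≃o L, (z = u ∨ z = u⁻¹) ∧ z p = p ∧ z α = α ∧
      ∀ t, α < t → t < p → z t < t := by
    rcases lt_or_gt_of_ne (hnofix _ hXpα hXp) with h | h
    · refine ⟨u, Or.inl rfl, hup, huα, fun t ht htp => ?_⟩
      rcases lt_or_gt_of_ne (hnofix t ht htp) with h1 | h1
      · exact h1
      · exact absurd (up_of_up u hnofix ht htp hXpα hXp h1) (lt_asymm h)
    · refine ⟨u⁻¹, Or.inr rfl, inv_fix hup, inv_fix huα, fun t ht htp => ?_⟩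
      exact inv_lt_of_lt (up_of_up u hnofix hXpα hXp ht htp h)
  refine ⟨X, z, hX, hz, ?_⟩
  have key : ∀ k, ((step z)^[k] X) p < p ∧ ((step z)^[k] X) α = α := by
    intro k
    induction k with
    | zero => exact ⟨hXp, hXα⟩
    | succ k ih =>
      rw [Function.iterate_succ_apply']
      set w := (step z)^[k] X with hw
      obtain ⟨ih1, ih2⟩ := ih
      have hwα : α < w p := by
        have := w.strictMono hαp
        rwa [ih2] at this
      have h1 : z (w p) < w p := hzdown _ hwα ih1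
      constructor
      · show (w⁻¹ * z * w) p < p
        rw [RelIso.mul_apply, RelIso.mul_apply]
        have := w⁻¹.strictMono h1
        rwa [← RelIso.mul_apply w⁻¹ w, inv_mul_cancel, RelIso.one_apply] at this
      · show (w⁻¹ * z * w) α = α
        rw [RelIso.mul_apply, RelIso.mul_apply, ih2, hzα]
        exact inv_fix ih2
  intro hcon
  have := (key n).1
  rw [hcon, hzp] at this
  exact lt_irrefl _ this

theorem pow_fix {b : L ≃o L} {e : L} (h : b e = e) (m : ℕ) : (b ^ m) e = e := by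
  induction m with
  | zero => rw [pow_zero, RelIso.one_apply]
  | succ m ih => rw [pow_succ, RelIso.mul_apply, h, ih]

theorem le_pow_apply {b : L ≃o L} {t : L} (h : t ≤ b t) (m : ℕ) : t ≤ (b ^ m) t := by
  induction m with
  | zero => rw [pow_zero, RelIso.one_apply]
  | succ m ih =>
    rw [pow_succ, RelIso.mul_apply]
    exact ih.trans ((b ^ m).monotone h)

theorem pow_apply_le {b : L ≃o L} {t : L} (h : b t ≤ t) (m : ℕ) : (b ^ m) t ≤ t := by
  induction m with
  | zero => rw [pow_zero, RelIso.one_apply]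
  | succ m ih =>
    rw [pow_succ, RelIso.mul_apply]
    exact ((b ^ m).monotone h).trans ih

end Order

section PingPong

variable {L : Type*} [CompleteLinearOrder L] [TopologicalSpace L] [OrderTopology L]

/-- Uniform convergence of large powers to the fixed point set. -/
theorem lemI {b : L ≃o L} {K U : Set L} (hK : IsCompact K) (hU : IsOpen U)
    (hfix : ∀ t ∈ K, b t ≠ t) {lo hi : L}
    (horb : ∀ t ∈ K, ∀ m : ℕ, lo ≤ (b ^ m) t ∧ (b ^ m) t ≤ hi)
    (hUfix : ∀ e, lo ≤ e → e ≤ hi → b e = e → e ∈ U) :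
    ∃ m0 : ℕ, ∀ m, m0 ≤ m → ∀ t ∈ K, (b ^ m) t ∈ U := by
  refine hK.induction_on (p := fun S => ∃ m0 : ℕ, ∀ m, m0 ≤ m → ∀ t ∈ S, (b ^ m) t ∈ U) ?_ ?_ ?_ ?_
  · exact ⟨0, fun _ _ _ h => absurd h (notMem_empty _)⟩
  · rintro S T hST ⟨m0, h⟩
    exact ⟨m0, fun m hm t ht => h m hm t (hST ht)⟩
  · rintro S T ⟨m0, h⟩ ⟨m1, h1⟩
    refine ⟨max m0 m1, fun m hm t ht => ?_⟩
    rcases ht with ht | ht
    · exact h m ((le_max_left _ _).trans hm) t ht
    · exact h1 m ((le_max_right _ _).trans hm) t ht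
  · intro t ht
    rcases lt_or_gt_of_ne (hfix t ht) with h | h
    · -- moves down
      set e := ⨅ m : ℕ, (b ^ m) t with he
      have hbe : b e = e := by
        rw [he, b.map_iInf]
        apply le_antisymm
        · refine le_iInf fun m => (iInf_le _ m).trans ?_
          rw [← RelIso.mul_apply, ← pow_succ', pow_succ, RelIso.mul_apply]
          exact (b ^ m).monotone h.le
        · refine le_iInf fun m => ?_
          rw [← RelIso.mul_apply, ← pow_succ']
          exact iInf_le (fun m : ℕ => (b ^ m) t) (m + 1)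
      have heU : e ∈ U := by
        refine hUfix e (le_iInf fun m => (horb t ht m).1) ?_ hbe
        exact (iInf_le _ 0).trans (horb t ht 0).2
      have het : e < t := by
        refine (iInf_le (fun m : ℕ => (b ^ m) t) 1).trans_lt ?_
        rwa [pow_one]
      obtain ⟨l, hl, hlU⟩ := exists_Ico_subset_of_mem_nhds (hU.mem_nhds heU) ⟨t, het⟩
      obtain ⟨m0, hm0⟩ := iInf_lt_iff.1 hl
      refine ⟨{t' | (b ^ m0) t' < l ∧ e < t' ∧ b t' < t'}, ?_, m0, ?_⟩
      · apply mem_nhdsWithin_of_mem_nhds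
        refine IsOpen.mem_nhds ?_ ⟨hm0, het, h⟩
        exact (isOpen_lt (b ^ m0).continuous continuous_const).inter
          ((isOpen_lt continuous_const continuous_id).inter (isOpen_lt b.continuous continuous_id))
      · rintro m hm t' ⟨h1, h2, h3⟩
        apply hlU
        constructor
        · have := (b ^ m).monotone h2.le
          rwa [pow_fix hbe] at this
        · refine lt_of_le_of_lt ?_ h1
          obtain ⟨k, rfl⟩ := Nat.exists_eq_add_of_le hm
          rw [pow_add, RelIso.mul_apply]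
          exact (b ^ m0).monotone (pow_apply_le h3.le k)
    · -- moves up
      set e := ⨆ m : ℕ, (b ^ m) t with he
      have hbe : b e = e := by
        rw [he, b.map_iSup]
        apply le_antisymm
        · refine iSup_le fun m => ?_
          rw [← RelIso.mul_apply, ← pow_succ']
          exact le_iSup (fun m : ℕ => (b ^ m) t) (m + 1)
        · refine iSup_le fun m => le_trans ?_ (le_iSup _ m)
          rw [← RelIso.mul_apply, ← pow_succ', pow_succ, RelIso.mul_apply]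
          exact (b ^ m).monotone h.le
      have heU : e ∈ U := by
        refine hUfix e ?_ (iSup_le fun m => (horb t ht m).2) hbe
        exact (horb t ht 0).1.trans (le_iSup (fun m : ℕ => (b ^ m) t) 0)
      have het : t < e := by
        refine lt_of_lt_of_le ?_ (le_iSup (fun m : ℕ => (b ^ m) t) 1)
        rwa [pow_one]
      obtain ⟨l, hl, hlU⟩ := exists_Ioc_subset_of_mem_nhds (hU.mem_nhds heU) ⟨t, het⟩
      obtain ⟨m0, hm0⟩ := lt_iSup_iff.1 hl
      refine ⟨{t' | l < (b ^ m0) t' ∧ t' < e ∧ t' < b t'}, ?_, m0, ?_⟩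
      · apply mem_nhdsWithin_of_mem_nhds
        refine IsOpen.mem_nhds ?_ ⟨hm0, het, h⟩
        exact (isOpen_lt continuous_const (b ^ m0).continuous).inter
          ((isOpen_lt continuous_id continuous_const).inter (isOpen_lt continuous_id b.continuous))
      · rintro m hm t' ⟨h1, h2, h3⟩
        apply hlU
        constructor
        · refine lt_of_lt_of_le h1 ?_
          obtain ⟨k, rfl⟩ := Nat.exists_eq_add_of_le hm
          rw [pow_add, RelIso.mul_apply]
          exact (b ^ m0).monotone (le_pow_apply h3.le k)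
        · have := (b ^ m).monotone h2.le
          rwa [pow_fix hbe] at this

/-- Ping-pong: fixed points of `a` and `b` cofinal in both directions of `(α, β)`, none common. -/
theorem lemB {a b : L ≃o L} {α β : L}
    (hno : ∀ c, α < c → c < β → ¬ (a c = c ∧ b c = c))
    (hA : ∀ t, α < t → t < β → ∃ s, t < s ∧ s < β ∧ a s = s)
    (hA' : ∀ t, α < t → t < β → ∃ s, α < s ∧ s < t ∧ a s = s)
    (hB : ∀ t, α < t → t < β → ∃ s, t < s ∧ s < β ∧ b s = s)
    (hB' : ∀ t, α < t → t < β → ∃ s, α < s ∧ s < t ∧ b s = s)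
    {Q : L} (hαQ : α < Q) (hQβ : Q < β) (haQ : a Q = Q) (n : ℕ) :
    ∃ m j : ℕ, (step (a ^ j))^[n + 1] (b ^ m) ≠ a ^ j := by
  classical
  choose! fA hfA1 hfA2 hfA3 using hA
  choose! gA hgA1 hgA2 hgA3 using hA'
  choose! fB hfB1 hfB2 hfB3 using hB
  choose! gB hgB1 hgB2 hgB3 using hB'
  set hi : ℕ → L := fun r => (fun t => max (fA t) (fB t))^[r] Q with hhi
  set lo : ℕ → L := fun r => (fun t => min (gA t) (gB t))^[r] Q with hlo
  have hi_succ : ∀ r, hi (r + 1) = max (fA (hi r)) (fB (hi r)) := fun r => by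
    simp only [hhi, Function.iterate_succ_apply']
  have lo_succ : ∀ r, lo (r + 1) = min (gA (lo r)) (gB (lo r)) := fun r => by
    simp only [hlo, Function.iterate_succ_apply']
  have hi_mem : ∀ r, α < hi r ∧ hi r < β := by
    intro r
    induction r with
    | zero => exact ⟨hαQ, hQβ⟩
    | succ r ih =>
      rw [hi_succ]
      exact ⟨lt_max_of_lt_left (ih.1.trans (hfA1 _ ih.1 ih.2)),
        max_lt (hfA2 _ ih.1 ih.2) (hfB2 _ ih.1 ih.2)⟩
  have lo_mem : ∀ r, α < lo r ∧ lo r < β := by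
    intro r
    induction r with
    | zero => exact ⟨hαQ, hQβ⟩
    | succ r ih =>
      rw [lo_succ]
      exact ⟨lt_min (hgA1 _ ih.1 ih.2) (hgB1 _ ih.1 ih.2),
        min_lt_of_left_lt ((hgA2 _ ih.1 ih.2).trans ih.2)⟩
  -- one step invariance
  have inv_gen : ∀ (c : L ≃o L) (r : ℕ), (∃ s, hi r < s ∧ s ≤ hi (r + 1) ∧ c s = s) →
      (∃ s, s < lo r ∧ lo (r + 1) ≤ s ∧ c s = s) → ∀ t, lo r ≤ t → t ≤ hi r →
      lo (r + 1) ≤ c t ∧ c t ≤ hi (r + 1) := by
    rintro c r ⟨s, hs1, hs2, hs3⟩ ⟨s', hs1', hs2', hs3'⟩ t ht1 ht2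
    constructor
    · refine hs2'.trans ?_
      rw [← hs3']
      exact c.monotone (hs1'.le.trans ht1)
    · refine le_trans ?_ hs2
      rw [← hs3]
      exact c.monotone (ht2.trans hs1.le)
  have fixA_hi : ∀ r, hi r < fA (hi r) ∧ fA (hi r) ≤ hi (r + 1) ∧ a (fA (hi r)) = fA (hi r) :=
    fun r => ⟨hfA1 _ (hi_mem r).1 (hi_mem r).2, by rw [hi_succ]; exact le_max_left _ _,
      hfA3 _ (hi_mem r).1 (hi_mem r).2⟩
  have fixB_hi : ∀ r, hi r < fB (hi r) ∧ fB (hi r) ≤ hi (r + 1) ∧ b (fB (hi r)) = fB (hi r) :=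
    fun r => ⟨hfB1 _ (hi_mem r).1 (hi_mem r).2, by rw [hi_succ]; exact le_max_right _ _,
      hfB3 _ (hi_mem r).1 (hi_mem r).2⟩
  have fixA_lo : ∀ r, gA (lo r) < lo r ∧ lo (r + 1) ≤ gA (lo r) ∧ a (gA (lo r)) = gA (lo r) :=
    fun r => ⟨hgA2 _ (lo_mem r).1 (lo_mem r).2, by rw [lo_succ]; exact min_le_left _ _,
      hgA3 _ (lo_mem r).1 (lo_mem r).2⟩
  have fixB_lo : ∀ r, gB (lo r) < lo r ∧ lo (r + 1) ≤ gB (lo r) ∧ b (gB (lo r)) = gB (lo r) :=
    fun r => ⟨hgB2 _ (lo_mem r).1 (lo_mem r).2, by rw [lo_succ]; exact min_le_right _ _,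
      hgB3 _ (lo_mem r).1 (lo_mem r).2⟩
  -- powers and inverses
  have invA : ∀ (c : L ≃o L), (∀ s, a s = s → c s = s) → ∀ r t, lo r ≤ t → t ≤ hi r →
      lo (r + 1) ≤ c t ∧ c t ≤ hi (r + 1) := fun c hc r =>
    inv_gen c r ⟨_, (fixA_hi r).1, (fixA_hi r).2.1, hc _ (fixA_hi r).2.2⟩
      ⟨_, (fixA_lo r).1, (fixA_lo r).2.1, hc _ (fixA_lo r).2.2⟩
  have invB : ∀ (c : L ≃o L), (∀ s, b s = s → c s = s) → ∀ r t, lo r ≤ t → t ≤ hi r →
      lo (r + 1) ≤ c t ∧ c t ≤ hi (r + 1) := fun c hc r =>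
    inv_gen c r ⟨_, (fixB_hi r).1, (fixB_hi r).2.1, hc _ (fixB_hi r).2.2⟩
      ⟨_, (fixB_lo r).1, (fixB_lo r).2.1, hc _ (fixB_lo r).2.2⟩
  -- word lengths
  let len : ℕ → ℕ := fun k => Nat.rec 3 (fun _ l => 2 * l + 1) k
  have len0 : len 0 = 3 := rfl
  have len_succ : ∀ k, len (k + 1) = 2 * len k + 1 := fun k => rfl
  set R := len n + 1 with hR
  -- separated neighbourhoods of the fixed point sets in the compact region
  set D : Set L := Icc (lo (R + 1)) (hi (R + 1)) with hD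
  have hDc : IsCompact D := isCompact_Icc
  have hDsub : ∀ t ∈ D, α < t ∧ t < β := fun t ht =>
    ⟨(lo_mem _).1.trans_le ht.1, ht.2.trans_lt (hi_mem _).2⟩
  have hFa : IsCompact (D ∩ {t | a t = t}) :=
    hDc.inter_right (isClosed_eq a.continuous continuous_id)
  have hFb : IsCompact (D ∩ {t | b t = t}) :=
    hDc.inter_right (isClosed_eq b.continuous continuous_id)
  have hdisj : Disjoint (D ∩ {t | a t = t}) (D ∩ {t | b t = t}) := by
    rw [disjoint_left]
    rintro t ⟨htD, hta⟩ ⟨-, htb⟩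
    exact hno t (hDsub t htD).1 (hDsub t htD).2 ⟨hta, htb⟩
  obtain ⟨Ua, Ub, hUa, hUb, hFaU, hFbU, hUab⟩ := SeparatedNhds.of_isCompact_isCompact hFa hFb hdisj
  have mono_hi : Monotone hi := monotone_nat_of_le_succ fun r => (fixA_hi r).1.le.trans (fixA_hi r).2.1
  have anti_lo : Antitone lo := antitone_nat_of_succ_le fun r => (fixA_lo r).2.1.trans (fixA_lo r).1.le
  -- uniform convergence
  have conv : ∀ (c : L ≃o L) (U : Set L), IsOpen U →
      (∀ (d : L ≃o L), (∀ s, c s = s → d s = s) → ∀ r t, lo r ≤ t → t ≤ hi r →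
        lo (r + 1) ≤ d t ∧ d t ≤ hi (r + 1)) →
      (∀ e ∈ D, c e = e → e ∈ U) →
      ∃ m0 : ℕ, ∀ m, m0 ≤ m → ∀ t ∈ Icc (lo R) (hi R) \ U, (c ^ m) t ∈ U := by
    intro c U hU hinv hfixU
    refine lemI (lo := lo (R + 1)) (hi := hi (R + 1)) (isCompact_Icc.diff hU) hU ?_ ?_ ?_
    · rintro t ⟨⟨ht1, ht2⟩, htU⟩ hct
      exact htU (hfixU t ⟨(anti_lo (Nat.le_succ R)).trans ht1, ht2.trans (mono_hi (Nat.le_succ R))⟩ hct)
    · rintro t ⟨⟨ht1, ht2⟩, -⟩ m
      exact hinv (c ^ m) (fun s hs => pow_fix hs m) R t ht1 ht2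
    · intro e he1 he2 hce
      exact hfixU e ⟨he1, he2⟩ hce
  obtain ⟨j1, hj1⟩ := conv a Ua hUa invA (fun e he hae => hFaU ⟨he, hae⟩)
  obtain ⟨j2, hj2⟩ := conv a⁻¹ Ua hUa
    (fun d hd => invA d fun s hs => hd s (inv_fix hs)) (fun e he hae => hFaU ⟨he, fix_of_inv hae⟩)
  obtain ⟨m1, hm1⟩ := conv b Ub hUb invB (fun e he hbe => hFbU ⟨he, hbe⟩)
  obtain ⟨m2, hm2⟩ := conv b⁻¹ Ub hUb
    (fun d hd => invB d fun s hs => hd s (inv_fix hs)) (fun e he hbe => hFbU ⟨he, fix_of_inv hbe⟩)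
  set j := max j1 j2 with hj
  set m := max m1 m2 with hm
  refine ⟨m, j, ?_⟩
  set z := a ^ j with hz
  set x := b ^ m with hx
  have hsub : ∀ r, r ≤ R → ∀ t, lo r ≤ t → t ≤ hi r → t ∈ Icc (lo R) (hi R) := fun r hr t h1 h2 =>
    ⟨(anti_lo hr).trans h1, h2.trans (mono_hi hr)⟩
  -- the moves
  have mvx : ∀ r, r ≤ R → ∀ t, lo r ≤ t → t ≤ hi r → t ∈ Ua →
      (x t ∈ Ub ∧ lo (r + 1) ≤ x t ∧ x t ≤ hi (r + 1)) ∧
      (x⁻¹ t ∈ Ub ∧ lo (r + 1) ≤ x⁻¹ t ∧ x⁻¹ t ≤ hi (r + 1)) := by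
    intro r hr t h1 h2 htU
    have htUb : t ∉ Ub := fun h => disjoint_left.1 hUab htU h
    refine ⟨⟨hm1 m (le_max_left _ _) t ⟨hsub r hr t h1 h2, htUb⟩,
      invB x (fun s hs => pow_fix hs m) r t h1 h2⟩, ?_, 
      invB x⁻¹ (fun s hs => inv_fix (pow_fix hs m)) r t h1 h2⟩
    have := hm2 m (le_max_right _ _) t ⟨hsub r hr t h1 h2, htUb⟩
    rwa [inv_pow] at this
  have mvz : ∀ r, r ≤ R → ∀ t, lo r ≤ t → t ≤ hi r → t ∈ Ub →
      (z t ∈ Ua ∧ lo (r + 1) ≤ z t ∧ z t ≤ hi (r + 1)) ∧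
      (z⁻¹ t ∈ Ua ∧ lo (r + 1) ≤ z⁻¹ t ∧ z⁻¹ t ≤ hi (r + 1)) := by
    intro r hr t h1 h2 htU
    have htUa : t ∉ Ua := fun h => disjoint_left.1 hUab h htU
    refine ⟨⟨hj1 j (le_max_left _ _) t ⟨hsub r hr t h1 h2, htUa⟩,
      invA z (fun s hs => pow_fix hs j) r t h1 h2⟩, ?_, 
      invA z⁻¹ (fun s hs => inv_fix (pow_fix hs j)) r t h1 h2⟩
    have := hj2 j (le_max_right _ _) t ⟨hsub r hr t h1 h2, htUa⟩
    rwa [inv_pow] at this
  -- words
  have key : ∀ k, ∀ r, r + len k ≤ R + 1 → ∀ t, lo r ≤ t → t ≤ hi r → t ∈ Ua →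
      (((step z)^[k + 1] x) t ∈ Ub ∧ lo (r + len k) ≤ ((step z)^[k + 1] x) t ∧
        ((step z)^[k + 1] x) t ≤ hi (r + len k)) ∧
      (((step z)^[k + 1] x)⁻¹ t ∈ Ub ∧ lo (r + len k) ≤ ((step z)^[k + 1] x)⁻¹ t ∧
        ((step z)^[k + 1] x)⁻¹ t ≤ hi (r + len k)) := by
    -- general composition lemma
    have comp : ∀ (w : L ≃o L) (l : ℕ), 1 ≤ l →
        (∀ r, r + l ≤ R + 1 → ∀ t, lo r ≤ t → t ≤ hi r → t ∈ Ua →
          (w t ∈ Ub ∧ lo (r + l) ≤ w t ∧ w t ≤ hi (r + l)) ∧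
          (w⁻¹ t ∈ Ub ∧ lo (r + l) ≤ w⁻¹ t ∧ w⁻¹ t ≤ hi (r + l))) →
        ∀ r, r + (2 * l + 1) ≤ R + 1 → ∀ t, lo r ≤ t → t ≤ hi r → t ∈ Ua →
          ((step z w) t ∈ Ub ∧ lo (r + (2 * l + 1)) ≤ (step z w) t ∧
            (step z w) t ≤ hi (r + (2 * l + 1))) ∧
          ((step z w)⁻¹ t ∈ Ub ∧ lo (r + (2 * l + 1)) ≤ (step z w)⁻¹ t ∧
            (step z w)⁻¹ t ≤ hi (r + (2 * l + 1))) := by
      intro w l hl hw r hr t h1 h2 htU
      obtain ⟨⟨p1, p2, p3⟩, -⟩ := hw r (by omega) t h1 h2 htU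
      obtain ⟨⟨q1, q2, q3⟩, ⟨q1', q2', q3'⟩⟩ := mvz (r + l) (by omega) _ p2 p3 p1
      obtain ⟨-, ⟨s1, s2, s3⟩⟩ := hw (r + l + 1) (by omega) _ q2 q3 q1
      obtain ⟨-, ⟨s1', s2', s3'⟩⟩ := hw (r + l + 1) (by omega) _ q2' q3' q1'
      have e1 : r + l + 1 + l = r + (2 * l + 1) := by omega
      rw [e1] at s2 s3 s2' s3'
      constructor
      · exact ⟨s1, s2, s3⟩
      · have : (step z w)⁻¹ = w⁻¹ * z⁻¹ * w := by unfold step; group
        rw [this]
        exact ⟨s1', s2', s3'⟩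
    intro k
    induction k with
    | zero =>
      intro r hr t h1 h2 htU
      have := comp x 1 le_rfl (fun r hr t h1 h2 h3 => mvx r (by omega) t h1 h2 h3) r
        (by rw [len0] at hr; omega) t h1 h2 htU
      exact this
    | succ k ih =>
      intro r hr t h1 h2 htU
      have hlen : 1 ≤ len k := by
        cases k with
        | zero => rw [len0]; omega
        | succ k => rw [len_succ]; omega
      have := comp _ (len k) hlen ih r (by rw [len_succ] at hr; omega) t h1 h2 htU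
      rw [Function.iterate_succ_apply', len_succ]
      exact this
  have hQU : Q ∈ Ua := by
    apply hFaU
    refine ⟨⟨?_, ?_⟩, haQ⟩
    · exact anti_lo (Nat.zero_le _)
    · exact mono_hi (Nat.zero_le _)
  have hfin := (key n 0 (by omega) Q le_rfl le_rfl hQU).1.1
  intro hcon
  rw [hcon, hz, pow_fix haQ] at hfin
  exact disjoint_left.1 hUab hQU hfin

end PingPong

end Pool.Agent.H77.Engel
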