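import Pool.Agent.H77.EngelDyn

set_option autoImplicit false

/-! Right orders on Engel groups are Conradian. -/

namespace Pool.Agent.H77.Engel

open Set Topology

theorem no_crossing {L : Type*} [CompleteLinearOrder L] (Γ : Subgroup (L ≃o L)) (n : ℕ)
    (hE : ∀ x ∈ Γ, ∀ z ∈ Γ, (step z)^[n + 1] x = z) {a b : L ≃o L} (ha : a ∈ Γ) (hb : b ∈ Γ)
    {q Q : L} (hqQ : q ≤ Q) (haQ : a Q = Q) (hbq : b q = q)
    (hno : ∀ c, q ≤ c → c ≤ Q → ¬ (a c = c ∧ b c = c)) : False := by
  let _ : TopologicalSpace L := Preorder.topology L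
  have _ : OrderTopology L := ⟨rfl⟩
  set α := sSup {c | c ≤ Q ∧ a c = c ∧ b c = c} with hα
  set β := sInf {c | q ≤ c ∧ a c = c ∧ b c = c} with hβ
  have haα : a α = α := map_fix_sSup a _ fun s hs => hs.2.1
  have hbα : b α = α := map_fix_sSup b _ fun s hs => hs.2.2
  have haβ : a β = β := map_fix_sInf a _ fun s hs => hs.2.1
  have hbβ : b β = β := map_fix_sInf b _ fun s hs => hs.2.2
  have hαQ' : α ≤ Q := sSup_le fun s hs => hs.1
  have hqβ' : q ≤ β := le_sInf fun s hs => hs.1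
  have hαq : α < q := by
    by_contra h
    exact hno α (not_lt.1 h) hαQ' ⟨haα, hbα⟩
  have hQβ : Q < β := by
    by_contra h
    exact hno β hqβ' (not_lt.1 h) ⟨haβ, hbβ⟩
  have hαQ : α < Q := hαq.trans_le hqQ
  have hqβ : q < β := hqQ.trans_lt hQβ
  have hno' : ∀ c, α < c → c < β → ¬ (a c = c ∧ b c = c) := by
    intro c h1 h2 h3
    rcases le_total c Q with h | h
    · exact absurd (le_sSup (show c ∈ {c | c ≤ Q ∧ a c = c ∧ b c = c} from ⟨h, h3⟩)) (not_le.2 h1)
    · exact absurd (sInf_le (show c ∈ {c | q ≤ c ∧ a c = c ∧ b c = c} from ⟨hqQ.trans h, h3⟩))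
        (not_le.2 h2)
  have hno'' : ∀ c, α < c → c < β → ¬ (b c = c ∧ a c = c) := fun c h1 h2 h3 =>
    hno' c h1 h2 ⟨h3.2, h3.1⟩
  have close : ∀ u v : L ≃o L, u ∈ Γ → v ∈ Γ →
      (∃ X z, (X = v ∨ X = v⁻¹) ∧ (z = u ∨ z = u⁻¹) ∧ (step z)^[n + 1] X ≠ z) → False := by
    rintro u v hu hv ⟨X, z, hX, hz, hne⟩
    refine hne (hE X ?_ z ?_)
    · rcases hX with rfl | rfl
      · exact hv
      · exact Γ.inv_mem hv
    · rcases hz with rfl | rfl
      · exact hu
      · exact Γ.inv_mem hu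
  -- unboundedness
  have up : ∀ u v : L ≃o L, u ∈ Γ → v ∈ Γ → u β = β → v β = β →
      (∀ c, α < c → c < β → ¬ (u c = c ∧ v c = c)) → ∀ s0, α < s0 → s0 < β → u s0 = s0 →
      ∀ t, α < t → t < β → ∃ s, t < s ∧ s < β ∧ u s = s := by
    intro u v hu hv huβ hvβ hn s0 h1 h2 h3 t ht1 ht2
    by_contra hcon
    refine close u v hu hv (lemA huβ hvβ hn h1 h2 h3 ht2 (fun s hs1 hs2 hs3 => ?_) (n + 1))
    exact hcon ⟨s, hs1, hs2, hs3⟩
  have down : ∀ u v : L ≃o L, u ∈ Γ → v ∈ Γ → u α = α → v α = α →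
      (∀ c, α < c → c < β → ¬ (u c = c ∧ v c = c)) → ∀ s0, α < s0 → s0 < β → u s0 = s0 →
      ∀ t, α < t → t < β → ∃ s, α < s ∧ s < t ∧ u s = s := by
    intro u v hu hv huα hvα hn s0 h1 h2 h3 t ht1 ht2
    by_contra hcon
    refine close u v hu hv (lemA' huα hvα hn h1 h2 h3 ht1 (fun s hs1 hs2 hs3 => ?_) (n + 1))
    exact hcon ⟨s, hs1, hs2, hs3⟩
  obtain ⟨m, j, hmj⟩ := lemB hno'
    (up a b ha hb haβ hbβ hno' Q hαQ hQβ haQ) (down a b ha hb haα hbα hno' Q hαQ hQβ haQ)
    (up b a hb ha hbβ haβ hno'' q hαq hqβ hbq) (down b a hb ha hbα haα hno'' q hαq hqβ hbq)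
    hαQ hQβ haQ n
  exact hmj (hE _ (Γ.pow_mem hb m) _ (Γ.pow_mem ha j))

/-- From the commutator form of the Engel identity to the conjugation form. -/
theorem engel_step {G : Type*} [Group G] (x y : G) (n : ℕ) :
    (fun z : G => z⁻¹ * y⁻¹ * z * y)^[n + 1] x =
      y⁻¹ ^ n * (fun w : G => w⁻¹ * y⁻¹ * w)^[n + 1] x * y ^ (n + 1) := by
  induction n with
  | zero => simp
  | succ n ih =>
    rw [Function.iterate_succ_apply', ih, Function.iterate_succ_apply' _ (n + 1)]
    generalize (fun w : G => w⁻¹ * y⁻¹ * w)^[n + 1] x = W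
    simp only [mul_inv_rev, inv_pow, inv_inv, pow_succ]
    group

theorem engel_conj {G : Type*} [Group G] {n : ℕ}
    (h : ∀ x y : G, (fun z : G => z⁻¹ * y⁻¹ * z * y)^[n + 1] x = 1) (x z : G) :
    (fun w : G => w⁻¹ * z * w)^[n + 1] x = z := by
  have h1 := h x z⁻¹
  rw [engel_step, inv_inv] at h1
  have h3 := eq_inv_of_mul_eq_one_left h1
  rw [inv_pow, inv_inv, pow_succ] at h3
  exact mul_left_cancel h3

section Realization

variable {G : Type*} [Group G] [LinearOrder G]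

/-- Right translation `t ↦ t * h⁻¹` as an order automorphism. -/
def mr (hr : ∀ a b c : G, a < b → a * c < b * c) (h : G) : G ≃o G where
  toFun t := t * h⁻¹
  invFun t := t * h
  left_inv t := by simp
  right_inv t := by simp
  map_rel_iff' := by
    intro a b
    have key : ∀ a b c : G, a ≤ b → a * c ≤ b * c := fun a b c hab => by
      rcases hab.eq_or_lt with rfl | h1
      · exact le_rfl
      · exact (hr a b c h1).le
    constructor
    · intro h1
      have := key _ _ h h1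
      simpa using this
    · intro h1
      exact key _ _ h⁻¹ h1

/-- The action of `G` on the complete linear order of its lower sets. -/
noncomputable def rho (hr : ∀ a b c : G, a < b → a * c < b * c) : G →* (LowerSet G ≃o LowerSet G) where
  toFun h := LowerSet.map (mr hr h)
  map_one' := by
    ext s t
    rw [SetLike.mem_coe, LowerSet.mem_map]
    show t * 1 ∈ s ↔ t ∈ s
    rw [mul_one]
  map_mul' h k := by
    ext s t
    rw [RelIso.mul_apply]
    simp only [SetLike.mem_coe, LowerSet.mem_map]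
    show t * (h * k) ∈ s ↔ t * h * k ∈ s
    rw [mul_assoc]

theorem mem_rho (hr : ∀ a b c : G, a < b → a * c < b * c) (h : G) (s : LowerSet G) (t : G) :
    t ∈ rho hr h s ↔ t * h ∈ s := by
  show t ∈ LowerSet.map (mr hr h) s ↔ _
  rw [LowerSet.mem_map]
  rfl

theorem conrad_of_engel (hr : ∀ a b c : G, a < b → a * c < b * c) (n : ℕ)
    (hE : ∀ x z : G, (fun w : G => w⁻¹ * z * w)^[n + 1] x = z) (f g : G) (h1f : 1 < f)
    (hfg : f < g) : ∃ m : ℕ, 0 < m ∧ g < f * g ^ m * f⁻¹ := by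
  by_contra hcon
  push Not at hcon
  have hle : ∀ a b c : G, a ≤ b → a * c ≤ b * c := fun a b c hab => by
    rcases hab.eq_or_lt with rfl | h1
    · exact le_rfl
    · exact (hr a b c h1).le
  have h1g : 1 < g := h1f.trans hfg
  -- `g ^ m < g * f`
  have hbd : ∀ m : ℕ, g ^ m < g * f := by
    have hpos : ∀ m : ℕ, 0 < m → g ^ m < g * f := by
      intro m hm
      have h1 : g ^ m < f * g ^ m := by
        have := hr 1 f (g ^ m) h1f
        rwa [one_mul] at this
      have h2 : f * g ^ m ≤ g * f := by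
        have := hle _ _ f (hcon m hm)
        rwa [inv_mul_cancel_right] at this
      exact h1.trans_le h2
    intro m
    rcases Nat.eq_zero_or_pos m with rfl | hm
    · rw [pow_zero]
      have := hpos 1 one_pos
      rw [pow_one] at this
      exact h1g.trans this
    · exact hpos m hm
  have hgm : ∀ m : ℕ, g ^ m ≤ g ^ (m + 1) := by
    intro m
    have := hle _ _ (g ^ m) h1g.le
    rwa [one_mul, ← pow_succ'] at this
  -- the point `Q`
  let Q : LowerSet G := ⟨{t | ∃ m : ℕ, t ≤ g ^ m}, by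
    rintro a b hba ⟨m, hm⟩
    exact ⟨m, hba.trans hm⟩⟩
  have memQ : ∀ t, t ∈ Q ↔ ∃ m : ℕ, t ≤ g ^ m := fun t => Iff.rfl
  have haQ : rho hr g Q = Q := by
    ext t
    rw [SetLike.mem_coe, SetLike.mem_coe, mem_rho, memQ, memQ]
    constructor
    · rintro ⟨m, hm⟩
      refine ⟨m, ?_⟩
      have := hle _ _ g⁻¹ (hm.trans (hgm m))
      rwa [mul_inv_cancel_right, pow_succ, mul_inv_cancel_right] at this
    · rintro ⟨m, hm⟩
      refine ⟨m + 1, ?_⟩
      rw [pow_succ]
      exact hle _ _ g hm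
  set B := rho hr (f⁻¹ * g) with hB
  have hBg : B (LowerSet.Iic g) ≤ LowerSet.Iic g := by
    intro t ht
    rw [SetLike.mem_coe, hB, mem_rho, LowerSet.mem_Iic_iff] at ht
    rw [SetLike.mem_coe, LowerSet.mem_Iic_iff]
    have h2 := hle _ _ (g⁻¹ * f) ht
    have e1 : t * (f⁻¹ * g) * (g⁻¹ * f) = t := by group
    have e2 : g * (g⁻¹ * f) = f := by group
    rw [e1, e2] at h2
    exact h2.trans hfg.le
  have hgfQ : g * f ∉ Q := by
    rw [memQ]
    rintro ⟨m, hm⟩
    exact absurd hm (not_le.2 (hbd m))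
  have hgfB : g * f ∈ B Q := by
    rw [hB, mem_rho, memQ]
    refine ⟨2, ?_⟩
    have : g * f * (f⁻¹ * g) = g ^ 2 := by simp [pow_two, mul_assoc]
    rw [this]
  have hQB : Q < B Q := by
    by_contra h
    exact hgfQ (not_lt.1 h hgfB)
  have hgQ : LowerSet.Iic g ≤ Q := by
    intro t ht
    rw [SetLike.mem_coe, LowerSet.mem_Iic_iff] at ht
    exact ⟨1, by rwa [pow_one]⟩
  obtain ⟨q, hq1, hq2, hq3⟩ := exists_fix_down_up B hgQ hBg hQB.le
  refine no_crossing (rho hr).range n ?_ ⟨g, rfl⟩ ⟨f⁻¹ * g, rfl⟩ hq2 haQ hq3 ?_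
  · rintro _ ⟨x, rfl⟩ _ ⟨z, rfl⟩
    have hsc : Function.Semiconj (rho hr) (fun w : G => w⁻¹ * z * w) (step (rho hr z)) := by
      intro w
      show rho hr (w⁻¹ * z * w) = (rho hr w)⁻¹ * rho hr z * rho hr w
      rw [map_mul, map_mul, map_inv]
    rw [← (hsc.iterate_right (n + 1)).eq x, hE x z]
  · intro c hc1 hc2 ⟨hc3, hc4⟩
    have hgc : g ∈ c := hc1 (hq1 (by rw [SetLike.mem_coe, LowerSet.mem_Iic_iff]))
    have hall : ∀ m : ℕ, g ^ (m + 1) ∈ c := by
      intro m
      induction m with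
      | zero => rwa [zero_add, pow_one]
      | succ m ih =>
        rw [← hc3, mem_rho] at ih
        rwa [← pow_succ] at ih
    have hQc : Q ≤ c := by
      rintro t ⟨m, hm⟩
      exact c.lower (hm.trans (hgm m)) (hall m)
    have : c = Q := le_antisymm hc2 hQc
    rw [this] at hc4
    exact absurd hc4.symm hQB.ne

end Realization

end Pool.Agent.H77.Engel
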