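import Mathlib

open Set Topology

namespace Pool.Agent.H77

/-- weak tree-likeness -/
def TreeLike (Y : Type*) [TopologicalSpace Y] : Prop :=
  ∀ 𝒰 : Set (Set Y), (∀ U ∈ 𝒰, IsOpen U) → ⋃₀ 𝒰 = Set.univ →
    ∃ (n : ℕ) (V : Fin n → Set Y) (T : SimpleGraph (Fin n)),
      (∀ i, IsOpen (V i)) ∧ (⋃ i, V i) = Set.univ ∧
      (∀ i, ∃ U ∈ 𝒰, V i ⊆ U) ∧
      (∀ i j k, i ≠ j → j ≠ k → i ≠ k → V i ∩ V j ∩ V k = ∅) ∧
      T.IsTree ∧ ∀ i j, i ≠ j → (V i ∩ V j).Nonempty → T.Adj i j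

theorem TreeLike.subtype {X : Type*} [TopologicalSpace X] (hX : TreeLike X) (K : Set X)
    (hK : IsClosed K) (hne : K.Nonempty) : TreeLike K := by
  intro 𝒰 hop hcov
  obtain ⟨n, V, T, hVo, hVc, hVr, hV3, hT, hadj⟩ := hX
    ({O : Set X | IsOpen O ∧ ∃ U ∈ 𝒰, ((↑) ⁻¹' O : Set K) ⊆ U})
    (fun U hU => hU.1) (by
      apply Set.eq_univ_of_forall
      intro x
      by_cases hx : x ∈ K
      · have : (⟨x, hx⟩ : K) ∈ ⋃₀ 𝒰 := by rw [hcov]; trivial
        obtain ⟨U, hU, hxU⟩ := this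
        obtain ⟨O, hO, rfl⟩ := isOpen_induced_iff.mp (hop U hU)
        exact ⟨O, ⟨hO, _, hU, subset_rfl⟩, hxU⟩
      · obtain ⟨y, hy⟩ := hne
        have : (⟨y, hy⟩ : K) ∈ ⋃₀ 𝒰 := by rw [hcov]; trivial
        obtain ⟨U, hU, hxU⟩ := this
        refine ⟨Kᶜ, ⟨hK.isOpen_compl, U, hU, ?_⟩, hx⟩
        intro z hz
        exact absurd z.2 hz)
  refine ⟨n, fun i => (↑) ⁻¹' V i, T, fun i => (hVo i).preimage continuous_subtype_val, ?_, ?_, ?_,
    hT, ?_⟩
  · rw [← Set.preimage_iUnion, hVc, Set.preimage_univ]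
  · intro i
    obtain ⟨O, ⟨hO, U, hU, hOU⟩, hVO⟩ := hVr i
    exact ⟨U, hU, (Set.preimage_mono hVO).trans hOU⟩
  · intro i j k h1 h2 h3
    rw [← Set.preimage_inter, ← Set.preimage_inter, hV3 i j k h1 h2 h3, Set.preimage_empty]
  · intro i j hij hne
    apply hadj i j hij
    obtain ⟨x, hx⟩ := hne
    exact ⟨x, hx⟩

theorem tree_potential {n : ℕ} (T : SimpleGraph (Fin n)) (hT : T.IsTree) (w : Fin n → Fin n → ℤ)
    (hw : ∀ i j, w i j = - w j i) : ∃ s : Fin n → ℤ, ∀ i j, T.Adj i j → s j - s i = w i j := by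
  classical
  obtain ⟨r⟩ := hT.1.nonempty
  have hp : ∀ i, ∃ q : T.Walk r i, q.IsPath := fun i =>
    (hT.1.preconnected r i).exists_isPath
  choose q hq using hp
  let S : ∀ {i j : Fin n}, T.Walk i j → ℤ := fun q => (q.darts.map (fun d => w d.fst d.snd)).sum
  refine ⟨fun i => S (q i), ?_⟩
  -- key fact
  have key : ∀ i j (h : T.Adj i j), j ∉ (q i).support → S (q j) = S (q i) + w i j := by
    intro i j h hj
    have h1 : ((q i).concat h).IsPath := (hq i).concat hj h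
    have h2 : q j = (q i).concat h := by
      have := (hT.2.subsingleton_path _ _).elim ⟨q j, hq j⟩ ⟨_, h1⟩
      exact congrArg Subtype.val this
    rw [h2]
    simp [S, SimpleGraph.Walk.concat_eq_append, SimpleGraph.Walk.darts_append]
  intro i j h
  by_cases hj : j ∈ (q i).support
  · have hi : i ∉ (q j).support := by
      intro hi
      have h1 : q j = (q i).takeUntil j hj := by
        have := (hT.2.subsingleton_path _ _).elim ⟨q j, hq j⟩ ⟨_, (hq i).takeUntil hj⟩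
        exact congrArg Subtype.val this
      have h2 : q i = (q j).takeUntil i hi := by
        have := (hT.2.subsingleton_path _ _).elim ⟨q i, hq i⟩ ⟨_, (hq j).takeUntil hi⟩
        exact congrArg Subtype.val this
      have h3 := congrArg SimpleGraph.Walk.length h1
      have h4 := congrArg SimpleGraph.Walk.length h2
      have h5 := (q i).length_takeUntil_lt_length hj h.ne'
      have h6 := (q j).length_takeUntil_le_length hi
      omega
    have := key j i h.symm hi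
    have h7 := hw i j
    show S (q j) - S (q i) = w i j
    omega
  · have := key i j h hj
    show S (q j) - S (q i) = w i j
    omega


theorem TreeLike.shrink {Y : Type*} [TopologicalSpace Y] (hY : TreeLike Y) {D : Set Y}
    (hD : IsClosed D) {I : Type*} (V : I → Set Y) (hV : ∀ v, IsOpen (V v))
    (hcov : ∀ x ∈ D, ∃ v, x ∈ V v) :
    ∃ G : I → Set Y, (∀ v, IsOpen (G v)) ∧ (∀ v, G v ⊆ V v) ∧ (∀ x ∈ D, ∃ v, x ∈ G v) ∧
      ∀ v1 v2 v3, v1 ≠ v2 → v2 ≠ v3 → v1 ≠ v3 → ∀ x, ¬ (x ∈ G v1 ∧ x ∈ G v2 ∧ x ∈ G v3) := by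
  classical
  obtain ⟨n, U, T, hUo, hUc, hUr, hU3, -, -⟩ := hY
    ({O : Set Y | (∃ v, O = V v) ∨ O = Dᶜ})
    (by
      rintro O (⟨v, rfl⟩ | rfl)
      · exact hV v
      · exact hD.isOpen_compl)
    (by
      apply Set.eq_univ_of_forall
      intro x
      by_cases hx : x ∈ D
      · obtain ⟨v, hv⟩ := hcov x hx
        exact ⟨V v, Or.inl ⟨v, rfl⟩, hv⟩
      · exact ⟨Dᶜ, Or.inr rfl, hx⟩)
  let R : Fin n → I → Prop := fun i v => ∃ h : ∃ v, U i ⊆ V v, v = h.choose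
  refine ⟨fun v => ⋃ i, ⋃ (_ : R i v), U i, ?_, ?_, ?_, ?_⟩
  · intro v
    exact isOpen_iUnion fun i => isOpen_iUnion fun _ => hUo i
  · intro v
    refine Set.iUnion_subset fun i => Set.iUnion_subset fun hi => ?_
    obtain ⟨h, rfl⟩ := hi
    exact h.choose_spec
  · intro x hx
    have : x ∈ ⋃ i, U i := by rw [hUc]; trivial
    obtain ⟨i, hi⟩ := Set.mem_iUnion.mp this
    have h : ∃ v, U i ⊆ V v := by
      obtain ⟨O, hO, hUO⟩ := hUr i
      rcases hO with ⟨v, rfl⟩ | rfl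
      · exact ⟨v, hUO⟩
      · exact absurd hx (hUO hi)
    refine ⟨h.choose, ?_⟩
    exact Set.mem_iUnion.mpr ⟨i, Set.mem_iUnion.mpr ⟨⟨h, rfl⟩, hi⟩⟩
  · rintro v1 v2 v3 h12 h23 h13 x ⟨h1, h2, h3⟩
    simp only [Set.mem_iUnion] at h1 h2 h3
    obtain ⟨i1, r1, u1⟩ := h1
    obtain ⟨i2, r2, u2⟩ := h2
    obtain ⟨i3, r3, u3⟩ := h3
    have e12 : i1 ≠ i2 := by
      rintro rfl
      obtain ⟨_, e1⟩ := r1
      obtain ⟨_, e2⟩ := r2
      exact h12 (e1.trans e2.symm)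
    have e23 : i2 ≠ i3 := by
      rintro rfl
      obtain ⟨_, e1⟩ := r2
      obtain ⟨_, e2⟩ := r3
      exact h23 (e1.trans e2.symm)
    have e13 : i1 ≠ i3 := by
      rintro rfl
      obtain ⟨_, e1⟩ := r1
      obtain ⟨_, e2⟩ := r3
      exact h13 (e1.trans e2.symm)
    have := hU3 i1 i2 i3 e12 e23 e13
    exact absurd (show x ∈ U i1 ∩ U i2 ∩ U i3 from ⟨⟨u1, u2⟩, u3⟩) (by rw [this]; exact id)

theorem TreeLike.cochain {Y : Type*} [TopologicalSpace Y] (hY : TreeLike Y)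
    {I : Type*} (V : I → Set Y) (hV : ∀ v, IsOpen (V v)) (hcov : ∀ x, ∃ v, x ∈ V v)
    (w : I → I → ℤ)
    (hw : ∀ v v' v'' x, x ∈ V v → x ∈ V v' → x ∈ V v'' → w v v' + w v' v'' = w v v'') :
    ∃ θ : I → Y → ℤ, (∀ v, ∀ x ∈ V v, ∀ᶠ y in 𝓝 x, θ v y = θ v x) ∧
      ∀ v v' x, x ∈ V v → x ∈ V v' → θ v' x - θ v x = w v v' := by
  classical
  have hself : ∀ v x, x ∈ V v → w v v = 0 := by
    intro v x hx
    have := hw v v v x hx hx hx
    omega
  have hanti : ∀ v v' x, x ∈ V v → x ∈ V v' → w v v' = - w v' v := by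
    intro v v' x h h'
    have h1 := hw v v' v x h h' h
    have h2 := hself v x h
    omega
  obtain ⟨n, U, T, hUo, hUc, hUr, hU3, hT, hadj⟩ := hY
    ({O : Set Y | ∃ v, O = V v}) (by rintro O ⟨v, rfl⟩; exact hV v)
    (by
      apply Set.eq_univ_of_forall
      intro x
      obtain ⟨v, hv⟩ := hcov x
      exact ⟨V v, ⟨v, rfl⟩, hv⟩)
  have hr : ∀ i, ∃ v, U i ⊆ V v := by
    intro i
    obtain ⟨O, ⟨v, rfl⟩, h⟩ := hUr i
    exact ⟨v, h⟩
  choose r hr using hr
  obtain ⟨s, hs⟩ := tree_potential T hT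
    (fun i j => if (U i ∩ U j).Nonempty then w (r i) (r j) else 0) (by
      intro i j
      by_cases h : (U i ∩ U j).Nonempty
      · have h' : (U j ∩ U i).Nonempty := by rwa [Set.inter_comm]
        simp only [h, h', if_true]
        obtain ⟨x, hx1, hx2⟩ := h
        exact hanti _ _ x (hr i hx1) (hr j hx2)
      · have h' : ¬ (U j ∩ U i).Nonempty := by rwa [Set.inter_comm]
        simp only [h, h', if_false, neg_zero])
  have hs' : ∀ i j x, x ∈ U i → x ∈ U j → s j - s i = w (r i) (r j) := by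
    intro i j x hi hj
    by_cases hij : i = j
    · subst hij
      rw [hself (r i) x (hr i hi)]; omega
    · have hne : (U i ∩ U j).Nonempty := ⟨x, hi, hj⟩
      rw [hs i j (hadj i j hij hne)]
      simp only [hne, if_true]
  have hc : ∀ x, ∃ i, x ∈ U i := by
    intro x
    have : x ∈ ⋃ i, U i := by rw [hUc]; trivial
    exact Set.mem_iUnion.mp this
  choose c hc using hc
  have hθ : ∀ v x, x ∈ V v → ∀ i, x ∈ U i → s (c x) + w (r (c x)) v = s i + w (r i) v := by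
    intro v x hx i hi
    have h1 := hs' (c x) i x (hc x) hi
    have h2 := hw (r (c x)) (r i) v x (hr _ (hc x)) (hr _ hi) hx
    omega
  refine ⟨fun v x => s (c x) + w (r (c x)) v, ?_, ?_⟩
  · intro v x hx
    filter_upwards [(hV v).mem_nhds hx, (hUo (c x)).mem_nhds (hc x)] with y hy1 hy2
    exact hθ v y hy1 (c x) hy2
  · intro v v' x h h'
    have := hw (r (c x)) v v' x (hr _ (hc x)) h h'
    show s (c x) + w (r (c x)) v' - (s (c x) + w (r (c x)) v) = w v v'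
    omega

end Pool.Agent.H77
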