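import Pool.Agent.H77.TreeLikeA

open Set Topology

namespace Pool.Agent.H77

theorem homeo_zpow_fixed {Y : Type*} [TopologicalSpace Y] (h : Y ≃ₜ Y) (x : Y) (hx : h x = x)
    (m : ℤ) : (h ^ m) x = x := by
  have hnat : ∀ k : ℕ, (h ^ k) x = x := by
    intro k
    induction k with
    | zero => simp
    | succ k ih => rw [pow_succ, Homeomorph.mul_apply, hx, ih]
  cases m with
  | ofNat k => simpa using hnat k
  | negSucc k =>
    rw [zpow_negSucc]
    show (h ^ (k+1)).symm x = x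
    rw [Homeomorph.symm_apply_eq]
    exact (hnat (k+1)).symm

/-- Off the closed invariant set `F`, the homeomorphism `σ` has exact period `p`. -/
structure Setup {Y : Type*} [TopologicalSpace Y] (σ : Y ≃ₜ Y) (p : ℕ) (F : Set Y) : Prop where
  hp : 2 ≤ p
  closed : IsClosed F
  inv : ∀ x, σ x ∈ F ↔ x ∈ F
  per : ∀ x, x ∉ F → (σ ^ p) x = x
  free : ∀ x, x ∉ F → ∀ i : ℕ, 0 < i → i < p → (σ ^ i) x ≠ x

section
variable {Y : Type*} [TopologicalSpace Y] {σ : Y ≃ₜ Y} {p : ℕ} {F : Set Y}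

theorem inv_zpow {F : Set Y} (h : ∀ x, σ x ∈ F ↔ x ∈ F) (k : ℤ) (x : Y) :
    (σ ^ k) x ∈ F ↔ x ∈ F := by
  have hnat : ∀ (k : ℕ) (x : Y), (σ ^ k) x ∈ F ↔ x ∈ F := by
    intro k
    induction k with
    | zero => intro x; simp
    | succ k ih => intro x; rw [pow_succ, Homeomorph.mul_apply, ih, h]
  cases k with
  | ofNat k => simpa using hnat k x
  | negSucc k =>
    have := hnat (k+1) ((σ ^ (Int.negSucc k)) x)
    rw [← this, ← Homeomorph.mul_apply, zpow_negSucc, mul_inv_cancel]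
    simp

theorem Setup.zpow_congr (S : Setup σ p F) {x : Y} (hx : x ∉ F) {k l : ℤ}
    (h : (k : ZMod p) = (l : ZMod p)) : (σ ^ k) x = (σ ^ l) x := by
  rw [ZMod.intCast_eq_intCast_iff_dvd_sub] at h
  obtain ⟨m, hm⟩ := h
  have : l = k + (p : ℤ) * m := by omega
  rw [this, zpow_add, Homeomorph.mul_apply, zpow_mul]
  congr 1
  refine (homeo_zpow_fixed _ x ?_ m).symm
  rw [zpow_natCast]
  exact S.per x hx

theorem exists_nat_rep {p : ℕ} (hp : 2 ≤ p) (k : ℤ) :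
    ∃ i : ℕ, i < p ∧ ((k : ℤ) : ZMod p) = ((i : ℤ) : ZMod p) := by
  have : NeZero p := ⟨by omega⟩
  refine ⟨((k : ZMod p)).val, ZMod.val_lt _, ?_⟩
  simp

theorem perm_zpow_congr {I : Type*} {ϖ : Equiv.Perm I} {p : ℕ} (hϖ : ϖ ^ p = 1) {k l : ℤ}
    (h : (k : ZMod p) = (l : ZMod p)) : ϖ ^ k = ϖ ^ l := by
  rw [ZMod.intCast_eq_intCast_iff_dvd_sub] at h
  obtain ⟨m, hm⟩ := h
  have : l = k + (p : ℤ) * m := by omega
  rw [this, zpow_add, zpow_mul, zpow_natCast, hϖ, one_zpow, mul_one]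

theorem equiv_zpow {I : Type*} {ϖ : Equiv.Perm I} {V : I → Set Y}
    (h : ∀ v x, σ x ∈ V (ϖ v) ↔ x ∈ V v) (k : ℤ) (v : I) (x : Y) :
    (σ ^ k) x ∈ V ((ϖ ^ k) v) ↔ x ∈ V v := by
  have hnat : ∀ (k : ℕ) (v : I) (x : Y), (σ ^ k) x ∈ V ((ϖ ^ k) v) ↔ x ∈ V v := by
    intro k
    induction k with
    | zero => intro v x; simp
    | succ k ih =>
      intro v x
      rw [pow_succ σ, pow_succ ϖ, Homeomorph.mul_apply, Equiv.Perm.mul_apply, ih, h]
  cases k with
  | ofNat k => simpa using hnat k v x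
  | negSucc k =>
    have := hnat (k+1) ((ϖ ^ (Int.negSucc k)) v) ((σ ^ (Int.negSucc k)) x)
    have e1 : (σ ^ (k+1)) ((σ ^ (Int.negSucc k)) x) = x := by
      rw [← Homeomorph.mul_apply, zpow_negSucc, mul_inv_cancel]; rfl
    have e2 : (ϖ ^ (k+1)) ((ϖ ^ (Int.negSucc k)) v) = v := by
      rw [← Equiv.Perm.mul_apply, zpow_negSucc, mul_inv_cancel]; rfl
    rw [e1, e2] at this
    exact this.symm

/-- One shrinking step. -/
theorem Setup.shrink_step (S : Setup σ p F) (hY : TreeLike Y) {I : Type*} (ϖ : Equiv.Perm I)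
    (hϖ : ϖ ^ p = 1) (V : I → Set Y) (hVo : ∀ v, IsOpen (V v)) (hVc : ∀ x, ∃ v, x ∈ V v)
    (hVe : ∀ v x, σ x ∈ V (ϖ v) ↔ x ∈ V v) (D : Set Y) (hD : IsClosed D)
    (hDF : ∀ x ∈ D, x ∉ F) (hDfree : ∀ x ∈ D, ∀ i : ℕ, 0 < i → i < p → (σ ^ i) x ∉ D) :
    ∃ V' : I → Set Y, (∀ v, V' v ⊆ V v) ∧ (∀ v, IsOpen (V' v)) ∧ (∀ x, ∃ v, x ∈ V' v) ∧
      (∀ v x, σ x ∈ V' (ϖ v) ↔ x ∈ V' v) ∧ (∀ x ∈ F, ∀ v, x ∈ V v → x ∈ V' v) ∧
      (∀ x, (∃ k : ℤ, (σ ^ k) x ∈ D) → ∀ v1 v2 v3, v1 ≠ v2 → v2 ≠ v3 → v1 ≠ v3 →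
        ¬ (x ∈ V' v1 ∧ x ∈ V' v2 ∧ x ∈ V' v3)) := by
  obtain ⟨G, hGo, hGV, hGc, hG3⟩ := hY.shrink hD V hVo (fun x _ => hVc x)
  have hp0 := S.hp
  have hF : ∀ x (k : ℤ), (σ ^ k) x ∈ D → x ∉ F := by
    intro x k hk hx
    exact hDF _ hk ((inv_zpow S.inv k x).mpr hx)
  refine ⟨fun v => {x | x ∈ V v ∧ ∀ k : ℤ, (σ ^ k) x ∈ D → (σ ^ k) x ∈ G ((ϖ ^ k) v)},
    ?_, ?_, ?_, ?_, ?_, ?_⟩
  · intro v x hx
    exact hx.1
  · intro v
    have : {x | x ∈ V v ∧ ∀ k : ℤ, (σ ^ k) x ∈ D → (σ ^ k) x ∈ G ((ϖ ^ k) v)} =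
        V v ∩ ⋂ i ∈ Finset.range p, (σ ^ (i : ℤ)) ⁻¹' (Dᶜ ∪ G ((ϖ ^ (i : ℤ)) v)) := by
      ext x
      simp only [Set.mem_ofPred_eq, mem_inter_iff, mem_iInter, mem_preimage, mem_union, mem_compl_iff,
        Finset.mem_range]
      constructor
      · rintro ⟨h1, h2⟩
        refine ⟨h1, fun i _ => ?_⟩
        by_cases hi : (σ ^ (i : ℤ)) x ∈ D
        · exact Or.inr (h2 _ hi)
        · exact Or.inl hi
      · rintro ⟨h1, h2⟩
        refine ⟨h1, fun k hk => ?_⟩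
        obtain ⟨i, hi, hik⟩ := exists_nat_rep hp0 k
        have h3 := S.zpow_congr (hF x k hk) hik
        rw [h3] at hk ⊢
        rw [perm_zpow_congr hϖ hik]
        rcases h2 i hi with h | h
        · exact absurd hk h
        · exact h
    beta_reduce
    rw [this]
    refine (hVo v).inter (isOpen_biInter_finset fun i _ => ?_)
    exact (hD.isOpen_compl.union (hGo _)).preimage (σ ^ (i : ℤ)).continuous
  · intro x
    by_cases hx : ∃ k : ℤ, (σ ^ k) x ∈ D
    · obtain ⟨k, hk⟩ := hx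
      obtain ⟨u, hu⟩ := hGc _ hk
      refine ⟨(ϖ ^ (-k)) u, ?_, ?_⟩
      · have := (equiv_zpow hVe k ((ϖ ^ (-k)) u) x)
        rw [← this, ← Equiv.Perm.mul_apply, ← zpow_add]
        simpa using hGV u hu
      · intro l hl
        -- l ≡ k mod p
        have hxF := hF x k hk
        have hkl : (k : ZMod p) = (l : ZMod p) := by
          by_contra hne
          obtain ⟨i, hi, hil⟩ := exists_nat_rep hp0 (l - k)
          have hi0 : 0 < i := by
            rcases Nat.eq_zero_or_pos i with h0 | h0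
            · subst h0
              exfalso
              apply hne
              have : ((l - k : ℤ) : ZMod p) = 0 := by rw [hil]; simp
              push_cast at this
              exact (sub_eq_zero.mp this).symm
            · exact h0
          have h1 := hDfree _ hk i hi0 hi
          apply h1
          have h2 : (σ ^ i) ((σ ^ k) x) = (σ ^ l) x := by
            rw [← zpow_natCast, ← Homeomorph.mul_apply, ← zpow_add]
            apply S.zpow_congr hxF
            push_cast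
            push_cast at hil
            rw [← hil]; ring
          rw [h2]; exact hl
        rw [← Equiv.Perm.mul_apply, ← zpow_add, ← S.zpow_congr hxF hkl]
        rw [← perm_zpow_congr (k := k + -k) hϖ (by push_cast; rw [hkl])]
        simpa using hu
    · obtain ⟨v, hv⟩ := hVc x
      exact ⟨v, hv, fun k hk => absurd ⟨k, hk⟩ hx⟩
  · intro v x
    simp only [Set.mem_ofPred_eq]
    rw [hVe]
    refine and_congr_right fun _ => ?_
    constructor
    · intro h k hk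
      have := h (k - 1)
      rw [← Homeomorph.mul_apply, ← zpow_add_one, ← Equiv.Perm.mul_apply, ← zpow_add_one,
        sub_add_cancel] at this
      exact this hk
    · intro h k hk
      have := h (k + 1)
      rw [zpow_add_one, zpow_add_one, Homeomorph.mul_apply, Equiv.Perm.mul_apply] at this
      exact this hk
  · intro x hx v hv
    refine ⟨hv, fun k hk => absurd hx (hF x k hk)⟩
  · rintro x ⟨k, hk⟩ v1 v2 v3 h12 h23 h13 ⟨h1, h2, h3⟩
    have inj := (ϖ ^ k).injective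
    exact hG3 _ _ _ (inj.ne h12) (inj.ne h23) (inj.ne h13) _ ⟨h1.2 k hk, h2.2 k hk, h3.2 k hk⟩

end

end Pool.Agent.H77
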