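import Pool.Agent.H77.TreeLikeB

open Set Topology

namespace Pool.Agent.H77

section
variable {Y : Type*} [TopologicalSpace Y] {σ : Y ≃ₜ Y} {p : ℕ} {F : Set Y}

theorem Setup.shrink_all (S : Setup σ p F) (hY : TreeLike Y) {I J : Type*} (ϖ : Equiv.Perm I)
    (hϖ : ϖ ^ p = 1) (V : I → Set Y) (hVo : ∀ v, IsOpen (V v)) (hVc : ∀ x, ∃ v, x ∈ V v)
    (hVe : ∀ v x, σ x ∈ V (ϖ v) ↔ x ∈ V v) (D : J → Set Y) (hD : ∀ j, IsClosed (D j))
    (hDF : ∀ j, ∀ x ∈ D j, x ∉ F)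
    (hDfree : ∀ j, ∀ x ∈ D j, ∀ i : ℕ, 0 < i → i < p → (σ ^ i) x ∉ D j) (s : Finset J) :
    ∃ V' : I → Set Y, (∀ v, V' v ⊆ V v) ∧ (∀ v, IsOpen (V' v)) ∧ (∀ x, ∃ v, x ∈ V' v) ∧
      (∀ v x, σ x ∈ V' (ϖ v) ↔ x ∈ V' v) ∧ (∀ x ∈ F, ∀ v, x ∈ V v → x ∈ V' v) ∧
      (∀ x, (∃ j ∈ s, ∃ k : ℤ, (σ ^ k) x ∈ D j) → ∀ v1 v2 v3, v1 ≠ v2 → v2 ≠ v3 → v1 ≠ v3 →
        ¬ (x ∈ V' v1 ∧ x ∈ V' v2 ∧ x ∈ V' v3)) := by
  classical
  induction s using Finset.induction_on with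
  | empty =>
    refine ⟨V, fun _ => subset_rfl, hVo, hVc, hVe, fun _ _ _ h => h, ?_⟩
    rintro x ⟨j, hj, -⟩
    simp at hj
  | insert j s _ ih =>
    obtain ⟨V1, h1V, h1o, h1c, h1e, h1F, h13⟩ := ih
    obtain ⟨V2, h2V, h2o, h2c, h2e, h2F, h23⟩ :=
      S.shrink_step hY ϖ hϖ V1 h1o h1c h1e (D j) (hD j) (hDF j) (hDfree j)
    refine ⟨V2, fun v => (h2V v).trans (h1V v), h2o, h2c, h2e,
      fun x hx v hv => h2F x hx v (h1F x hx v hv), ?_⟩
    rintro x ⟨j', hj', hk⟩ v1 v2 v3 h12 h23' h13' hx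
    rcases Finset.mem_insert.mp hj' with rfl | hj'
    · exact h23 x hk v1 v2 v3 h12 h23' h13' hx
    · exact h13 x ⟨j', hj', hk⟩ v1 v2 v3 h12 h23' h13'
        ⟨h2V _ hx.1, h2V _ hx.2.1, h2V _ hx.2.2⟩

theorem Setup.local_nbhd [T2Space Y] (S : Setup σ p F) (x : Y) (hx : x ∉ F) :
    ∃ N : Set Y, IsOpen N ∧ x ∈ N ∧ (∀ y ∈ N, y ∉ F) ∧
      ∀ y ∈ N, ∀ i : ℕ, 0 < i → i < p → (σ ^ i) y ∉ N := by
  have h : ∀ i : ℕ, ∃ N : Set Y, IsOpen N ∧ x ∈ N ∧
      (0 < i → i < p → ∀ y ∈ N, (σ ^ i) y ∉ N) := by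
    intro i
    by_cases hi : 0 < i ∧ i < p
    · obtain ⟨A, B, hA, hB, hxA, hxB, hAB⟩ := t2_separation (S.free x hx i hi.1 hi.2)
      refine ⟨B ∩ (σ ^ i) ⁻¹' A, hB.inter (hA.preimage (σ ^ i).continuous), ⟨hxB, hxA⟩, ?_⟩
      intro _ _ y hy hy'
      exact Set.disjoint_left.mp hAB hy.2 hy'.1
    · exact ⟨univ, isOpen_univ, trivial, fun h1 h2 => absurd ⟨h1, h2⟩ hi⟩
  choose N hNo hxN hN using h
  refine ⟨Fᶜ ∩ ⋂ i ∈ Finset.range p, N i, ?_, ?_, ?_, ?_⟩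
  · exact S.closed.isOpen_compl.inter (isOpen_biInter_finset fun i _ => hNo i)
  · refine ⟨hx, ?_⟩
    simp only [mem_iInter]
    intro i _
    exact hxN i
  · intro y hy
    exact hy.1
  · intro y hy i hi0 hip hy'
    have h1 := hy.2
    have h2 := hy'.2
    simp only [mem_iInter, Finset.mem_range] at h1 h2
    exact hN i hi0 hip y (h1 i hip) (h2 i hip)

/-- Equivariant covers of order at most two. -/
theorem Setup.exists_cover [T2Space Y] [CompactSpace Y] (S : Setup σ p F) (hY : TreeLike Y)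
    {Λ : Type*} (ϖ : Equiv.Perm Λ) (hϖ : ϖ ^ p = 1) (τ : Y → Λ) (W : Λ → Set Y)
    (hWo : ∀ l, IsOpen (W l)) (hWd : ∀ l l' x, x ∈ W l → x ∈ W l' → l = l')
    (hτW : ∀ x ∈ F, x ∈ W (τ x)) (hτσ : ∀ x ∈ F, τ (σ x) = ϖ (τ x)) :
    ∃ (m : ℕ) (V : Λ ⊕ (Fin m × ZMod p) → Set Y), (∀ v, IsOpen (V v)) ∧ (∀ x, ∃ v, x ∈ V v) ∧
      (∀ v x, σ x ∈ V (Sum.map ϖ (fun a => (a.1, a.2 + 1)) v) ↔ x ∈ V v) ∧
      (∀ v1 v2 v3 x, v1 ≠ v2 → v2 ≠ v3 → v1 ≠ v3 → ¬ (x ∈ V v1 ∧ x ∈ V v2 ∧ x ∈ V v3)) ∧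
      (∀ j a b x, x ∈ V (Sum.inr (j, a)) → x ∈ V (Sum.inr (j, b)) → a = b) ∧
      (∀ l l' x, x ∈ V (Sum.inl l) → x ∈ V (Sum.inl l') → l = l') ∧
      (∀ x ∈ F, x ∈ V (Sum.inl (τ x))) := by
  classical
  have hp0 := S.hp
  have : NeZero p := ⟨by omega⟩
  -- the value of τ along orbits in F
  have hτk : ∀ (k : ℤ), ∀ x ∈ F, τ ((σ ^ k) x) = (ϖ ^ k) (τ x) := by
    have hn : ∀ (k : ℕ), ∀ x ∈ F, τ ((σ ^ k) x) = (ϖ ^ k) (τ x) := by
      intro k
      induction k with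
      | zero => intro x _; simp
      | succ k ih =>
        intro x hx
        rw [pow_succ σ, pow_succ ϖ, Homeomorph.mul_apply, Equiv.Perm.mul_apply,
          ih _ ((S.inv x).mpr hx), hτσ x hx]
    intro k x hx
    obtain ⟨i, hi⟩ : ∃ i : ℕ, 0 ≤ k + i := ⟨k.natAbs, by omega⟩
    cases k with
    | ofNat k => simpa using hn k x hx
    | negSucc k =>
      have hx' : (σ ^ (Int.negSucc k)) x ∈ F := (inv_zpow S.inv _ x).mpr hx
      have h1 := hn (k+1) _ hx'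
      have e1 : (σ ^ (k+1)) ((σ ^ (Int.negSucc k)) x) = x := by
        rw [← Homeomorph.mul_apply, zpow_negSucc, mul_inv_cancel]; rfl
      rw [e1] at h1
      rw [h1, ← Equiv.Perm.mul_apply, zpow_negSucc ϖ, inv_mul_cancel]; rfl
  -- the sets around F
  let V0 : Λ → Set Y := fun l => {x | ∀ k : ℤ, (σ ^ k) x ∈ W ((ϖ ^ k) l)}
  have hV0F : ∀ x ∈ F, x ∈ V0 (τ x) := by
    intro x hx k
    rw [← hτk k x hx]
    exact hτW _ ((inv_zpow S.inv k x).mpr hx)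
  have hV0W : ∀ l x, x ∈ V0 l → x ∈ W l := by
    intro l x hx
    simpa using hx 0
  have hV0o : ∀ l, IsOpen (V0 l) := by
    intro l
    have : V0 l = ⋂ i ∈ Finset.range p, (σ ^ (i : ℤ)) ⁻¹' (W ((ϖ ^ (i : ℤ)) l)) := by
      ext x
      simp only [mem_iInter, mem_preimage, Finset.mem_range, V0, Set.mem_ofPred_eq]
      constructor
      · intro h i _
        exact h i
      · intro h k
        obtain ⟨i, hi, hik⟩ := exists_nat_rep hp0 k
        by_cases hx : x ∈ F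
        · have h0 := h 0 (by omega)
          have h1 : l = τ x := hWd _ _ x (by simpa using h0) (hτW x hx)
          rw [h1]
          exact hV0F x hx k
        · rw [S.zpow_congr hx hik, perm_zpow_congr hϖ hik]
          exact h i hi
    rw [this]
    exact isOpen_biInter_finset fun i _ => (hWo _).preimage (σ ^ (i : ℤ)).continuous
  have hV0e : ∀ l x, σ x ∈ V0 (ϖ l) ↔ x ∈ V0 l := by
    intro l x
    constructor
    · intro h k
      have := h (k - 1)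
      rw [← Homeomorph.mul_apply, ← zpow_add_one, ← Equiv.Perm.mul_apply, ← zpow_add_one,
        sub_add_cancel] at this
      exact this
    · intro h k
      have := h (k + 1)
      rw [zpow_add_one, zpow_add_one, Homeomorph.mul_apply, Equiv.Perm.mul_apply] at this
      exact this
  have hOo : IsOpen (⋃ l, V0 l) := isOpen_iUnion hV0o
  have hFO : F ⊆ ⋃ l, V0 l := fun x hx => mem_iUnion.mpr ⟨_, hV0F x hx⟩
  obtain ⟨u, huo, hFu, huO⟩ := normal_exists_closure_subset S.closed hOo hFO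
  -- invariant versions
  have inv_shift : ∀ (A : Set Y) (x : Y), (∀ k : ℤ, (σ ^ k) (σ x) ∈ A) ↔ ∀ k : ℤ, (σ ^ k) x ∈ A := by
    intro A x
    constructor
    · intro h k
      have := h (k - 1)
      rwa [← Homeomorph.mul_apply, ← zpow_add_one, sub_add_cancel] at this
    · intro h k
      have := h (k + 1)
      rwa [zpow_add_one, Homeomorph.mul_apply] at this
  let E0 : Set Y := {x | ∀ k : ℤ, (σ ^ k) x ∈ closure u}
  let O' : Set Y := {x | ∀ k : ℤ, (σ ^ k) x ∈ u}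
  have hE0c : IsClosed E0 := by
    have : E0 = ⋂ k : ℤ, (σ ^ k) ⁻¹' (closure u) := by
      ext x
      simp only [mem_iInter, mem_preimage, E0, Set.mem_ofPred_eq]
    rw [this]
    exact isClosed_iInter fun k => isClosed_closure.preimage (σ ^ k).continuous
  have hO'o : IsOpen O' := by
    have : O' = ⋂ i ∈ Finset.range p, (σ ^ (i : ℤ)) ⁻¹' u := by
      ext x
      simp only [mem_iInter, mem_preimage, Finset.mem_range, O', Set.mem_ofPred_eq]
      constructor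
      · intro h i _
        exact h i
      · intro h k
        obtain ⟨i, hi, hik⟩ := exists_nat_rep hp0 k
        by_cases hx : x ∈ F
        · exact hFu ((inv_zpow S.inv k x).mpr hx)
        · rw [S.zpow_congr hx hik]
          exact h i hi
    rw [this]
    exact isOpen_biInter_finset fun i _ => huo.preimage (σ ^ (i : ℤ)).continuous
  have hFO' : F ⊆ O' := fun x hx k => hFu ((inv_zpow S.inv k x).mpr hx)
  have hO'E0 : O' ⊆ E0 := fun x hx k => subset_closure (hx k)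
  have hE0u : E0 ⊆ closure u := fun x hx => by simpa using hx 0
  have hE0i : ∀ x, σ x ∈ E0 ↔ x ∈ E0 := fun x => inv_shift (closure u) x
  -- compact part
  have hK : IsCompact O'ᶜ := hO'o.isClosed_compl.isCompact
  have hloc : ∀ x : Y, ∃ N D : Set Y, x ∈ O'ᶜ → IsOpen N ∧ IsClosed D ∧ D ∈ 𝓝 x ∧ D ⊆ N ∧
      (∀ y ∈ N, y ∉ F) ∧ ∀ y ∈ N, ∀ i : ℕ, 0 < i → i < p → (σ ^ i) y ∉ N := by
    intro x
    by_cases hx : x ∈ O'ᶜ
    · obtain ⟨N, hNo, hxN, hNF, hNf⟩ := S.local_nbhd x (fun h => hx (hFO' h))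
      obtain ⟨D, hDn, hDc, hDN⟩ := exists_mem_nhds_isClosed_subset (hNo.mem_nhds hxN)
      exact ⟨N, D, fun _ => ⟨hNo, hDc, hDn, hDN, hNF, hNf⟩⟩
    · exact ⟨∅, ∅, fun h => absurd h hx⟩
  choose N D hND using hloc
  obtain ⟨t, htK, htc⟩ := hK.elim_nhds_subcover D (fun x hx => (hND x hx).2.2.1)
  let e := t.equivFin
  let m := t.card
  let N' : Fin m → Set Y := fun j => N (e.symm j)
  let D' : Fin m → Set Y := fun j => D (e.symm j)
  have hN'o : ∀ j, IsOpen (N' j) := fun j => (hND _ (htK _ (e.symm j).2)).1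
  have hD'c : ∀ j, IsClosed (D' j) := fun j => (hND _ (htK _ (e.symm j).2)).2.1
  have hD'N' : ∀ j, D' j ⊆ N' j := fun j => (hND _ (htK _ (e.symm j).2)).2.2.2.1
  have hN'F : ∀ j, ∀ y ∈ N' j, y ∉ F := fun j => (hND _ (htK _ (e.symm j).2)).2.2.2.2.1
  have hN'f : ∀ j, ∀ y ∈ N' j, ∀ i : ℕ, 0 < i → i < p → (σ ^ i) y ∉ N' j :=
    fun j => (hND _ (htK _ (e.symm j).2)).2.2.2.2.2
  have hcovD : ∀ x ∈ O'ᶜ, ∃ j, x ∈ D' j := by
    intro x hx
    have := htc hx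
    simp only [mem_iUnion] at this
    obtain ⟨y, hy, hxy⟩ := this
    refine ⟨e ⟨y, hy⟩, ?_⟩
    simpa [D'] using hxy
  -- the initial equivariant family
  let V1 : Λ ⊕ (Fin m × ZMod p) → Set Y := fun v => match v with
    | Sum.inl l => V0 l
    | Sum.inr a => {x | x ∉ E0 ∧ ∃ k : ℤ, (σ ^ k) x ∈ N' a.1 ∧ (k : ZMod p) = - a.2}
  let Pm : Equiv.Perm (Λ ⊕ (Fin m × ZMod p)) :=
    Equiv.sumCongr ϖ (Equiv.prodCongr (Equiv.refl _) (Equiv.addRight 1))
  have hPm : ∀ v, Pm v = Sum.map ϖ (fun a => (a.1, a.2 + 1)) v := by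
    rintro (l | ⟨j, a⟩) <;> rfl
  have hPmk : ∀ k : ℕ, ∀ v, (Pm ^ k) v = Sum.map (ϖ ^ k) (fun a => (a.1, a.2 + (k : ZMod p))) v := by
    intro k
    induction k with
    | zero => rintro (l | ⟨j, a⟩) <;> simp
    | succ k ih =>
      rintro (l | ⟨j, a⟩)
      · rw [pow_succ, Equiv.Perm.mul_apply, ih, hPm, pow_succ ϖ]
        simp
      · rw [pow_succ, Equiv.Perm.mul_apply, ih, hPm]
        simp only [Sum.map_inr]
        push_cast
        rw [add_assoc, add_comm (1 : ZMod p)]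
  have hPmp : Pm ^ p = 1 := by
    ext1 v
    rw [hPmk, hϖ]
    rcases v with l | ⟨j, a⟩
    · simp
    · simp
  have hV1o : ∀ v, IsOpen (V1 v) := by
    rintro (l | ⟨j, a⟩)
    · exact hV0o l
    · have : V1 (Sum.inr (j, a)) =
          E0ᶜ ∩ ⋃ (k : ℤ) (_ : (k : ZMod p) = - a), (σ ^ k) ⁻¹' (N' j) := by
        ext x
        simp only [V1, Set.mem_ofPred_eq, mem_inter_iff, mem_compl_iff, mem_iUnion, mem_preimage,
          exists_prop]
        refine and_congr_right fun _ => exists_congr fun k => and_comm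
      rw [this]
      exact hE0c.isOpen_compl.inter
        (isOpen_iUnion fun k => isOpen_iUnion fun _ => (hN'o j).preimage (σ ^ k).continuous)
  have hV1e : ∀ v x, σ x ∈ V1 (Pm v) ↔ x ∈ V1 v := by
    rintro (l | ⟨j, a⟩) x
    · rw [hPm]
      exact hV0e l x
    · rw [hPm]
      simp only [V1, Set.mem_ofPred_eq, Sum.map_inr, hE0i]
      refine and_congr_right fun _ => ?_
      constructor
      · rintro ⟨k, hk, hka⟩
        refine ⟨k + 1, ?_, ?_⟩
        · rwa [zpow_add_one, Homeomorph.mul_apply]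
        · push_cast; rw [hka]; ring
      · rintro ⟨k, hk, hka⟩
        refine ⟨k - 1, ?_, ?_⟩
        · rwa [← Homeomorph.mul_apply, ← zpow_add_one, sub_add_cancel]
        · push_cast; rw [hka]; ring
  have hV1c : ∀ x, ∃ v, x ∈ V1 v := by
    intro x
    by_cases hx : x ∈ E0
    · have := huO (hE0u hx)
      obtain ⟨l, hl⟩ := mem_iUnion.mp this
      exact ⟨Sum.inl l, hl⟩
    · obtain ⟨j, hj⟩ := hcovD x (fun h => hx (hO'E0 h))
      refine ⟨Sum.inr (j, 0), hx, 0, ?_, by simp⟩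
      simpa using hD'N' j hj
  obtain ⟨V, hVV1, hVo, hVc, hVe, hVF, hV3⟩ :=
    S.shrink_all hY Pm hPmp V1 hV1o hV1c hV1e D' hD'c
      (fun j x hx => hN'F j x (hD'N' j hx))
      (fun j x hx i h0 hi h => hN'f j x (hD'N' j hx) i h0 hi (hD'N' j h)) Finset.univ
  have hinl : ∀ l l' x, x ∈ V1 (Sum.inl l) → x ∈ V1 (Sum.inl l') → l = l' :=
    fun l l' x h h' => hWd l l' x (hV0W l x h) (hV0W l' x h')
  refine ⟨m, V, hVo, hVc, ?_, ?_, ?_, ?_, ?_⟩
  · intro v x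
    rw [← hPm]
    exact hVe v x
  · intro v1 v2 v3 x h12 h23 h13 hx
    by_cases hxO : x ∈ O'
    · have hxE := hO'E0 hxO
      have hl : ∀ v, x ∈ V v → ∃ l, v = Sum.inl l := by
        rintro (l | a) hv
        · exact ⟨l, rfl⟩
        · exact absurd hxE (hVV1 _ hv).1
      obtain ⟨l1, rfl⟩ := hl v1 hx.1
      obtain ⟨l2, rfl⟩ := hl v2 hx.2.1
      exact h12 (congrArg Sum.inl (hinl l1 l2 x (hVV1 _ hx.1) (hVV1 _ hx.2.1)))
    · obtain ⟨j, hj⟩ := hcovD x hxO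
      exact hV3 x ⟨j, Finset.mem_univ _, 0, by simpa using hj⟩ v1 v2 v3 h12 h23 h13 hx
  · intro j a b x ha hb
    obtain ⟨hxE, k, hk, hka⟩ := hVV1 _ ha
    obtain ⟨-, l, hl, hlb⟩ := hVV1 _ hb
    simp only at hk hl hka hlb
    have hxF : x ∉ F := fun h => hxE (hO'E0 (hFO' h))
    by_contra hab
    obtain ⟨i, hi, hil⟩ := exists_nat_rep hp0 (l - k)
    have hi0 : 0 < i := by
      rcases Nat.eq_zero_or_pos i with h0 | h0
      · subst h0
        exfalso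
        apply hab
        have : ((l - k : ℤ) : ZMod p) = 0 := by rw [hil]; simp
        push_cast at this
        rw [hka, hlb] at this
        have h2 : a - b = 0 := by rw [← this]; ring
        exact sub_eq_zero.mp h2
      · exact h0
    apply hN'f j _ hk i hi0 hi
    have h2 : (σ ^ i) ((σ ^ k) x) = (σ ^ l) x := by
      rw [← zpow_natCast, ← Homeomorph.mul_apply, ← zpow_add]
      apply S.zpow_congr hxF
      push_cast
      push_cast at hil
      rw [← hil]; ring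
    rw [h2]; exact hl
  · intro l l' x h h'
    exact hinl l l' x (hVV1 _ h) (hVV1 _ h')
  · intro x hx
    exact hVF x hx _ (hV0F x hx)

end

end Pool.Agent.H77
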