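import Pool.Agent.H77.TreeLikeC

open Set Topology

namespace Pool.Agent.H77

section
variable {Y : Type*} [TopologicalSpace Y] {σ : Y ≃ₜ Y} {p : ℕ} {F : Set Y}

theorem cocycle_of_order_two {I : Type*} {V : I → Set Y}
    (h3 : ∀ v1 v2 v3 x, v1 ≠ v2 → v2 ≠ v3 → v1 ≠ v3 → ¬ (x ∈ V v1 ∧ x ∈ V v2 ∧ x ∈ V v3))
    (w : I → I → ℤ) (hw : ∀ v v', w v v' = - w v' v) :
    ∀ v v' v'' x, x ∈ V v → x ∈ V v' → x ∈ V v'' → w v v' + w v' v'' = w v v'' := by
  intro v v' v'' x h h' h''
  have h0 : ∀ v, w v v = 0 := fun v => by have := hw v v; omega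
  by_cases e1 : v = v'
  · subst e1; rw [h0]; omega
  by_cases e2 : v' = v''
  · subst e2; rw [h0]; omega
  by_cases e3 : v = v''
  · subst e3; rw [h0, hw v v']; omega
  exact absurd ⟨h, h', h''⟩ (h3 v v' v'' x e1 e2 e3)

theorem Setup.case_free [T2Space Y] [CompactSpace Y] [ConnectedSpace Y] (S : Setup σ p F)
    (hY : TreeLike Y) (hne : ∃ x, x ∉ F) (τ : Y → ZMod p) (W : ZMod p → Set Y)
    (hWo : ∀ l, IsOpen (W l)) (hWd : ∀ l l' x, x ∈ W l → x ∈ W l' → l = l')
    (hτW : ∀ x ∈ F, x ∈ W (τ x)) (hτσ : ∀ x ∈ F, τ (σ x) = τ x + 1) : False := by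
  classical
  have hp0 := S.hp
  have : NeZero p := ⟨by omega⟩
  have : Fact (1 < p) := ⟨by omega⟩
  have hϖk : ∀ k : ℕ, ∀ a : ZMod p, ((Equiv.addRight (1 : ZMod p)) ^ k) a = a + k := by
    intro k
    induction k with
    | zero => intro a; simp
    | succ k ih =>
      intro a
      rw [pow_succ, Equiv.Perm.mul_apply, ih]
      push_cast
      simp only [Equiv.coe_addRight]
      ring
  obtain ⟨m, V, hVo, hVc, hVe, hV3, hVr, hVl, -⟩ := S.exists_cover hY (Equiv.addRight (1 : ZMod p))
    (by ext1 a; rw [hϖk]; simp) τ W hWo hWd hτW hτσ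
  let I := ZMod p ⊕ (Fin m × ZMod p)
  let P : I → I := Sum.map (Equiv.addRight (1 : ZMod p)) (fun a => (a.1, a.2 + 1))
  have hVe' : ∀ v x, σ x ∈ V (P v) ↔ x ∈ V v := hVe
  let c : I → ZMod p := fun v => match v with
    | Sum.inl l => l
    | Sum.inr a => a.2
  let rk : I → ℕ := fun v => match v with
    | Sum.inl _ => 0
    | Sum.inr a => a.1.val + 1
  have hcP : ∀ v, c (P v) = c v + 1 := by
    rintro (l | ⟨j, a⟩) <;> rfl
  have hrP : ∀ v, rk (P v) = rk v := by
    rintro (l | ⟨j, a⟩) <;> rfl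
  have hrk : ∀ v v' x, x ∈ V v → x ∈ V v' → rk v = rk v' → v = v' := by
    rintro (l | ⟨j, a⟩) (l' | ⟨j', a'⟩) x h h' hr
    · exact congrArg Sum.inl (hVl l l' x h h')
    · simp [rk] at hr
    · simp [rk] at hr
    · have hj : j = j' := by
        simp only [rk] at hr
        apply Fin.ext
        omega
      subst hj
      rw [hVr j a a' x h h']
  let w : I → I → ℤ := fun v v' =>
    if rk v < rk v' then ((c v' - c v).val : ℤ)
    else if rk v' < rk v then - ((c v - c v').val : ℤ) else 0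
  have hwa : ∀ v v', w v v' = - w v' v := by
    intro v v'
    simp only [w]
    rcases lt_trichotomy (rk v) (rk v') with h | h | h
    · have h2 : ¬ rk v' < rk v := by omega
      simp [h, h2]
    · have h1 : ¬ rk v < rk v' := by omega
      have h2 : ¬ rk v' < rk v := by omega
      simp [h1, h2]
    · have h2 : ¬ rk v < rk v' := by omega
      simp [h, h2]
  have hwP : ∀ v v', w (P v) (P v') = w v v' := by
    intro v v'
    simp only [w, hrP, hcP, add_sub_add_right_eq_sub]
  have hwc : ∀ v v' x, x ∈ V v → x ∈ V v' → ((w v v' : ℤ) : ZMod p) = c v' - c v := by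
    intro v v' x h h'
    simp only [w]
    rcases lt_trichotomy (rk v) (rk v') with h1 | h1 | h1
    · simp [h1]
    · have := hrk v v' x h h' h1
      subst this
      simp
    · have h2 : ¬ rk v < rk v' := by omega
      simp [h1, h2]
  obtain ⟨θ, hθl, hθw⟩ := hY.cochain V hVo hVc w (cocycle_of_order_two hV3 w hwa)
  choose v hv using hVc
  -- the difference D
  have hD : ∀ u x, x ∈ V u → θ (P (v x)) (σ x) - θ (v x) x = θ (P u) (σ x) - θ u x := by
    intro u x hu
    have h1 := hθw (P (v x)) (P u) (σ x) ((hVe' _ _).mpr (hv x)) ((hVe' _ _).mpr hu)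
    have h2 := hθw (v x) u x (hv x) hu
    rw [hwP] at h1
    omega
  have hDl : IsLocallyConstant (fun x => θ (P (v x)) (σ x) - θ (v x) x) := by
    rw [IsLocallyConstant.iff_eventually_eq]
    intro x
    have h1 := hθl (v x) x (hv x)
    have h2 := (σ.continuous.tendsto x).eventually
      (hθl (P (v x)) (σ x) ((hVe' _ _).mpr (hv x)))
    filter_upwards [h1, h2, (hVo (v x)).mem_nhds (hv x)] with y hy1 hy2 hy3
    rw [hD (v x) y hy3, hy1, hy2]
  obtain ⟨x0, hx0⟩ := hne
  have hDc : ∀ x, θ (P (v x)) (σ x) - θ (v x) x = θ (P (v x0)) (σ x0) - θ (v x0) x0 :=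
    fun x => hDl.apply_eq_of_preconnectedSpace x x0
  -- the residue e
  have hE : ∀ u x, x ∈ V u → ((θ (v x) x : ℤ) : ZMod p) - c (v x) = ((θ u x : ℤ) : ZMod p) - c u := by
    intro u x hu
    have h1 := hθw (v x) u x (hv x) hu
    have h2 := hwc (v x) u x (hv x) hu
    rw [← h1] at h2
    push_cast at h2
    linear_combination - h2
  have hEl : IsLocallyConstant (fun x => ((θ (v x) x : ℤ) : ZMod p) - c (v x)) := by
    rw [IsLocallyConstant.iff_eventually_eq]
    intro x
    have h1 := hθl (v x) x (hv x)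
    filter_upwards [h1, (hVo (v x)).mem_nhds (hv x)] with y hy1 hy3
    rw [hE (v x) y hy3, hy1]
  have hEc : ((θ (v (σ x0)) (σ x0) : ℤ) : ZMod p) - c (v (σ x0)) =
      ((θ (v x0) x0 : ℤ) : ZMod p) - c (v x0) := hEl.apply_eq_of_preconnectedSpace _ _
  rw [hE (P (v x0)) (σ x0) ((hVe' _ _).mpr (hv x0)), hcP] at hEc
  -- p * D = 0
  have hPk : ∀ k : ℕ, ∀ u, P^[k] u =
      Sum.map (fun a => a + (k : ZMod p)) (fun a => (a.1, a.2 + (k : ZMod p))) u := by
    intro k
    induction k with
    | zero => rintro (l | ⟨j, a⟩) <;> simp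
    | succ k ih =>
      rintro (l | ⟨j, a⟩)
      · rw [Function.iterate_succ_apply', ih]
        simp only [Sum.map_inl, P, Equiv.coe_addRight]
        push_cast
        rw [add_assoc]
      · rw [Function.iterate_succ_apply', ih]
        simp only [Sum.map_inr, P]
        push_cast
        rw [add_assoc]
  have hmem : ∀ k : ℕ, (σ ^ k) x0 ∈ V (P^[k] (v x0)) := by
    intro k
    induction k with
    | zero => simpa using hv x0
    | succ k ih =>
      rw [Function.iterate_succ_apply', pow_succ', Homeomorph.mul_apply]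
      exact (hVe' _ _).mpr ih
  have hstep : ∀ k : ℕ, θ (P^[k+1] (v x0)) ((σ ^ (k+1)) x0) - θ (P^[k] (v x0)) ((σ ^ k) x0) =
      θ (P (v x0)) (σ x0) - θ (v x0) x0 := by
    intro k
    rw [Function.iterate_succ_apply', pow_succ', Homeomorph.mul_apply, ← hD _ _ (hmem k), hDc]
  have hsum := Finset.sum_range_sub (fun k => θ (P^[k] (v x0)) ((σ ^ k) x0)) p
  rw [Finset.sum_congr rfl (fun k _ => hstep k)] at hsum
  rw [S.per x0 hx0, hPk] at hsum
  have hid : Sum.map (fun a => a + (p : ZMod p)) (fun a => (a.1, a.2 + (p : ZMod p))) (v x0) =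
      v x0 := by
    rcases v x0 with l | ⟨j, a⟩ <;> simp
  rw [hid] at hsum
  simp only [Finset.sum_const, Finset.card_range, Function.iterate_zero, id_eq, pow_zero,
    Homeomorph.one_apply, sub_self, smul_eq_mul, nsmul_eq_mul, mul_eq_zero] at hsum
  have hD0 : θ (P (v x0)) (σ x0) - θ (v x0) x0 = 0 := by
    rcases hsum with h | h
    · exfalso
      have : p = 0 := by exact_mod_cast h
      omega
    · exact h
  have h1 : ((θ (P (v x0)) (σ x0) - θ (v x0) x0 : ℤ) : ZMod p) = 1 := by
    push_cast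
    linear_combination hEc
  rw [hD0] at h1
  simp at h1

theorem const_of_preconnected {C V : Set Y} {f : Y → ℤ} (hC : IsPreconnected C) (hCV : C ⊆ V)
    (hf : ∀ x ∈ V, ∀ᶠ y in 𝓝 x, f y = f x) {a b : Y} (ha : a ∈ C) (hb : b ∈ C) : f a = f b := by
  have hcont : ContinuousOn f C := by
    intro x hx
    have : ContinuousAt f x := by
      refine (continuousAt_const (y := f x)).congr ?_
      filter_upwards [hf x (hCV hx)] with y hy
      exact hy.symm
    exact this.continuousWithinAt
  exact hC.constant hcont ha hb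

theorem sum_ite_add_eq_zero {p : ℕ} [NeZero p] (a : ZMod p) :
    ∑ i ∈ Finset.range p, (if a + (i : ZMod p) = 0 then (1 : ℤ) else 0) = 1 := by
  have : ∀ i ∈ Finset.range p, (if a + (i : ZMod p) = 0 then (1 : ℤ) else 0) =
      if i = (-a).val then 1 else 0 := by
    intro i hi
    have hi' := Finset.mem_range.mp hi
    congr 1
    apply propext
    constructor
    · intro h
      have h1 : -a = (i : ZMod p) := by linear_combination -h
      rw [h1, ZMod.val_natCast, Nat.mod_eq_of_lt hi']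
    · intro h
      rw [h]
      simp
  rw [Finset.sum_congr rfl this, Finset.sum_ite_eq' (Finset.range p)]
  simp [ZMod.val_lt]

theorem Setup.case_two [T2Space Y] [CompactSpace Y] [ConnectedSpace Y] (S : Setup σ p F)
    (hY : TreeLike Y) (τ : Y → Bool) (W : Bool → Set Y)
    (hWo : ∀ l, IsOpen (W l)) (hWd : ∀ l l' x, x ∈ W l → x ∈ W l' → l = l')
    (hτW : ∀ x ∈ F, x ∈ W (τ x)) (hτσ : ∀ x ∈ F, τ (σ x) = τ x)
    (C : Bool → Set Y) (hCF : ∀ l, C l ⊆ F) (hCc : ∀ l, IsPreconnected (C l))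
    (hCσ : ∀ l, ∀ x ∈ C l, σ x ∈ C l) (hCne : ∀ l, (C l).Nonempty)
    (hCτ : ∀ l, ∀ x ∈ C l, τ x = l) : False := by
  classical
  have hp0 := S.hp
  have : NeZero p := ⟨by omega⟩
  obtain ⟨m, V, hVo, hVc, hVe, hV3, hVr, hVl, hVF⟩ := S.exists_cover hY (1 : Equiv.Perm Bool)
    (one_pow p) τ W hWo hWd hτW hτσ
  let I := Bool ⊕ (Fin m × ZMod p)
  let P : I → I := Sum.map (1 : Equiv.Perm Bool) (fun a => (a.1, a.2 + 1))
  have hVe' : ∀ v x, σ x ∈ V (P v) ↔ x ∈ V v := hVe
  let g : ZMod p → ℤ := fun a => if a = 0 then 1 else 0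
  let w : I → I → ℤ := fun v v' => match v, v' with
    | Sum.inl true, Sum.inr a => - g a.2
    | Sum.inr a, Sum.inl true => g a.2
    | _, _ => 0
  let u : I → ℤ := fun v => match v with
    | Sum.inl true => 1
    | _ => 0
  have hwa : ∀ v v', w v v' = - w v' v := by
    rintro ((_ | _) | ⟨j, a⟩) ((_ | _) | ⟨j', a'⟩) <;> simp [w]
  obtain ⟨θ, hθl, hθw⟩ := hY.cochain V hVo hVc w (cocycle_of_order_two hV3 w hwa)
  have hPk : ∀ k : ℕ, ∀ u, P^[k] u = Sum.map id (fun a => (a.1, a.2 + (k : ZMod p))) u := by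
    intro k
    induction k with
    | zero => rintro (l | ⟨j, a⟩) <;> simp
    | succ k ih =>
      rintro (l | ⟨j, a⟩)
      · rw [Function.iterate_succ_apply', ih]
        rfl
      · rw [Function.iterate_succ_apply', ih]
        simp only [Sum.map_inr, P]
        push_cast
        rw [add_assoc]
  have hmem : ∀ x u, x ∈ V u → ∀ k : ℕ, (σ ^ k) x ∈ V (P^[k] u) := by
    intro x u hu k
    induction k with
    | zero => simpa using hu
    | succ k ih =>
      rw [Function.iterate_succ_apply', pow_succ', Homeomorph.mul_apply]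
      exact (hVe' _ _).mpr ih
  have hsumw : ∀ v v' x, x ∈ V v → x ∈ V v' →
      ∑ k ∈ Finset.range p, w (P^[k] v) (P^[k] v') = u v' - u v := by
    intro v v' x h h'
    rcases v with l | ⟨j, a⟩ <;> rcases v' with l' | ⟨j', a'⟩
    · have := hVl l l' x h h'
      subst this
      simp only [hPk, Sum.map_inl, id]
      rcases l with _ | _ <;> simp [w]
    · simp only [hPk, Sum.map_inl, Sum.map_inr, id]
      rcases l with _ | _
      · simp [w, u]
      · simp only [w, u, g, Finset.sum_neg_distrib, sum_ite_add_eq_zero]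
        norm_num
    · simp only [hPk, Sum.map_inl, Sum.map_inr, id]
      rcases l' with _ | _
      · simp [w, u]
      · simp only [w, u, g, sum_ite_add_eq_zero]
        norm_num
    · simp only [hPk, Sum.map_inr]
      simp [w, u]
  choose v hv using hVc
  have hS : ∀ u' x, x ∈ V u' →
      (∑ k ∈ Finset.range p, θ (P^[k] (v x)) ((σ ^ k) x)) - u (v x) =
      (∑ k ∈ Finset.range p, θ (P^[k] u') ((σ ^ k) x)) - u u' := by
    intro u' x hu'
    have h1 := hsumw (v x) u' x (hv x) hu'
    have h2 : ∀ k ∈ Finset.range p, w (P^[k] (v x)) (P^[k] u') =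
        θ (P^[k] u') ((σ ^ k) x) - θ (P^[k] (v x)) ((σ ^ k) x) := fun k _ =>
      (hθw _ _ _ (hmem x _ (hv x) k) (hmem x _ hu' k)).symm
    rw [Finset.sum_congr rfl h2, Finset.sum_sub_distrib] at h1
    omega
  have hSl : IsLocallyConstant
      (fun x => (∑ k ∈ Finset.range p, θ (P^[k] (v x)) ((σ ^ k) x)) - u (v x)) := by
    rw [IsLocallyConstant.iff_eventually_eq]
    intro x
    have h1 : ∀ᶠ y in 𝓝 x, ∀ k ∈ Finset.range p,
        θ (P^[k] (v x)) ((σ ^ k) y) = θ (P^[k] (v x)) ((σ ^ k) x) := by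
      rw [Filter.eventually_all_finset]
      intro k _
      exact ((σ ^ k).continuous.tendsto x).eventually (hθl _ _ (hmem x _ (hv x) k))
    filter_upwards [h1, (hVo (v x)).mem_nhds (hv x)] with y hy1 hy3
    rw [hS (v x) y hy3, Finset.sum_congr rfl hy1]
  have hval : ∀ l : Bool, ∀ x ∈ C l,
      (∑ k ∈ Finset.range p, θ (P^[k] (v x)) ((σ ^ k) x)) - u (v x) =
        p * θ (Sum.inl l) x - u (Sum.inl l) := by
    intro l x hx
    have hxV : ∀ y ∈ C l, y ∈ V (Sum.inl l) := by
      intro y hy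
      have := hVF y (hCF l hy)
      rwa [hCτ l y hy] at this
    rw [hS (Sum.inl l) x (hxV x hx)]
    have hk : ∀ k ∈ Finset.range p, θ (P^[k] (Sum.inl l)) ((σ ^ k) x) = θ (Sum.inl l) x := by
      intro k _
      rw [hPk]
      simp only [Sum.map_inl, id]
      have hxk : ∀ k : ℕ, (σ ^ k) x ∈ C l := by
        intro k
        induction k with
        | zero => simpa using hx
        | succ k ih =>
          rw [pow_succ', Homeomorph.mul_apply]
          exact hCσ l _ ih
      exact const_of_preconnected (hCc l) hxV (hθl (Sum.inl l)) (hxk k) hx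
    rw [Finset.sum_congr rfl hk]
    simp
  obtain ⟨a, ha⟩ := hCne false
  obtain ⟨b, hb⟩ := hCne true
  have h1 := hval false a ha
  have h2 := hval true b hb
  have h3 := hSl.apply_eq_of_preconnectedSpace a b
  simp only [h1, h2] at h3
  simp only [u] at h3
  have h4 : (p : ℤ) * (θ (Sum.inl true) b - θ (Sum.inl false) a) = 1 := by
    rw [mul_sub]; omega
  have h5 : (p : ℤ) ∣ 1 := ⟨_, h4.symm⟩
  have h6 := Int.le_of_dvd one_pos h5
  omega

end

end Pool.Agent.H77
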