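import Pool.Agent.H77.TreeLikeD

open Set Topology

namespace Pool.Agent.H77

theorem zpow_congr_of_pow_eq_one {G : Type*} [Group G] {s : G} {p : ℕ} (hs : s ^ p = 1) {k l : ℤ}
    (h : (k : ZMod p) = (l : ZMod p)) : s ^ k = s ^ l := by
  rw [ZMod.intCast_eq_intCast_iff_dvd_sub] at h
  obtain ⟨m, hm⟩ := h
  have : l = k + (p : ℤ) * m := by omega
  rw [this, zpow_add, zpow_mul, zpow_natCast, hs, one_zpow, mul_one]

/-- In a profinite space, a free `ℤ/p`-action has a locally constant equivariant label. -/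
theorem free_label {P : Type*} [TopologicalSpace P] [CompactSpace P] [T2Space P]
    [TotallyDisconnectedSpace P] (s : P ≃ₜ P) (p : ℕ) (hp : p.Prime) (hs : s ^ p = 1)
    (hfree : ∀ y, s y ≠ y) :
    ∃ τ : P → ZMod p, IsLocallyConstant τ ∧ ∀ y, τ (s y) = τ y + 1 := by
  classical
  have hp2 := hp.two_le
  have : NeZero p := ⟨by omega⟩
  have hfree' : ∀ y, ∀ i : ℕ, 0 < i → i < p → (s ^ i) y ≠ y := by
    intro y i h0 hi he
    apply hfree y
    have hcop : Nat.gcd i p = 1 := (Nat.Coprime.symm ((Nat.Prime.coprime_iff_not_dvd hp).mpr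
      (fun hd => by have := Nat.le_of_dvd h0 hd; omega)))
    have hb := Nat.gcd_eq_gcd_ab i p
    rw [hcop] at hb
    have h1 : s = (s ^ i) ^ (Nat.gcdA i p) := by
      have h2 : s ^ (1 : ℤ) = s ^ ((i : ℤ) * Nat.gcdA i p) := by
        apply zpow_congr_of_pow_eq_one hs
        have hb' : (1 : ℤ) = i * Nat.gcdA i p + p * Nat.gcdB i p := by exact_mod_cast hb
        rw [hb']
        push_cast
        simp
      rw [zpow_one, zpow_mul, zpow_natCast] at h2
      exact h2
    conv_lhs => rw [h1]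
    exact homeo_zpow_fixed _ y he _
  have S : Setup s p (∅ : Set P) :=
    { hp := hp2
      closed := isClosed_empty
      inv := fun x => by simp
      per := fun x _ => by rw [hs]; rfl
      free := fun x _ => hfree' x }
  suffices h : ∃ T : Set P, IsClopen T ∧ univ ⊆ T ∧ (∀ x, s x ∈ T ↔ x ∈ T) ∧
      ∃ τ : P → ZMod p, IsLocallyConstant τ ∧ ∀ y ∈ T, τ (s y) = τ y + 1 by
    obtain ⟨T, -, hT, -, τ, hτ, hτ'⟩ := h
    exact ⟨τ, hτ, fun y => hτ' y (hT (mem_univ y))⟩
  refine isCompact_univ.induction_on (p := fun A => ∃ T : Set P, IsClopen T ∧ A ⊆ T ∧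
    (∀ x, s x ∈ T ↔ x ∈ T) ∧ ∃ τ : P → ZMod p, IsLocallyConstant τ ∧ ∀ y ∈ T, τ (s y) = τ y + 1)
    ?_ ?_ ?_ ?_
  · exact ⟨∅, isClopen_empty, subset_rfl, fun x => by simp, fun _ => 0, IsLocallyConstant.const 0,
      fun y hy => absurd hy (notMem_empty y)⟩
  · rintro A B hAB ⟨T, hT, hBT, h1, h2⟩
    exact ⟨T, hT, hAB.trans hBT, h1, h2⟩
  · rintro A B ⟨T, hT, hAT, hTi, τ, hτ, hτe⟩ ⟨T', hT', hBT', hTi', τ', hτ', hτe'⟩
    refine ⟨T ∪ T', hT.union hT', union_subset_union hAT hBT', fun x => ?_, T.piecewise τ τ', ?_, ?_⟩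
    · simp only [mem_union, hTi, hTi']
    · rw [IsLocallyConstant.iff_eventually_eq]
      intro x
      by_cases hx : x ∈ T
      · filter_upwards [hT.isOpen.mem_nhds hx, (IsLocallyConstant.iff_eventually_eq τ).mp hτ x]
          with y hy1 hy2
        rw [Set.piecewise_eq_of_mem _ _ _ hy1, Set.piecewise_eq_of_mem _ _ _ hx, hy2]
      · filter_upwards [hT.compl.isOpen.mem_nhds hx,
          (IsLocallyConstant.iff_eventually_eq τ').mp hτ' x] with y hy1 hy2
        rw [Set.piecewise_eq_of_notMem _ _ _ hy1, Set.piecewise_eq_of_notMem _ _ _ hx, hy2]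
    · intro y hy
      by_cases hyT : y ∈ T
      · rw [Set.piecewise_eq_of_mem _ _ _ hyT, Set.piecewise_eq_of_mem _ _ _ ((hTi y).mpr hyT)]
        exact hτe y hyT
      · have hyT' : y ∈ T' := hy.resolve_left hyT
        rw [Set.piecewise_eq_of_notMem _ _ _ hyT,
          Set.piecewise_eq_of_notMem _ _ _ (fun h => hyT ((hTi y).mp h))]
        exact hτe' y hyT'
  · intro x _
    obtain ⟨N, hNo, hxN, -, hNf⟩ := S.local_nbhd x (notMem_empty x)
    obtain ⟨Q, hQ, hxQ, hQN⟩ := compact_exists_isClopen_in_isOpen hNo hxN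
    refine ⟨Q, mem_nhdsWithin_of_mem_nhds (hQ.isOpen.mem_nhds hxQ), ?_⟩
    have huniq : ∀ y (k l : ℤ), (s ^ k) y ∈ Q → (s ^ l) y ∈ Q → (k : ZMod p) = l := by
      intro y k l hk hl
      by_contra hne
      obtain ⟨i, hi, hil⟩ := exists_nat_rep hp2 (l - k)
      have hi0 : 0 < i := by
        rcases Nat.eq_zero_or_pos i with h0 | h0
        · subst h0
          exfalso
          apply hne
          have : ((l - k : ℤ) : ZMod p) = 0 := by rw [hil]; simp
          push_cast at this
          exact (sub_eq_zero.mp this).symm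
        · exact h0
      apply hNf _ (hQN hk) i hi0 hi
      have h2 : (s ^ i) ((s ^ k) y) = (s ^ l) y := by
        rw [← zpow_natCast, ← Homeomorph.mul_apply, ← zpow_add]
        congr 1
        apply zpow_congr_of_pow_eq_one hs
        push_cast
        push_cast at hil
        rw [← hil]; ring
      rw [h2]; exact hQN hl
    let T : Set P := {y | ∃ k : ℤ, (s ^ k) y ∈ Q}
    have hTeq : T = ⋃ i ∈ Finset.range p, (s ^ i) ⁻¹' Q := by
      ext y
      simp only [T, Set.mem_ofPred_eq, mem_iUnion, mem_preimage, Finset.mem_range, exists_prop]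
      constructor
      · rintro ⟨k, hk⟩
        obtain ⟨i, hi, hik⟩ := exists_nat_rep hp2 k
        refine ⟨i, hi, ?_⟩
        rw [← zpow_natCast, ← zpow_congr_of_pow_eq_one hs hik]
        exact hk
      · rintro ⟨i, hi, hk⟩
        exact ⟨i, by rw [zpow_natCast]; exact hk⟩
    have hTc : IsClopen T := by
      rw [hTeq]
      exact (Finset.range p).finite_toSet.isClopen_biUnion
        fun i _ => hQ.preimage (s ^ i).continuous
    let τ : P → ZMod p := fun y => if h : ∃ k : ℤ, (s ^ k) y ∈ Q then - ((h.choose : ℤ) : ZMod p) else 0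
    have hτ : ∀ y (k : ℤ), (s ^ k) y ∈ Q → τ y = - (k : ZMod p) := by
      intro y k hk
      have h : ∃ k : ℤ, (s ^ k) y ∈ Q := ⟨k, hk⟩
      simp only [τ, dif_pos h]
      rw [huniq y _ _ h.choose_spec hk]
    refine ⟨T, hTc, fun y hy => ⟨0, by simpa using hy⟩, ?_, τ, ?_, ?_⟩
    · intro y
      constructor
      · rintro ⟨k, hk⟩
        exact ⟨k + 1, by rwa [zpow_add_one, Homeomorph.mul_apply]⟩
      · rintro ⟨k, hk⟩
        refine ⟨k - 1, ?_⟩
        rwa [← Homeomorph.mul_apply, ← zpow_add_one, sub_add_cancel]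
    · rw [IsLocallyConstant.iff_eventually_eq]
      intro y
      by_cases hy : y ∈ T
      · obtain ⟨k, hk⟩ := hy
        filter_upwards [(hQ.isOpen.preimage (s ^ k).continuous).mem_nhds hk] with z hz
        rw [hτ y k hk, hτ z k hz]
      · filter_upwards [hTc.compl.isOpen.mem_nhds hy] with z hz
        have h1 : ¬ ∃ k : ℤ, (s ^ k) y ∈ Q := hy
        have h2 : ¬ ∃ k : ℤ, (s ^ k) z ∈ Q := hz
        simp only [τ, dif_neg h1, dif_neg h2]
    · rintro y ⟨k, hk⟩
      have h1 : (s ^ (k - 1)) (s y) ∈ Q := by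
        rwa [← Homeomorph.mul_apply, ← zpow_add_one, sub_add_cancel]
      rw [hτ y k hk, hτ (s y) (k - 1) h1]
      push_cast
      ring

/-- Separating two fixed points by an invariant clopen set. -/
theorem two_label {P : Type*} [TopologicalSpace P] [CompactSpace P] [T2Space P]
    [TotallyDisconnectedSpace P] (s : P ≃ₜ P) (p : ℕ) (hp : 2 ≤ p) (hs : s ^ p = 1)
    (x y : P) (hx : s x = x) (hxy : x ≠ y) :
    ∃ τ : P → Bool, IsLocallyConstant τ ∧ (∀ z, τ (s z) = τ z) ∧ τ x = false ∧ τ y = true := by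
  classical
  obtain ⟨Q, hQ, hxQ, hQy⟩ := compact_exists_isClopen_in_isOpen
    (isOpen_compl_singleton (x := y)) (show x ∈ ({y} : Set P)ᶜ from hxy)
  let T : Set P := {z | ∀ k : ℤ, (s ^ k) z ∈ Q}
  have hTeq : T = ⋂ i ∈ Finset.range p, (s ^ i) ⁻¹' Q := by
    ext y
    simp only [T, Set.mem_ofPred_eq, mem_iInter, mem_preimage, Finset.mem_range]
    constructor
    · intro h i _
      have := h i
      rwa [zpow_natCast] at this
    · intro h k
      obtain ⟨i, hi, hik⟩ := exists_nat_rep hp k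
      rw [zpow_congr_of_pow_eq_one hs hik, zpow_natCast]
      exact h i hi
  have hTc : IsClopen T := by
    rw [hTeq]
    exact (Finset.range p).finite_toSet.isClopen_biInter
      fun i _ => hQ.preimage (s ^ i).continuous
  have hTi : ∀ z, s z ∈ T ↔ z ∈ T := by
    intro z
    constructor
    · intro h k
      have := h (k - 1)
      rwa [← Homeomorph.mul_apply, ← zpow_add_one, sub_add_cancel] at this
    · intro h k
      have := h (k + 1)
      rwa [zpow_add_one, Homeomorph.mul_apply] at this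
  refine ⟨fun z => decide (z ∉ T), ?_, ?_, ?_, ?_⟩
  · rw [IsLocallyConstant.iff_eventually_eq]
    intro z
    by_cases hz : z ∈ T
    · filter_upwards [hTc.isOpen.mem_nhds hz] with z' hz'
      simp [hz, hz']
    · filter_upwards [hTc.compl.isOpen.mem_nhds hz] with z' hz'
      have : z' ∉ T := hz'
      simp [hz, this]
  · intro z
    simp [hTi]
  · have : x ∈ T := by
      intro k
      rw [homeo_zpow_fixed s x hx]
      exact hxQ
    simp [this]
  · have : y ∉ T := by
      intro h
      have h0 := h 0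
      simp only [zpow_zero, Homeomorph.one_apply] at h0
      exact hQy h0 rfl
    simp [this]

/-- The homeomorphism induced on the space of components. -/
def ccHomeo {Z : Type*} [TopologicalSpace Z] (s : Z ≃ₜ Z) :
    ConnectedComponents Z ≃ₜ ConnectedComponents Z where
  toFun := s.continuous.connectedComponentsMap
  invFun := s.symm.continuous.connectedComponentsMap
  left_inv := by
    intro x
    obtain ⟨x, rfl⟩ := ConnectedComponents.surjective_coe x
    simp
  right_inv := by
    intro x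
    obtain ⟨x, rfl⟩ := ConnectedComponents.surjective_coe x
    simp
  continuous_toFun := s.continuous.connectedComponentsMap_continuous
  continuous_invFun := s.symm.continuous.connectedComponentsMap_continuous

theorem ccHomeo_coe {Z : Type*} [TopologicalSpace Z] (s : Z ≃ₜ Z) (x : Z) :
    ccHomeo s (x : ConnectedComponents Z) = ((s x : Z) : ConnectedComponents Z) := rfl

theorem ccHomeo_pow_coe {Z : Type*} [TopologicalSpace Z] (s : Z ≃ₜ Z) (k : ℕ) (x : Z) :
    (ccHomeo s ^ k) (x : ConnectedComponents Z) = (((s ^ k) x : Z) : ConnectedComponents Z) := by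
  induction k generalizing x with
  | zero => rfl
  | succ k ih => rw [pow_succ, Homeomorph.mul_apply, ccHomeo_coe, ih, pow_succ,
      Homeomorph.mul_apply]

/-- Clopen separation of a component from a closed set. -/
theorem clopen_sep {Z : Type*} [TopologicalSpace Z] [CompactSpace Z] [T2Space Z] (x : Z)
    (K : Set Z) (hK : IsClosed K) (hd : Disjoint (connectedComponent x) K) :
    ∃ s : Set Z, IsClopen s ∧ x ∈ s ∧ Disjoint s K := by
  have H1 := hK.isCompact.inter_iInter_nonempty
      (fun s : { s : Set Z // IsClopen s ∧ x ∈ s } => (s : Set Z)) fun s => s.2.1.1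
  by_contra hcon
  push Not at hcon
  have H2 := H1 (by
    intro u
    have h1 : IsClopen (⋂ s ∈ u, (s : Set Z)) := isClopen_biInter_finset fun s _ => s.2.1
    have h2 : x ∈ (⋂ s ∈ u, (s : Set Z)) := mem_iInter₂.2 fun s _ => s.2.2
    have h3 := hcon _ h1 h2
    rw [Set.not_disjoint_iff] at h3
    obtain ⟨z, hz1, hz2⟩ := h3
    exact ⟨z, hz2, hz1⟩)
  obtain ⟨z, hz1, hz2⟩ := H2
  rw [← connectedComponent_eq_iInter_isClopen] at hz2
  exact Set.disjoint_left.mp hd hz2 hz1

/-- Extend a locally constant labelling of a closed set to disjoint open sets. -/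
theorem extend_label {Y Λ : Type*} [TopologicalSpace Y] [NormalSpace Y] (F : Set Y)
    (hF : IsClosed F) (τ : F → Λ) (hτ : IsLocallyConstant τ) (c : Λ → ℕ)
    (hc : Function.Injective c) :
    ∃ W : Λ → Set Y, (∀ l, IsOpen (W l)) ∧ (∀ l l' x, x ∈ W l → x ∈ W l' → l = l') ∧
      ∀ x : F, (x : Y) ∈ W (τ x) := by
  have hcont : Continuous (fun x : F => ((c (τ x) : ℕ) : ℝ)) :=
    (hτ.comp (fun l => ((c l : ℕ) : ℝ))).continuous
  obtain ⟨g, hg⟩ := ContinuousMap.exists_restrict_eq hF (⟨_, hcont⟩ : C(F, ℝ))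
  have hg' : ∀ x : F, g x = ((c (τ x) : ℕ) : ℝ) := by
    intro x
    have := congrArg (fun f : C(F, ℝ) => f x) hg
    simpa using this
  refine ⟨fun l => {y | |g y - (c l : ℝ)| < 1 / 2}, ?_, ?_, ?_⟩
  · intro l
    exact isOpen_lt (by fun_prop) continuous_const
  · intro l l' x hx hx'
    apply hc
    simp only [Set.mem_ofPred_eq] at hx hx'
    have h1 : |((c l : ℝ)) - (c l' : ℝ)| < 1 := by
      have := abs_sub_le (c l : ℝ) (g x) (c l' : ℝ)
      rw [abs_sub_comm (c l : ℝ) (g x)] at this
      linarith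
    have h2 : |((c l : ℤ)) - (c l' : ℤ)| < 1 := by exact_mod_cast h1
    have h3 := Int.abs_lt_one_iff.mp h2
    omega
  · intro x
    simp only [Set.mem_ofPred_eq]
    rw [hg' x]
    simp

end Pool.Agent.H77
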