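import Pool.Agent.H77.TreeLikeE

open Set Topology

namespace Pool.Agent.H77

/-- Boundary bumping: components of the complement of a nonempty open set meet its closure. -/
theorem boundary_bump {Y : Type*} [TopologicalSpace Y] [CompactSpace Y] [T2Space Y]
    [ConnectedSpace Y] (B : Set Y) (hB : IsOpen B) (hne : B.Nonempty) (x : (Bᶜ : Set Y)) :
    ∃ z : (Bᶜ : Set Y), z ∈ connectedComponent x ∧ (z : Y) ∈ closure B := by
  have hFc : IsClosed Bᶜ := hB.isClosed_compl
  have : CompactSpace (Bᶜ : Set Y) := isCompact_iff_compactSpace.mp hFc.isCompact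
  by_contra hcon
  push Not at hcon
  obtain ⟨s, hs, hxs, hsK⟩ := clopen_sep x ((↑) ⁻¹' closure B : Set (Bᶜ : Set Y))
    (isClosed_closure.preimage continuous_subtype_val)
    (by
      rw [Set.disjoint_left]
      intro z hz1 hz2
      exact hcon z hz1 hz2)
  obtain ⟨O, hO, hOs⟩ := isOpen_induced_iff.mp hs.isOpen
  have himg : ((↑) '' s : Set Y) = O ∩ (closure B)ᶜ := by
    ext y
    constructor
    · rintro ⟨z, hz, rfl⟩
      refine ⟨?_, ?_⟩
      · have : z ∈ (Subtype.val ⁻¹' O : Set (Bᶜ : Set Y)) := by rw [hOs]; exact hz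
        exact this
      · intro h
        exact Set.disjoint_left.mp hsK hz h
    · rintro ⟨hy1, hy2⟩
      have hyB : y ∉ B := fun h => hy2 (subset_closure h)
      refine ⟨⟨y, hyB⟩, ?_, rfl⟩
      rw [← hOs]
      exact hy1
  have hclopen : IsClopen ((↑) '' s : Set Y) := by
    refine ⟨hFc.isClosedMap_subtype_val _ hs.isClosed, ?_⟩
    rw [himg]
    exact hO.inter isClosed_closure.isOpen_compl
  have huniv := hclopen.eq_univ ⟨x, ⟨x, hxs, rfl⟩⟩
  obtain ⟨b, hb⟩ := hne
  have : b ∈ ((↑) '' s : Set Y) := by rw [huniv]; trivial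
  obtain ⟨z, -, rfl⟩ := this
  exact z.2 hb

theorem minimal_case {Y : Type*} [TopologicalSpace Y] [CompactSpace Y] [T2Space Y]
    [ConnectedSpace Y] (hY : TreeLike Y) (h : Y ≃ₜ Y)
    (hper : ∀ x, ∃ m : ℕ, 0 < m ∧ (h ^ m) x = x)
    (hmin : ∀ K : Set Y, IsClosed K → K.Nonempty → IsPreconnected K →
      (∀ x, h x ∈ K ↔ x ∈ K) → K = univ) : ∃ x, h x = x := by
  classical
  by_contra hnofix
  push Not at hnofix
  have hit : ∀ (k : ℕ) (x : Y), (h ^ k) x = (⇑h)^[k] x := by
    intro k
    induction k with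
    | zero => intro x; rfl
    | succ k ih => intro x; rw [pow_succ, Homeomorph.mul_apply, ih, Function.iterate_succ_apply]
  -- Baire
  have hclosed : ∀ m : ℕ, IsClosed {x | (h ^ (m + 1)) x = x} := fun m =>
    isClosed_eq (h ^ (m + 1)).continuous continuous_id
  obtain ⟨m, hm⟩ := nonempty_interior_of_iUnion_of_closed hclosed (by
    apply Set.eq_univ_of_forall
    intro x
    obtain ⟨m, hm, hx⟩ := hper x
    refine mem_iUnion.mpr ⟨m - 1, ?_⟩
    simp only [Set.mem_ofPred_eq]
    rwa [Nat.sub_add_cancel hm])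
  set W := interior {x | (h ^ (m + 1)) x = x} with hW
  have hWm : ∀ x ∈ W, (h ^ (m + 1)) x = x := fun x hx =>
    interior_subset (s := {x | (h ^ (m + 1)) x = x}) hx
  have hWo : IsOpen W := isOpen_interior
  -- maximal minimal period
  let per : Y → ℕ := fun x => Function.minimalPeriod h x
  have hperle : ∀ x ∈ W, per x ≤ m + 1 := by
    intro x hx
    apply Function.IsPeriodicPt.minimalPeriod_le (Nat.succ_pos m)
    show (⇑h)^[m + 1] x = x
    rw [← hit]; exact hWm x hx
  obtain ⟨x0, hx0W, hx0max⟩ : ∃ x0 ∈ W, ∀ x ∈ W, per x ≤ per x0 := by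
    have hne : {n | ∃ x ∈ W, per x = n}.Nonempty := by
      obtain ⟨x, hx⟩ := hm
      exact ⟨_, x, hx, rfl⟩
    have hbd : BddAbove {n | ∃ x ∈ W, per x = n} := ⟨m + 1, by
      rintro n ⟨x, hx, rfl⟩
      exact hperle x hx⟩
    obtain ⟨x0, hx0, he⟩ := Nat.sSup_mem hne hbd
    exact ⟨x0, hx0, fun x hx => by rw [he]; exact le_csSup hbd ⟨x, hx, rfl⟩⟩
  set n := per x0 with hn
  have hn0 : 0 < n := by
    apply Function.IsPeriodicPt.minimalPeriod_pos (Nat.succ_pos m)
    show (⇑h)^[m + 1] x0 = x0
    rw [← hit]; exact hWm x0 hx0W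
  have hn1 : n ≠ 1 := by
    intro h1
    have := Function.isPeriodicPt_minimalPeriod h x0
    have h2 : (⇑h)^[n] x0 = x0 := this
    rw [h1] at h2
    exact hnofix x0 h2
  have hn2 : 2 ≤ n := by omega
  let N0 : Set Y := W ∩ ⋂ i ∈ Finset.Ico 1 n, {x | (h ^ i) x ≠ x}
  have hN0o : IsOpen N0 := hWo.inter (isOpen_biInter_finset fun i _ =>
    isOpen_ne_fun (h ^ i).continuous continuous_id)
  have hx0N : x0 ∈ N0 := by
    refine ⟨hx0W, ?_⟩
    simp only [mem_iInter, Finset.mem_Ico, Set.mem_ofPred_eq]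
    rintro i ⟨hi1, hi2⟩ he
    have : Function.IsPeriodicPt h i x0 := by
      show (⇑h)^[i] x0 = x0
      rw [← hit]; exact he
    have h5 : n ≤ i := this.minimalPeriod_le hi1
    omega
  have hN0per : ∀ x ∈ N0, (h ^ n) x = x ∧ ∀ i : ℕ, 0 < i → i < n → (h ^ i) x ≠ x := by
    intro x hx
    have h2 := hx.2
    simp only [mem_iInter, Finset.mem_Ico, Set.mem_ofPred_eq] at h2
    have h3 : ∀ i : ℕ, 0 < i → i < n → (h ^ i) x ≠ x := fun i h0 hi => h2 i ⟨h0, hi⟩
    refine ⟨?_, h3⟩
    have hle := hx0max x hx.1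
    have hpos : 0 < per x := by
      apply Function.IsPeriodicPt.minimalPeriod_pos (Nat.succ_pos m)
      show (⇑h)^[m + 1] x = x
      rw [← hit]; exact hWm x hx.1
    have hxp : (h ^ (per x)) x = x := by
      rw [hit]; exact Function.isPeriodicPt_minimalPeriod h x
    have heq : per x = n := by
      by_contra hne
      exact h3 (per x) hpos (lt_of_le_of_ne hle hne) hxp
    rw [← heq]; exact hxp
  -- the invariant open set
  let B : Set Y := {x | ∃ k : ℤ, (h ^ k) x ∈ N0}
  have hBo : IsOpen B := by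
    have : B = ⋃ k : ℤ, (h ^ k) ⁻¹' N0 := by
      ext x
      simp only [B, Set.mem_ofPred_eq, mem_iUnion, mem_preimage]
    rw [this]
    exact isOpen_iUnion fun k => hN0o.preimage (h ^ k).continuous
  have hBi : ∀ x, h x ∈ B ↔ x ∈ B := by
    intro x
    constructor
    · rintro ⟨k, hk⟩
      exact ⟨k + 1, by rwa [zpow_add_one, Homeomorph.mul_apply]⟩
    · rintro ⟨k, hk⟩
      refine ⟨k - 1, ?_⟩
      rwa [← Homeomorph.mul_apply, ← zpow_add_one, sub_add_cancel]
  have hx0B : x0 ∈ B := ⟨0, by simpa using hx0N⟩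
  have hcomm : ∀ (i : ℕ) (k : ℤ) (x : Y), (h ^ i) ((h ^ k) x) = (h ^ k) ((h ^ i) x) := by
    intro i k x
    rw [← Homeomorph.mul_apply, ← Homeomorph.mul_apply, ← zpow_natCast, ← zpow_add, ← zpow_add,
      add_comm]
  have hBper : ∀ x ∈ B, (h ^ n) x = x ∧ ∀ i : ℕ, 0 < i → i < n → (h ^ i) x ≠ x := by
    rintro x ⟨k, hk⟩
    obtain ⟨h1, h2⟩ := hN0per _ hk
    refine ⟨?_, ?_⟩
    · rw [hcomm] at h1
      exact (h ^ k).injective h1
    · intro i h0 hi he
      apply h2 i h0 hi
      rw [hcomm, he]
  have hclB : ∀ x ∈ closure B, (h ^ n) x = x := by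
    intro x hx
    have : closure B ⊆ {x | (h ^ n) x = x} :=
      closure_minimal (fun y hy => (hBper y hy).1) (isClosed_eq (h ^ n).continuous continuous_id)
    exact this hx
  -- the closed set F
  let F : Set Y := Bᶜ
  have hFc : IsClosed F := hBo.isClosed_compl
  have hFi : ∀ x, h x ∈ F ↔ x ∈ F := fun x => not_congr (hBi x)
  have : CompactSpace F := isCompact_iff_compactSpace.mp hFc.isCompact
  -- prime
  obtain ⟨p, hp, hpn⟩ := Nat.exists_prime_and_dvd hn1
  obtain ⟨q, hq⟩ := hpn
  have hq0 : 0 < q := by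
    rcases Nat.eq_zero_or_pos q with h0 | h0
    · rw [h0] at hq; omega
    · exact h0
  let σ : Y ≃ₜ Y := h ^ q
  have hσpow : ∀ i : ℕ, σ ^ i = h ^ (q * i) := fun i => by rw [pow_mul]
  have hσi : ∀ x, σ x ∈ F ↔ x ∈ F := by
    intro x
    have := inv_zpow hFi q x
    rwa [zpow_natCast] at this
  have S : Setup σ p F :=
    { hp := hp.two_le
      closed := hFc
      inv := hσi
      per := by
        intro x hx
        rw [hσpow, mul_comm, ← hq]
        exact (hBper x (not_not.mp hx)).1
      free := by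
        intro x hx i h0 hi
        rw [hσpow]
        apply (hBper x (not_not.mp hx)).2 _ (Nat.mul_pos hq0 h0)
        rw [hq, mul_comm]
        exact Nat.mul_lt_mul_of_pos_right hi hq0 }
  -- restricted homeomorphisms
  let hF : F ≃ₜ F := h.subtype (fun x => (hFi x).symm)
  let σF : F ≃ₜ F := σ.subtype (fun x => (hσi x).symm)
  have hhF : ∀ x : F, ((hF x : F) : Y) = h x := fun x => rfl
  have hσF : ∀ x : F, ((σF x : F) : Y) = σ x := fun x => rfl
  have hσFk : ∀ (k : ℕ) (x : F), (((σF ^ k) x : F) : Y) = (σ ^ k) x := by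
    intro k
    induction k with
    | zero => intro x; rfl
    | succ k ih => intro x; rw [pow_succ, pow_succ, Homeomorph.mul_apply, Homeomorph.mul_apply, ih,
        hσF]
  -- σF ^ p preserves components
  have hcc : ccHomeo σF ^ p = 1 := by
    ext1 z
    obtain ⟨x, rfl⟩ := ConnectedComponents.surjective_coe z
    rw [ccHomeo_pow_coe, Homeomorph.one_apply]
    obtain ⟨z, hz, hzB⟩ := boundary_bump B hBo ⟨x0, hx0B⟩ x
    have h1 : (σF ^ p) z = z := by
      apply Subtype.ext
      rw [hσFk, hσpow, mul_comm, ← hq]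
      exact hclB _ hzB
    have h2 : (x : ConnectedComponents F) = (z : ConnectedComponents F) := by
      rw [ConnectedComponents.coe_eq_coe]
      exact connectedComponent_eq hz
    rw [← ccHomeo_pow_coe, h2, ccHomeo_pow_coe, h1]
  -- h commutes with σ
  have hhσ : ∀ x : F, hF (σF x) = σF (hF x) := by
    intro x
    apply Subtype.ext
    rw [hhF, hσF, hσF, hhF]
    show h ((h ^ q) x) = (h ^ q) (h x)
    rw [← Homeomorph.mul_apply, ← Homeomorph.mul_apply, ← pow_succ, ← pow_succ']
  -- case split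
  by_cases hfree : ∀ z : ConnectedComponents F, ccHomeo σF z ≠ z
  · obtain ⟨τ, hτ, hτe⟩ := free_label (ccHomeo σF) p hp hcc hfree
    let τ' : F → ZMod p := fun x => τ (x : ConnectedComponents F)
    have hτ' : IsLocallyConstant τ' := hτ.comp_continuous ConnectedComponents.continuous_coe
    have : NeZero p := ⟨hp.ne_zero⟩
    obtain ⟨Wl, hWlo, hWld, hWlτ⟩ := extend_label F hFc τ' hτ' (fun a => a.val)
      (ZMod.val_injective p)
    refine S.case_free hY ⟨x0, fun hx => hx hx0B⟩ (fun x => if hx : x ∈ F then τ' ⟨x, hx⟩ else 0)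
      Wl hWlo hWld ?_ ?_
    · intro x hx
      simp only [dif_pos hx]
      exact hWlτ ⟨x, hx⟩
    · intro x hx
      have hx' := (hσi x).mpr hx
      simp only [dif_pos hx, dif_pos hx']
      have h6 := hτe ((⟨x, hx⟩ : F) : ConnectedComponents F)
      rw [ccHomeo_coe] at h6
      exact h6
  · push Not at hfree
    obtain ⟨z1, hz1⟩ := hfree
    by_cases hone : ∀ z, ccHomeo σF z = z → z = z1
    · -- the unique fixed component is h-invariant
      obtain ⟨x1, rfl⟩ := ConnectedComponents.surjective_coe z1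
      have hcomm' : ∀ z, ccHomeo σF (ccHomeo hF z) = ccHomeo hF (ccHomeo σF z) := by
        intro z
        obtain ⟨x, rfl⟩ := ConnectedComponents.surjective_coe z
        rw [ccHomeo_coe, ccHomeo_coe, ccHomeo_coe, ccHomeo_coe, hhσ]
      have hinv : ccHomeo hF (x1 : ConnectedComponents F) = x1 := by
        apply hone
        rw [hcomm', hz1]
      have hfwd : ∀ y : F, y ∈ connectedComponent x1 → hF y ∈ connectedComponent x1 := by
        intro y hy
        rw [← ConnectedComponents.coe_eq_coe'] at hy ⊢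
        rw [← ccHomeo_coe, hy, hinv]
      let K : Set Y := (↑) '' (connectedComponent x1)
      have hKc : IsClosed K := hFc.isClosedMap_subtype_val _ isClosed_connectedComponent
      have hKne : K.Nonempty := ⟨x1, x1, mem_connectedComponent, rfl⟩
      have hKp : IsPreconnected K :=
        isPreconnected_connectedComponent.image _ continuous_subtype_val.continuousOn
      have hKf : ∀ x ∈ K, h x ∈ K := by
        rintro _ ⟨y, hy, rfl⟩
        exact ⟨hF y, hfwd y hy, rfl⟩
      have hKfk : ∀ k : ℕ, ∀ x ∈ K, (h ^ k) x ∈ K := by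
        intro k
        induction k with
        | zero => intro x hx; simpa using hx
        | succ k ih =>
          intro x hx
          rw [pow_succ, Homeomorph.mul_apply]
          exact ih _ (hKf x hx)
      have hKi : ∀ x, h x ∈ K ↔ x ∈ K := by
        intro x
        refine ⟨fun hx => ?_, hKf x⟩
        obtain ⟨m', hm', hxm⟩ := hper x
        obtain ⟨k, rfl⟩ : ∃ k, m' = k + 1 := ⟨m' - 1, by omega⟩
        rw [pow_succ, Homeomorph.mul_apply] at hxm
        rw [← hxm]
        exact hKfk k _ hx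
      have hKuniv := hmin K hKc hKne hKp hKi
      have : x0 ∈ K := by rw [hKuniv]; trivial
      obtain ⟨y, -, hy⟩ := this
      exact y.2 (by rw [hy]; exact hx0B)
    · push Not at hone
      obtain ⟨z2, hz2, hne⟩ := hone
      obtain ⟨τ, hτ, hτe, hτ1, hτ2⟩ := two_label (ccHomeo σF) p hp.two_le hcc z1 z2 hz1 hne.symm
      obtain ⟨x1, rfl⟩ := ConnectedComponents.surjective_coe z1
      obtain ⟨x2, rfl⟩ := ConnectedComponents.surjective_coe z2
      let τ' : F → Bool := fun x => τ (x : ConnectedComponents F)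
      have hτ' : IsLocallyConstant τ' := hτ.comp_continuous ConnectedComponents.continuous_coe
      obtain ⟨Wl, hWlo, hWld, hWlτ⟩ := extend_label F hFc τ' hτ' (fun a => a.toNat)
        (by
          intro a b hab
          cases a <;> cases b <;> simp_all)
      let C : Bool → Set Y := fun l =>
        (↑) '' (connectedComponent (match l with | false => x1 | true => x2) : Set F)
      refine S.case_two hY (fun x => if hx : x ∈ F then τ' ⟨x, hx⟩ else false)
        Wl hWlo hWld ?_ ?_ C ?_ ?_ ?_ ?_ ?_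
      · intro x hx
        simp only [dif_pos hx]
        exact hWlτ ⟨x, hx⟩
      · intro x hx
        have hx' := (hσi x).mpr hx
        simp only [dif_pos hx, dif_pos hx']
        have h6 := hτe ((⟨x, hx⟩ : F) : ConnectedComponents F)
        rw [ccHomeo_coe] at h6
        exact h6
      · rintro l _ ⟨y, -, rfl⟩
        exact y.2
      · intro l
        exact isPreconnected_connectedComponent.image _ continuous_subtype_val.continuousOn
      · rintro l _ ⟨y, hy, rfl⟩
        refine ⟨σF y, ?_, rfl⟩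
        rw [← ConnectedComponents.coe_eq_coe'] at hy ⊢
        rw [← ccHomeo_coe, hy]
        cases l
        · exact hz1
        · exact hz2
      · intro l
        exact ⟨_, _, mem_connectedComponent, rfl⟩
      · rintro l _ ⟨y, hy, rfl⟩
        rw [← ConnectedComponents.coe_eq_coe'] at hy
        have hyF : (y : Y) ∈ F := y.2
        simp only [dif_pos hyF]
        show τ ((⟨(y : Y), hyF⟩ : F) : ConnectedComponents F) = l
        rw [show (⟨(y : Y), hyF⟩ : F) = y from rfl, hy]
        cases l
        · exact hτ1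
        · exact hτ2

end Pool.Agent.H77
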