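import Pool.Agent.H77.TreeLikeF

open Set Topology

namespace Pool.Agent.H77

theorem chain_inter {X : Type*} [TopologicalSpace X] [CompactSpace X] [T2Space X]
    (c : Set (Set X)) (hc : IsChain (· ⊆ ·) c) (hne : c.Nonempty)
    (h1 : ∀ K ∈ c, IsClosed K) (h2 : ∀ K ∈ c, K.Nonempty) (h3 : ∀ K ∈ c, IsPreconnected K) :
    (⋂₀ c).Nonempty ∧ IsPreconnected (⋂₀ c) := by
  have hdir : DirectedOn (· ⊇ ·) c := by
    intro a ha b hb
    rcases hc.total ha hb with h | h
    · exact ⟨a, ha, subset_rfl, h⟩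
    · exact ⟨b, hb, h, subset_rfl⟩
  have hcl : IsClosed (⋂₀ c) := isClosed_sInter h1
  have : Nonempty c := hne.coe_sort
  refine ⟨IsCompact.nonempty_sInter_of_directed_nonempty_isCompact_isClosed hdir h2
    (fun K hK => (h1 K hK).isCompact) h1, ?_⟩
  rw [isPreconnected_iff_subset_of_fully_disjoint_closed hcl]
  intro u v hu hv huv hd
  obtain ⟨U, V, hU, hV, huU, hvV, hUV⟩ := normal_separation hu hv hd
  have hdir' : Directed (· ⊇ ·) (fun K : c => (K : Set X)) := by
    rintro ⟨a, ha⟩ ⟨b, hb⟩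
    obtain ⟨d, hd, h1, h2⟩ := hdir a ha b hb
    exact ⟨⟨d, hd⟩, h1, h2⟩
  obtain ⟨⟨K, hK⟩, hKU⟩ := exists_subset_nhds_of_isCompact' hdir'
    (fun K => (h1 K.1 K.2).isCompact) (fun K => h1 K.1 K.2) (U := U ∪ V) (by
      intro x hx
      apply (hU.union hV).mem_nhds
      rw [← sInter_eq_iInter] at hx
      exact union_subset_union huU hvV (huv hx))
  have hKU' : K ⊆ U ∪ V := hKU
  have hsub : ⋂₀ c ⊆ K := sInter_subset_of_mem hK
  rcases (h3 K hK).subset_or_subset hU hV hUV hKU' with h | h
  · left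
    intro x hx
    rcases huv hx with hxu | hxv
    · exact hxu
    · exact absurd (hvV hxv) (Set.disjoint_left.mp hUV (h (hsub hx)))
  · right
    intro x hx
    rcases huv hx with hxu | hxv
    · exact absurd (h (hsub hx)) (Set.disjoint_left.mp hUV (huU hxu))
    · exact hxv

/-- Every pointwise periodic homeomorphism of a tree-like continuum has a fixed point. -/
theorem TreeLike.exists_fixed {X : Type*} [TopologicalSpace X] [CompactSpace X] [T2Space X]
    [ConnectedSpace X] (hX : TreeLike X) (f : X ≃ₜ X)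
    (hper : ∀ x, ∃ m : ℕ, 0 < m ∧ (⇑f)^[m] x = x) : ∃ x, f x = x := by
  have hit : ∀ (k : ℕ) (x : X), (f ^ k) x = (⇑f)^[k] x := by
    intro k
    induction k with
    | zero => intro x; rfl
    | succ k ih => intro x; rw [pow_succ, Homeomorph.mul_apply, ih, Function.iterate_succ_apply]
  obtain ⟨K, hK⟩ := zorn_superset
    {K : Set X | IsClosed K ∧ K.Nonempty ∧ IsPreconnected K ∧ ∀ x, f x ∈ K ↔ x ∈ K} (by
      intro c hcS hc
      rcases c.eq_empty_or_nonempty with rfl | hne
      · exact ⟨univ, ⟨isClosed_univ, univ_nonempty, isPreconnected_univ, fun x => by simp⟩,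
          fun s hs => absurd hs (notMem_empty s)⟩
      · have hh := chain_inter c hc hne (fun K hK => (hcS hK).1) (fun K hK => (hcS hK).2.1)
          (fun K hK => (hcS hK).2.2.1)
        refine ⟨⋂₀ c, ⟨isClosed_sInter fun K hK => (hcS hK).1, hh.1, hh.2, ?_⟩,
          fun s hs => sInter_subset_of_mem hs⟩
        intro x
        simp only [mem_sInter]
        exact forall₂_congr fun K hK => (hcS hK).2.2.2 x)
  obtain ⟨⟨hKc, hKne, hKp, hKi⟩, hKmin⟩ := hK
  have : CompactSpace K := isCompact_iff_compactSpace.mp hKc.isCompact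
  have : ConnectedSpace K := isConnected_iff_connectedSpace.mp ⟨hKne, hKp⟩
  let g : K ≃ₜ K := f.subtype (fun x => (hKi x).symm)
  have hg : ∀ x : K, ((g x : K) : X) = f x := fun x => rfl
  have hgk : ∀ (k : ℕ) (x : K), (((g ^ k) x : K) : X) = (f ^ k) x := by
    intro k
    induction k with
    | zero => intro x; rfl
    | succ k ih => intro x; rw [pow_succ, pow_succ, Homeomorph.mul_apply, Homeomorph.mul_apply, ih,
        hg]
  obtain ⟨x, hx⟩ := minimal_case (hX.subtype K hKc hKne) g (by
      intro x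
      obtain ⟨m, hm, hx⟩ := hper x
      refine ⟨m, hm, Subtype.ext ?_⟩
      rw [hgk, hit, hx])
    (by
      intro L hLc hLne hLp hLi
      have hsub : ((↑) '' L : Set X) ⊆ K := by
        rintro _ ⟨y, -, rfl⟩
        exact y.2
      have h1 : K ⊆ ((↑) '' L : Set X) := by
        refine hKmin ⟨hKc.isClosedMap_subtype_val _ hLc, hLne.image _,
          hLp.image _ continuous_subtype_val.continuousOn, ?_⟩ hsub
        intro x
        constructor
        · rintro ⟨y, hy, hyx⟩
          have hxK : x ∈ K := (hKi x).mp (by rw [← hyx]; exact y.2)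
          refine ⟨⟨x, hxK⟩, ?_, rfl⟩
          rw [← hLi]
          have : g ⟨x, hxK⟩ = y := Subtype.ext (by rw [hg, hyx])
          rw [this]; exact hy
        · rintro ⟨y, hy, rfl⟩
          exact ⟨g y, (hLi y).mpr hy, rfl⟩
      apply Set.eq_univ_of_forall
      intro y
      obtain ⟨z, hz, hzy⟩ := h1 y.2
      have : z = y := Subtype.ext hzy
      rw [← this]; exact hz)
  exact ⟨x, by rw [← hg, hx]⟩

end Pool.Agent.H77
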